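import Pool.Agent.NCE.Stmts

set_option autoImplicit false

open Finset
open scoped Classical

namespace NCE
namespace MCON

variable {Ω : Type} [Fintype Ω] {γ : Type}

theorem pr_nn (P : FP Ω) (Z : Ω → γ) (z : γ) : 0 ≤ pr P Z z := by
  unfold pr
  apply Finset.sum_nonneg
  intro ω _
  split_ifs
  · exact P.nn ω
  · exact le_refl _

theorem le_pr (P : FP Ω) (Z : Ω → γ) (ω : Ω) : P.p ω ≤ pr P Z (Z ω) := by
  unfold pr
  have h : (if Z ω = Z ω then P.p ω else 0) ≤ ∑ ω', if Z ω' = Z ω then P.p ω' else 0 := by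
    apply Finset.single_le_sum (f := fun ω' => if Z ω' = Z ω then P.p ω' else 0)
    · intro i _
      show 0 ≤ if Z i = Z ω then P.p i else 0
      split_ifs
      · exact P.nn i
      · exact le_refl _
    · exact Finset.mem_univ ω
  simpa using h

theorem pr_pos (P : FP Ω) (Z : Ω → γ) (ω : Ω) (h : P.p ω ≠ 0) : 0 < pr P Z (Z ω) :=
  lt_of_lt_of_le (lt_of_le_of_ne (P.nn ω) (Ne.symm h)) (le_pr P Z ω)

/-- the conditional law -/
noncomputable def cnd (P : FP Ω) (Z : Ω → γ) (z : γ) (h : 0 < pr P Z z) : FP Ω where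
  p := fun ω' => (if Z ω' = z then P.p ω' else 0) / pr P Z z
  nn := by
    intro ω'
    apply div_nonneg _ h.le
    split_ifs
    · exact P.nn ω'
    · exact le_refl _
  one := by
    rw [← Finset.sum_div]
    exact div_self h.ne'

/-- the family of the conditional laws -/
noncomputable def Q (P : FP Ω) (Z : Ω → γ) (ω : Ω) : FP Ω :=
  if h : 0 < pr P Z (Z ω) then cnd P Z (Z ω) h else P

theorem Q_p (P : FP Ω) (Z : Ω → γ) (ω ω' : Ω) (h : P.p ω ≠ 0) :
    (Q P Z ω).p ω' = (if Z ω' = Z ω then P.p ω' else 0) / pr P Z (Z ω) := by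
  have hp := pr_pos P Z ω h
  unfold Q
  rw [dif_pos hp]
  rfl

theorem Q_supp (P : FP Ω) (Z : Ω → γ) (ω ω' : Ω) (h : P.p ω ≠ 0) (h' : (Q P Z ω).p ω' ≠ 0) :
    Z ω' = Z ω ∧ P.p ω' ≠ 0 := by
  rw [Q_p P Z ω ω' h] at h'
  by_cases hz : Z ω' = Z ω
  · refine ⟨hz, ?_⟩
    intro h0
    apply h'
    rw [if_pos hz, h0, zero_div]
  · exfalso
    apply h'
    rw [if_neg hz, zero_div]

theorem ex_ex (P : FP Ω) (Z : Ω → γ) (f : Ω → ℝ) :
    ex P f = ex P fun ω => ex (Q P Z ω) f := by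
  unfold ex
  have h1 : ∀ ω, P.p ω * ∑ ω', (Q P Z ω).p ω' * f ω' =
      ∑ ω', (if Z ω = Z ω' then P.p ω else 0) / pr P Z (Z ω') * (P.p ω' * f ω') := by
    intro ω
    by_cases h : P.p ω = 0
    · rw [h, zero_mul]
      symm
      apply Finset.sum_eq_zero
      intro ω' _
      split_ifs <;> simp
    · rw [Finset.mul_sum]
      apply Finset.sum_congr rfl
      intro ω' _
      rw [Q_p P Z ω ω' h]
      by_cases hz : Z ω' = Z ω
      · rw [if_pos hz, if_pos hz.symm, hz]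
        ring
      · rw [if_neg hz, if_neg (fun h => hz h.symm)]
        simp
  rw [Finset.sum_congr rfl (fun ω _ => h1 ω), Finset.sum_comm]
  apply Finset.sum_congr rfl
  intro ω' _
  rw [← Finset.sum_mul, ← Finset.sum_div]
  by_cases h : P.p ω' = 0
  · rw [h]
    ring
  · have hp := pr_pos P Z ω' h
    have h2 : (∑ i, if Z i = Z ω' then P.p i else 0) = pr P Z (Z ω') := rfl
    rw [h2, div_self hp.ne', one_mul]

theorem pr_Q (P : FP Ω) (Z : Ω → γ) {α : Type} (X : Ω → α) (ω ω' : Ω) (h : P.p ω ≠ 0)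
    (hz : Z ω' = Z ω) :
    pr (Q P Z ω) X (X ω') = pr P (fun ω => (Z ω, X ω)) (Z ω', X ω') / pr P Z (Z ω') := by
  unfold pr
  rw [Finset.sum_div]
  apply Finset.sum_congr rfl
  intro i _
  rw [Q_p P Z ω i h]
  have h2 : (∑ i, if Z i = Z ω' then P.p i else 0) = pr P Z (Z ω') := rfl
  rw [h2, hz]
  by_cases h3 : X i = X ω'
  · by_cases h4 : Z i = Z ω
    · simp [h3, h4]
    · simp [h3, h4]
  · simp [h3]

theorem H_Q (P : FP Ω) (Z : Ω → γ) {α : Type} (X : Ω → α) :
    (ex P fun ω => H (Q P Z ω) X) =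
      ex P fun ω => ex (Q P Z ω) fun ω' =>
        - Real.log (pr P (fun ω => (Z ω, X ω)) (Z ω', X ω')) + Real.log (pr P Z (Z ω')) := by
  unfold ex
  apply Finset.sum_congr rfl
  intro ω _
  by_cases h : P.p ω = 0
  · rw [h, zero_mul, zero_mul]
  · congr 1
    unfold H ex
    apply Finset.sum_congr rfl
    intro ω' _
    by_cases h' : (Q P Z ω).p ω' = 0
    · rw [h', zero_mul, zero_mul]
    · congr 1
      obtain ⟨hz, hp⟩ := Q_supp P Z ω ω' h h'
      show - Real.log (pr (Q P Z ω) X (X ω')) =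
        - Real.log (pr P (fun ω => (Z ω, X ω)) (Z ω', X ω')) + Real.log (pr P Z (Z ω'))
      rw [pr_Q P Z X ω ω' h hz,
        Real.log_div (pr_pos P (fun ω => (Z ω, X ω)) ω' hp).ne' (pr_pos P Z ω' hp).ne']
      ring

end MCON

theorem t_CON : S_CON := by
  intro Ω _ P γ Z
  refine ⟨MCON.Q P Z, fun ω ω' h h' => MCON.Q_supp P Z ω ω' h h', ?_, fun f => MCON.ex_ex P Z f⟩
  intro α X
  rw [MCON.H_Q P Z X, ← MCON.ex_ex P Z]
  unfold H ex
  rw [← Finset.sum_add_distrib]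
  apply Finset.sum_congr rfl
  intro ω _
  ring

end NCE
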