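import Pool.Agent.NCE.Stmts

/-!
# CNT: the conditional counting bound
-/

set_option autoImplicit false

open Finset
open scoped Classical

namespace NCE

namespace MCNT

theorem pr_pos {Ω : Type} [Fintype Ω] (P : FP Ω) {α : Type} (V : Ω → α) {ω : Ω}
    (h : P.p ω ≠ 0) : 0 < pr P V (V ω) := by
  have h0 : 0 < P.p ω := lt_of_le_of_ne (P.nn ω) (Ne.symm h)
  have h1 : (if V ω = V ω then P.p ω else 0) ≤ pr P V (V ω) := by
    unfold pr
    refine Finset.single_le_sum (f := fun ω' => if V ω' = V ω then P.p ω' else 0) ?_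
      (Finset.mem_univ ω)
    intro i _
    show 0 ≤ if V i = V ω then P.p i else 0
    split_ifs
    · exact P.nn i
    · exact le_rfl
  rw [if_pos rfl] at h1
  linarith

theorem sum_pr_le {Ω : Type} [Fintype Ω] (P : FP Ω) {α : Type} (V : Ω → α) (T : Finset α) :
    ∑ v ∈ T, pr P V v ≤ 1 := by
  unfold pr
  rw [Finset.sum_comm]
  calc ∑ ω, ∑ v ∈ T, (if V ω = v then P.p ω else 0) ≤ ∑ ω, P.p ω := by
        refine Finset.sum_le_sum fun ω _ => ?_
        rw [Finset.sum_ite_eq]
        split_ifs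
        · exact le_rfl
        · exact P.nn ω
    _ = 1 := P.one

end MCNT

theorem t_CNT (hGIB : S_GIB) : S_CNT := by
  intro Ω _ P α β V W F hF
  set T : Finset α := (Finset.univ.filter fun ω => P.p ω ≠ 0).image V with hT
  set S : Finset (α × β) :=
    T.biUnion fun v => (F v).map ⟨Prod.mk v, Prod.mk_right_injective v⟩ with hS
  set r : α × β → ℝ := fun z => pr P V z.1 / ((F z.1).card : ℝ) with hr
  have hTm : ∀ v ∈ T, ∃ ω, P.p ω ≠ 0 ∧ V ω = v := by
    intro v hv
    rw [hT, Finset.mem_image] at hv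
    obtain ⟨ω, hω, rfl⟩ := hv
    exact ⟨ω, (Finset.mem_filter.1 hω).2, rfl⟩
  have hVT : ∀ ω, P.p ω ≠ 0 → V ω ∈ T := fun ω hω =>
    Finset.mem_image_of_mem V (Finset.mem_filter.2 ⟨Finset.mem_univ ω, hω⟩)
  have hprT : ∀ v ∈ T, 0 < pr P V v := by
    intro v hv
    obtain ⟨ω, h1, rfl⟩ := hTm v hv
    exact MCNT.pr_pos P V h1
  have hcard : ∀ v ∈ T, 0 < ((F v).card : ℝ) := by
    intro v hv
    obtain ⟨ω, h1, rfl⟩ := hTm v hv
    exact_mod_cast Finset.card_pos.2 ⟨W ω, hF ω h1⟩
  have hSm : ∀ z ∈ S, z.1 ∈ T ∧ z.2 ∈ F z.1 := by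
    intro z hz
    rw [hS, Finset.mem_biUnion] at hz
    obtain ⟨v, hv, hz⟩ := hz
    rw [Finset.mem_map] at hz
    obtain ⟨w, hw, rfl⟩ := hz
    exact ⟨hv, hw⟩
  have h1 := hGIB Ω P (α × β) (fun ω => (V ω, W ω)) S r
    (fun z hz => div_pos (hprT _ (hSm z hz).1) (hcard _ (hSm z hz).1))
    (fun ω hω => by
      rw [hS, Finset.mem_biUnion]
      exact ⟨V ω, hVT ω hω, Finset.mem_map.2 ⟨W ω, hF ω hω, rfl⟩⟩)
  -- the total weight
  have h2 : ∑ z ∈ S, r z ≤ 1 := by
    have h3 : ∑ z ∈ S, r z = ∑ v ∈ T, pr P V v := by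
      rw [hS, Finset.sum_biUnion]
      · refine Finset.sum_congr rfl fun v hv => ?_
        rw [Finset.sum_map]
        show ∑ w ∈ F v, pr P V v / ((F v).card : ℝ) = pr P V v
        rw [Finset.sum_const, nsmul_eq_mul]
        have := hcard v hv
        field_simp
      · intro v _ v' _ hvv
        show Disjoint _ _
        rw [Finset.disjoint_left]
        intro z hz hz'
        rw [Finset.mem_map] at hz hz'
        obtain ⟨w, _, rfl⟩ := hz
        obtain ⟨w', _, h5⟩ := hz'
        apply hvv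
        have h6 := congrArg Prod.fst h5
        exact h6.symm
    rw [h3]
    exact MCNT.sum_pr_le P V T
  have h3 : Real.log (∑ z ∈ S, r z) ≤ 0 := by
    refine Real.log_nonpos ?_ h2
    exact Finset.sum_nonneg fun z hz =>
      (div_pos (hprT _ (hSm z hz).1) (hcard _ (hSm z hz).1)).le
  have h4 : ex P (fun ω => Real.log (r (V ω, W ω)))
      = -(H P V) - ex P (fun ω => Real.log (F (V ω)).card) := by
    unfold H ex
    rw [← Finset.sum_neg_distrib, ← Finset.sum_sub_distrib]
    refine Finset.sum_congr rfl fun ω _ => ?_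
    by_cases h : P.p ω = 0
    · simp [h]
    · have e1 := hprT _ (hVT ω h)
      have e2 := hcard _ (hVT ω h)
      simp only [hr]
      rw [Real.log_div e1.ne' e2.ne']
      ring
  rw [h4] at h1
  linarith

end NCE
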