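import Pool.Agent.NCE.Stmts

/-!
# E3T: two copies of a triple glued over the differences
-/

set_option autoImplicit false

open Finset
open scoped Classical

namespace NCE

namespace ME3T

theorem rr_pos (A : Finset ℝ) {u v : ℝ} (hu : u ∈ A) (hv : v ∈ A) : 0 < rr A (u - v) := by
  unfold rr
  apply Finset.card_pos.2
  exact ⟨(u, v), by
    rw [mem_filter, mem_product]
    exact ⟨⟨hu, hv⟩, rfl⟩⟩

end ME3T

open ME3T in
theorem t_E3T (hDET : S_DET) (_hSLF : S_SLF) (_hSUB : S_SUB) (hSGL : S_SGL) (hG3 : S_G3)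
    (hLEV : S_LEV) : S_E3T := by
  intro ε hε
  obtain ⟨K, hK, hG⟩ := hG3 ε hε
  refine ⟨K, hK, ?_⟩
  intro n a hn ha Ω _ P x y z hA
  obtain ⟨Ω', hF, P', π₁, π₂, hY, _, _, _, hH⟩ :=
    hSGL Ω P (ℝ × ℝ) (fun ω => (x ω - y ω, y ω - z ω))
  have hY1 : ∀ q, x (π₁ q) - y (π₁ q) = x (π₂ q) - y (π₂ q) := fun q => (Prod.mk.inj (hY q)).1
  have hY2 : ∀ q, y (π₁ q) - z (π₁ q) = y (π₂ q) - z (π₂ q) := fun q => (Prod.mk.inj (hY q)).2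
  have hdet : Det (fun ω => (x ω, y ω, z ω)) (fun ω => (x ω - y ω, y ω - z ω)) := by
    intro ω ω' h
    obtain ⟨h1, h2⟩ := Prod.mk.inj h
    obtain ⟨h2, h3⟩ := Prod.mk.inj h2
    simp only [h1, h2, h3]
  have hJ := hH (ℝ × ℝ × ℝ) (ℝ × ℝ × ℝ) (fun ω => (x ω, y ω, z ω)) (fun ω => (x ω, y ω, z ω))
    hdet hdet
  have hpos : ∀ q, 0 < rr (cs n a) (x (π₂ q) - x (π₁ q)) := fun q =>
    rr_pos _ (hA (π₂ q)).1 (hA (π₁ q)).1
  have hg := hG n a hn ha Ω' P' (fun q => x (π₂ q) - x (π₁ q)) hpos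
  have h1 := hLEV (cs n a) Ω' P' ℝ (fun q => x (π₂ q) - x (π₁ q)) (fun q => x (π₂ q) - x (π₁ q))
    (fun q => x (π₂ q)) (fun _ _ h => h) (fun q => ⟨(hA (π₂ q)).1, by
      rw [show x (π₂ q) - (x (π₂ q) - x (π₁ q)) = x (π₁ q) by ring]
      exact (hA (π₁ q)).1⟩)
  have h2 := hLEV (cs n a) Ω' P' (ℝ × ℝ) (fun q => (x (π₂ q) - x (π₁ q), x (π₂ q)))
    (fun q => x (π₂ q) - x (π₁ q))
    (fun q => y (π₂ q)) (fun _ _ h => (Prod.mk.inj h).1) (fun q => ⟨(hA (π₂ q)).2.1, by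
      rw [show y (π₂ q) - (x (π₂ q) - x (π₁ q)) = y (π₁ q) by linarith [hY1 q]]
      exact (hA (π₁ q)).2.1⟩)
  have h3 := hLEV (cs n a) Ω' P' ((ℝ × ℝ) × ℝ)
    (fun q => ((x (π₂ q) - x (π₁ q), x (π₂ q)), y (π₂ q)))
    (fun q => x (π₂ q) - x (π₁ q))
    (fun q => z (π₂ q)) (fun _ _ h => (Prod.mk.inj (Prod.mk.inj h).1).1)
    (fun q => ⟨(hA (π₂ q)).2.2, by
      rw [show z (π₂ q) - (x (π₂ q) - x (π₁ q)) = z (π₁ q) by linarith [hY1 q, hY2 q]]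
      exact (hA (π₁ q)).2.2⟩)
  have h4 := hDET Ω' P' (((ℝ × ℝ) × ℝ) × ℝ) ((ℝ × ℝ × ℝ) × (ℝ × ℝ × ℝ))
    (fun q => (((x (π₂ q) - x (π₁ q), x (π₂ q)), y (π₂ q)), z (π₂ q)))
    (fun q => ((x (π₁ q), y (π₁ q), z (π₁ q)), (x (π₂ q), y (π₂ q), z (π₂ q)))) (by
      intro q q' h
      obtain ⟨h5, hz⟩ := Prod.mk.inj h
      obtain ⟨h6, hy⟩ := Prod.mk.inj h5
      obtain ⟨hd, hx⟩ := Prod.mk.inj h6
      have e1 : x (π₁ q) = x (π₁ q') := by linarith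
      have e2 : y (π₁ q) = y (π₁ q') := by linarith [hY1 q, hY1 q']
      have e3 : z (π₁ q) = z (π₁ q') := by linarith [hY2 q, hY2 q']
      simp only [e1, e2, e3, hx, hy, hz])
  linarith

end NCE
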