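import Pool.Agent.NCE.Stmts

/-!
# Module FRE: a fresh representation of a difference

Problem MP_f03f67_co.
-/

set_option autoImplicit false

open Finset
open scoped Classical

namespace NCE
namespace MFRE

/-- The possible values of the larger element of a representation of `z`. -/
noncomputable def fb (A : Finset ℝ) (z : ℝ) : Finset ℝ := A.filter fun g => g - z ∈ A

lemma card_fb (A : Finset ℝ) (z : ℝ) : (fb A z).card = rr A z := by
  unfold fb rr
  refine Finset.card_bij (fun g _ => (g, g - z)) ?_ ?_ ?_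
  · intro g hg
    rw [Finset.mem_filter] at hg
    rw [Finset.mem_filter, Finset.mem_product]
    exact ⟨⟨hg.1, hg.2⟩, sub_sub_cancel g z⟩
  · intro a _ b _ h
    exact (Prod.mk.inj h).1
  · intro q h
    rw [Finset.mem_filter, Finset.mem_product] at h
    have h2 : q.1 - z = q.2 := by
      have h3 := h.2
      linarith
    refine ⟨q.1, ?_, ?_⟩
    · rw [Finset.mem_filter, h2]
      exact h.1
    · simp only [h2]

section

variable {Ω : Type} [Fintype Ω]

/-- The space of the pairs of a point and a representation. -/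
abbrev Sp (A : Finset ℝ) (z : Ω → ℝ) : Type := Σ ω : Ω, {g : ℝ // g ∈ fb A (z ω)}

lemma sum_sp (A : Finset ℝ) (z : Ω → ℝ) (f : Ω → ℝ → ℝ) :
    ∑ q : Sp A z, f q.1 q.2.1 = ∑ ω, ∑ g ∈ fb A (z ω), f ω g := by
  rw [Fintype.sum_sigma]
  refine sum_congr rfl fun ω _ => ?_
  exact Finset.sum_coe_sort (fb A (z ω)) (fun g => f ω g)

/-- The probability on the space of the pairs. -/
noncomputable def QQ (P : FP Ω) (A : Finset ℝ) (z : Ω → ℝ) (h : ∀ ω, 0 < rr A (z ω)) :
    FP (Sp A z) where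
  p q := P.p q.1 / rr A (z q.1)
  nn q := div_nonneg (P.nn _) (Nat.cast_nonneg _)
  one := by
    rw [sum_sp A z (fun ω _ => P.p ω / rr A (z ω)), ← P.one]
    refine sum_congr rfl fun ω _ => ?_
    have h1 : (rr A (z ω) : ℝ) ≠ 0 := by exact_mod_cast (h ω).ne'
    rw [sum_const, card_fb, nsmul_eq_mul]
    field_simp

lemma sl_fst (P : FP Ω) (A : Finset ℝ) (z : Ω → ℝ) (h : ∀ ω, 0 < rr A (z ω)) :
    SL (QQ P A z h) (fun q => q.1) P id := by
  intro x
  unfold pr
  have h0 : ∑ q : Sp A z, (if q.1 = x then (QQ P A z h).p q else 0) =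
      ∑ ω, ∑ _g ∈ fb A (z ω), (if ω = x then P.p ω / rr A (z ω) else 0) :=
    sum_sp A z (fun ω _ => if ω = x then P.p ω / rr A (z ω) else 0)
  rw [h0]
  refine sum_congr rfl fun ω _ => ?_
  have h1 : (rr A (z ω) : ℝ) ≠ 0 := by exact_mod_cast (h ω).ne'
  rw [sum_const, card_fb, nsmul_eq_mul]
  by_cases hx : ω = x
  · rw [if_pos hx, if_pos (show id ω = x from hx)]
    field_simp
  · rw [if_neg hx, if_neg (show ¬ id ω = x from hx), mul_zero]

lemma pr_pair (P : FP Ω) (A : Finset ℝ) (z : Ω → ℝ) (h : ∀ ω, 0 < rr A (z ω)) {α : Type}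
    (X : Ω → α) (hX : Det X z) (q₀ : Sp A z) :
    pr (QQ P A z h) (fun q => (X q.1, q.2.1)) (X q₀.1, q₀.2.1) =
      pr P X (X q₀.1) / rr A (z q₀.1) := by
  unfold pr
  refine (sum_sp A z (fun ω g => @ite ℝ ((X ω, g) = (X q₀.1, q₀.2.1)) (Classical.propDecidable _)
    (P.p ω / rr A (z ω)) 0)).trans ?_
  rw [Finset.sum_div]
  refine sum_congr rfl fun ω _ => ?_
  by_cases hx : X ω = X q₀.1
  · rw [if_pos hx]
    have hz : z ω = z q₀.1 := hX _ _ hx
    rw [hz, hx]
    rw [Finset.sum_eq_single_of_mem q₀.2.1 q₀.2.2]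
    · rw [if_pos rfl]
    · intro g _ hg
      rw [if_neg]
      intro hh
      exact hg (Prod.mk.inj hh).2
  · rw [if_neg hx, zero_div]
    refine Finset.sum_eq_zero fun g _ => ?_
    rw [if_neg]
    intro hh
    exact hx (Prod.mk.inj hh).1

lemma le_pr (P : FP Ω) {α : Type} (X : Ω → α) (ω : Ω) : P.p ω ≤ pr P X (X ω) := by
  unfold pr
  have h1 := Finset.single_le_sum (s := (univ : Finset Ω))
    (f := fun ω' => if X ω' = X ω then P.p ω' else 0)
    (fun i _ => by
      show 0 ≤ (if X i = X ω then P.p i else 0)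
      split_ifs
      · exact P.nn i
      · exact le_refl 0) (Finset.mem_univ ω)
  rw [if_pos rfl] at h1
  exact h1

lemma ent (hSLF : S_SLF) (P : FP Ω) (A : Finset ℝ) (z : Ω → ℝ) (h : ∀ ω, 0 < rr A (z ω))
    {α : Type} (X : Ω → α) (hX : Det X z) :
    H (QQ P A z h) (fun q => (X q.1, q.2.1)) =
      H P X + ex P fun ω => Real.log (rr A (z ω)) := by
  have h1 : H (QQ P A z h) (fun q => (X q.1, q.2.1)) =
      ex (QQ P A z h) (fun q => - Real.log (pr P X (X q.1)) + Real.log (rr A (z q.1))) := by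
    unfold H ex
    refine sum_congr rfl fun q _ => ?_
    show (QQ P A z h).p q * (- Real.log (pr (QQ P A z h) (fun q => (X q.1, q.2.1))
      (X q.1, q.2.1))) = (QQ P A z h).p q *
        (- Real.log (pr P X (X q.1)) + Real.log (rr A (z q.1)))
    rw [pr_pair P A z h X hX q]
    by_cases hp : P.p q.1 = 0
    · have h2 : (QQ P A z h).p q = 0 := by
        show P.p q.1 / rr A (z q.1) = 0
        rw [hp, zero_div]
      rw [h2, zero_mul, zero_mul]
    · have h3 : 0 < pr P X (X q.1) :=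
        lt_of_lt_of_le (lt_of_le_of_ne (P.nn _) (Ne.symm hp)) (le_pr P X q.1)
      have h4 : (rr A (z q.1) : ℝ) ≠ 0 := by exact_mod_cast (h q.1).ne'
      rw [Real.log_div h3.ne' h4]
      ring
  rw [h1]
  have h5 := (hSLF (Sp A z) Ω (QQ P A z h) P Ω Ω (fun q => q.1) id id
    (fun ω => - Real.log (pr P X (X ω)) + Real.log (rr A (z ω))) (sl_fst P A z h)).2.2
  rw [h5]
  unfold H ex
  rw [← Finset.sum_add_distrib]
  refine sum_congr rfl fun ω _ => ?_
  exact mul_add _ _ _

end

end MFRE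

open MFRE in
theorem t_FRE (hSLF : S_SLF) : S_FRE := by
  intro Ω _ P A z h
  refine ⟨Sp A z, inferInstance, QQ P A z h, fun q => q.1, fun q => q.2.1, ?_, sl_fst P A z h, ?_⟩
  · intro q
    have h1 := q.2.2
    unfold fb at h1
    rw [Finset.mem_filter] at h1
    exact h1
  · intro α X hX
    exact ent hSLF P A z h X hX

end NCE
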