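import Pool.Agent.NCE.Stmts

/-!
# Entropy calculus for the additive energy of convex sets: third moment of the representation function

Proof of `S_G3`.
-/

set_option autoImplicit false

open Finset
open scoped Classical

namespace NCE

namespace MG3

/-- The representation function in terms of `rc`. -/
theorem rr_eq_rc (A : Finset ℝ) (x : ℝ) : rr A x = rc A A x := by
  unfold rr rc
  symm
  refine Finset.card_bij (fun b _ => (b + x, b)) ?_ ?_ ?_
  · intro b hb
    rw [Finset.mem_filter] at hb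
    rw [Finset.mem_filter, Finset.mem_product]
    exact ⟨⟨hb.2, hb.1⟩, by simp⟩
  · intro b _ b' _ h
    exact (Prod.mk.inj h).2
  · intro q hq
    rw [Finset.mem_filter, Finset.mem_product] at hq
    refine ⟨q.2, ?_, ?_⟩
    · rw [Finset.mem_filter]
      refine ⟨hq.1.2, ?_⟩
      have h1 : q.2 + x = q.1 := by rw [← hq.2]; ring
      rw [h1]
      exact hq.1.1
    · have h1 : q.2 + x = q.1 := by rw [← hq.2]; ring
      exact Prod.ext h1 rfl

/-- The set of the differences. -/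
noncomputable def dS (A : Finset ℝ) : Finset ℝ := (A ×ˢ A).image fun q => q.1 - q.2

theorem mem_dS {A : Finset ℝ} {x : ℝ} : x ∈ dS A ↔ 0 < rr A x := by
  unfold dS rr
  rw [Finset.card_pos]
  constructor
  · intro h
    obtain ⟨q, hq, he⟩ := Finset.mem_image.mp h
    exact ⟨q, Finset.mem_filter.mpr ⟨hq, he⟩⟩
  · rintro ⟨q, hq⟩
    rw [Finset.mem_filter] at hq
    exact Finset.mem_image.mpr ⟨q, hq.1, hq.2⟩

/-- `log (1 + x)` is small compared with `x`. -/
theorem log_small {δ x : ℝ} (hδ : 0 < δ) (hx : 0 ≤ x) :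
    Real.log (1 + x) ≤ δ * x + (δ - 1 - Real.log δ) := by
  have h1 : 0 < 1 + x := by linarith
  have h2 := Real.log_le_sub_one_of_pos (mul_pos hδ h1)
  rw [Real.log_mul hδ.ne' h1.ne'] at h2
  linarith

end MG3

open MG3 in
theorem t_G3 (hGIB : S_GIB) (hINC : S_INC) : S_G3 := by
  intro ε hε
  refine ⟨|Real.log 16 + 2 * (ε / 2 - 1 - Real.log (ε / 2))|, abs_nonneg _, ?_⟩
  intro n a hn ha Ω _ P z hz
  set A := cs n a with hA
  have hAne : A.Nonempty := by
    refine ⟨a 0, ?_⟩
    rw [hA, cs]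
    exact Finset.mem_image.mpr ⟨0, Finset.mem_range.mpr hn, rfl⟩
  have hAc : A.card ≤ n := by
    have h := Finset.card_image_le (s := range n) (f := a)
    rw [Finset.card_range] at h
    exact h
  have hn1 : (1 : ℝ) ≤ n := by exact_mod_cast hn
  have hlogn : 0 ≤ Real.log n := Real.log_nonneg hn1
  have hA1 : (1 : ℝ) ≤ A.card := by exact_mod_cast Finset.card_pos.mpr hAne
  have hAn : (A.card : ℝ) ≤ n := by exact_mod_cast hAc
  have hlogA : Real.log A.card ≤ Real.log n := Real.log_le_log (by linarith) hAn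
  have hlogA0 : 0 ≤ Real.log A.card := Real.log_nonneg hA1
  -- Gibbs
  have h1 := hGIB Ω P ℝ z (dS A) (fun x => ((rr A x : ℝ)) ^ 3)
    (fun x hx => by
      have : (0 : ℝ) < rr A x := by exact_mod_cast mem_dS.mp hx
      positivity)
    (fun ω _ => mem_dS.mpr (hz ω))
  have h2 : ex P (fun ω => Real.log (((rr A (z ω) : ℝ)) ^ 3)) =
      3 * ex P (fun ω => Real.log (rr A (z ω))) := by
    unfold ex
    rw [Finset.mul_sum]
    refine Finset.sum_congr rfl fun ω _ => ?_
    have e := Real.log_pow (rr A (z ω) : ℝ) 3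
    show P.p ω * Real.log (((rr A (z ω) : ℝ)) ^ 3) = 3 * (P.p ω * Real.log (rr A (z ω)))
    rw [e]
    push_cast
    ring
  rw [h2] at h1
  -- the incidence lemma
  have h3 := hINC n a hn ha A (dS A) hAne
  rw [← hA] at h3
  have h4 : ∑ x ∈ dS A, ((rr A x : ℝ)) ^ 3 = ∑ x ∈ dS A, ((rc A A x : ℝ)) ^ 3 :=
    Finset.sum_congr rfl fun x _ => by rw [rr_eq_rc]
  rw [← h4] at h3
  have h5 : 16 * (n : ℝ) * (A.card : ℝ) ^ 2 * (1 + Real.log n) * (1 + Real.log A.card) ≤
      16 * (n : ℝ) ^ 3 * (1 + Real.log n) ^ 2 := by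
    have e1 : (A.card : ℝ) ^ 2 ≤ (n : ℝ) ^ 2 := by
      have : (0 : ℝ) ≤ A.card := by linarith
      exact pow_le_pow_left₀ this hAn 2
    have e2 : 1 + Real.log A.card ≤ 1 + Real.log n := by linarith
    calc 16 * (n : ℝ) * (A.card : ℝ) ^ 2 * (1 + Real.log n) * (1 + Real.log A.card)
        ≤ 16 * (n : ℝ) * (n : ℝ) ^ 2 * (1 + Real.log n) * (1 + Real.log n) := by
          gcongr
      _ = 16 * (n : ℝ) ^ 3 * (1 + Real.log n) ^ 2 := by ring
  have hpos : 0 < ∑ x ∈ dS A, ((rr A x : ℝ)) ^ 3 := by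
    apply Finset.sum_pos
    · intro x hx
      have : (0 : ℝ) < rr A x := by exact_mod_cast mem_dS.mp hx
      positivity
    · obtain ⟨x, hx⟩ := hAne
      exact ⟨x - x, Finset.mem_image.mpr ⟨(x, x), Finset.mem_product.mpr ⟨hx, hx⟩, rfl⟩⟩
  have h6 : Real.log (∑ x ∈ dS A, ((rr A x : ℝ)) ^ 3) ≤
      Real.log (16 * (n : ℝ) ^ 3 * (1 + Real.log n) ^ 2) :=
    Real.log_le_log hpos (h3.trans h5)
  have h7 : Real.log (16 * (n : ℝ) ^ 3 * (1 + Real.log n) ^ 2) =
      Real.log 16 + 3 * Real.log n + 2 * Real.log (1 + Real.log n) := by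
    have e1 : (n : ℝ) ^ 3 ≠ 0 := by positivity
    have e2 : (1 + Real.log n) ^ 2 ≠ 0 := by positivity
    rw [Real.log_mul (by positivity) e2, Real.log_mul (by norm_num) e1, Real.log_pow,
      Real.log_pow]
    push_cast
    ring
  have h8 := log_small (half_pos hε) hlogn
  have h9 := le_abs_self (Real.log 16 + 2 * (ε / 2 - 1 - Real.log (ε / 2)))
  have h10 : 2 * Real.log (1 + Real.log n) ≤
      ε * Real.log n + 2 * (ε / 2 - 1 - Real.log (ε / 2)) := by
    calc 2 * Real.log (1 + Real.log n)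
        ≤ 2 * (ε / 2 * Real.log n + (ε / 2 - 1 - Real.log (ε / 2))) := by linarith
      _ = ε * Real.log n + 2 * (ε / 2 - 1 - Real.log (ε / 2)) := by ring
  linarith

end NCE
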