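import Pool.Agent.NCE.Stmts

/-!
# Entropy calculus: module GIB (Gibbs inequality)
-/

set_option autoImplicit false

open Finset
open scoped Classical

namespace NCE

namespace MGIB

theorem pr_pos {Ω : Type} [Fintype Ω] (P : FP Ω) {α : Type} (Z : Ω → α) {ω : Ω}
    (h : P.p ω ≠ 0) : 0 < pr P Z (Z ω) := by
  have h0 : 0 < P.p ω := lt_of_le_of_ne (P.nn ω) (Ne.symm h)
  have h1 : (if Z ω = Z ω then P.p ω else 0) ≤ pr P Z (Z ω) := by
    unfold pr
    refine Finset.single_le_sum (f := fun ω' => if Z ω' = Z ω then P.p ω' else 0) ?_ (mem_univ ω)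
    intro ω' _
    split_ifs
    · exact P.nn ω'
    · exact le_rfl
  rw [if_pos rfl] at h1
  linarith

theorem pr_nonneg {Ω : Type} [Fintype Ω] (P : FP Ω) {α : Type} (Z : Ω → α) (z : α) :
    0 ≤ pr P Z z := by
  unfold pr
  refine Finset.sum_nonneg ?_
  intro ω _
  split_ifs
  · exact P.nn ω
  · exact le_rfl

/-- Expectations of functions of `Z` as sums over the values. -/
theorem sum_fib {Ω : Type} [Fintype Ω] (P : FP Ω) {α : Type} (Z : Ω → α) (S : Finset α)
    (f : α → ℝ) (hS : ∀ ω, P.p ω ≠ 0 → Z ω ∈ S) :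
    ∑ ω, P.p ω * f (Z ω) = ∑ z ∈ S, f z * pr P Z z := by
  have h1 : ∀ ω, P.p ω * f (Z ω) = ∑ z ∈ S, f z * (if Z ω = z then P.p ω else 0) := by
    intro ω
    by_cases h : P.p ω = 0
    · rw [h, zero_mul]
      refine (Finset.sum_eq_zero ?_).symm
      intro z _
      split_ifs <;> simp
    · rw [Finset.sum_eq_single (Z ω)]
      · rw [if_pos rfl]
        ring
      · intro z _ hz
        rw [if_neg (Ne.symm hz), mul_zero]
      · intro hz
        exact absurd (hS ω h) hz
  calc ∑ ω, P.p ω * f (Z ω)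
      = ∑ ω, ∑ z ∈ S, f z * (if Z ω = z then P.p ω else 0) := Finset.sum_congr rfl fun ω _ => h1 ω
    _ = ∑ z ∈ S, ∑ ω, f z * (if Z ω = z then P.p ω else 0) := Finset.sum_comm
    _ = ∑ z ∈ S, f z * pr P Z z := by
        refine Finset.sum_congr rfl fun z _ => ?_
        rw [← Finset.mul_sum]
        rfl

end MGIB

open MGIB in
/-- **(GIB)** Gibbs' inequality. -/
theorem t_GIB : S_GIB := by
  intro Ω _ P α Z S r hr hS
  -- the total weight is positive
  have hne : ∃ ω, P.p ω ≠ 0 := by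
    by_contra h
    push Not at h
    have h1 := P.one
    rw [Finset.sum_eq_zero fun ω _ => h ω] at h1
    exact zero_ne_one h1
  obtain ⟨ω₀, hω₀⟩ := hne
  have hc : 0 < ∑ z ∈ S, r z := Finset.sum_pos hr ⟨Z ω₀, hS ω₀ hω₀⟩
  set c := ∑ z ∈ S, r z with hcdef
  have h2 : ∑ ω, P.p ω * (r (Z ω) / (c * pr P Z (Z ω))) ≤ 1 := by
    rw [sum_fib P Z S (fun z => r z / (c * pr P Z z)) hS]
    calc ∑ z ∈ S, r z / (c * pr P Z z) * pr P Z z ≤ ∑ z ∈ S, r z / c := by
          refine Finset.sum_le_sum fun z hz => ?_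
          rcases (pr_nonneg P Z z).eq_or_lt with h | h
          · rw [← h, mul_zero]
            exact (div_pos (hr z hz) hc).le
          · refine le_of_eq ?_
            field_simp
      _ = 1 := by
          rw [← Finset.sum_div]
          exact div_self hc.ne'
  have h3 : ∀ ω, P.p ω * (-Real.log (pr P Z (Z ω))) + P.p ω * Real.log (r (Z ω))
      ≤ P.p ω * (r (Z ω) / (c * pr P Z (Z ω))) - P.p ω + P.p ω * Real.log c := by
    intro ω
    by_cases h : P.p ω = 0
    · simp [h]
    · have hp : 0 < P.p ω := lt_of_le_of_ne (P.nn ω) (Ne.symm h)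
      have hq : 0 < pr P Z (Z ω) := pr_pos P Z h
      have hz : 0 < r (Z ω) := hr _ (hS ω h)
      have h4 : Real.log (r (Z ω) / (c * pr P Z (Z ω))) ≤ r (Z ω) / (c * pr P Z (Z ω)) - 1 :=
        Real.log_le_sub_one_of_pos (by positivity)
      rw [Real.log_div hz.ne' (by positivity), Real.log_mul hc.ne' hq.ne'] at h4
      have h5 := mul_le_mul_of_nonneg_left h4 hp.le
      nlinarith
  have h6 := Finset.sum_le_sum fun ω (_ : ω ∈ Finset.univ) => h3 ω
  rw [Finset.sum_add_distrib, Finset.sum_add_distrib, Finset.sum_sub_distrib, P.one,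
    ← Finset.sum_mul, P.one] at h6
  unfold H ex
  linarith

end NCE
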