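import Pool.Agent.NCE.Stmts

/-!
# Conditionally independent gluing
-/

set_option autoImplicit false

open Finset
open scoped Classical

namespace NCE

namespace MGLU

variable {Ω₁ Ω₂ : Type} [Fintype Ω₁] [Fintype Ω₂] {σ : Type}

theorem pr_nonneg {Ω : Type} [Fintype Ω] {α : Type} (P : FP Ω) (X : Ω → α) (x : α) :
    0 ≤ pr P X x := by
  unfold pr
  refine Finset.sum_nonneg fun ω _ => ?_
  split_ifs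
  · exact P.nn ω
  · exact le_rfl

theorem le_pr {Ω : Type} [Fintype Ω] {α : Type} (P : FP Ω) (X : Ω → α) (ω : Ω) :
    P.p ω ≤ pr P X (X ω) := by
  unfold pr
  have h := Finset.single_le_sum (f := fun ω' => if X ω' = X ω then P.p ω' else 0)
    (fun ω' _ => by
      show 0 ≤ (if X ω' = X ω then P.p ω' else 0)
      split_ifs
      · exact P.nn ω'
      · exact le_rfl) (Finset.mem_univ ω)
  simpa using h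

theorem pr_pos {Ω : Type} [Fintype Ω] {α : Type} (P : FP Ω) (X : Ω → α) {ω : Ω}
    (h : P.p ω ≠ 0) : 0 < pr P X (X ω) :=
  lt_of_lt_of_le (lt_of_le_of_ne (P.nn ω) (Ne.symm h)) (le_pr P X ω)

/-- The joint weight. -/
noncomputable def W (P₁ : FP Ω₁) (P₂ : FP Ω₂) (Y₁ : Ω₁ → σ) (Y₂ : Ω₂ → σ) (a : Ω₁) (b : Ω₂) : ℝ :=
  if Y₁ a = Y₂ b then P₁.p a * P₂.p b / pr P₁ Y₁ (Y₁ a) else 0

theorem W_nonneg (P₁ : FP Ω₁) (P₂ : FP Ω₂) (Y₁ : Ω₁ → σ) (Y₂ : Ω₂ → σ) (a : Ω₁) (b : Ω₂) :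
    0 ≤ W P₁ P₂ Y₁ Y₂ a b := by
  unfold W
  split_ifs
  · exact div_nonneg (mul_nonneg (P₁.nn a) (P₂.nn b)) (pr_nonneg _ _ _)
  · exact le_rfl

theorem sum_right (P₁ : FP Ω₁) (P₂ : FP Ω₂) (Y₁ : Ω₁ → σ) (Y₂ : Ω₂ → σ) (h : SL P₁ Y₁ P₂ Y₂)
    (a : Ω₁) : ∑ b, W P₁ P₂ Y₁ Y₂ a b = P₁.p a := by
  have e : ∑ b, W P₁ P₂ Y₁ Y₂ a b = P₁.p a / pr P₁ Y₁ (Y₁ a) * pr P₂ Y₂ (Y₁ a) := by
    unfold W
    rw [show pr P₂ Y₂ (Y₁ a) = ∑ b, if Y₂ b = Y₁ a then P₂.p b else 0 from rfl, Finset.mul_sum]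
    refine Finset.sum_congr rfl fun b _ => ?_
    by_cases hb : Y₁ a = Y₂ b
    · rw [if_pos hb, if_pos hb.symm]
      ring
    · rw [if_neg hb, if_neg fun hc => hb hc.symm, mul_zero]
  rw [e, ← h]
  by_cases ha : P₁.p a = 0
  · rw [ha]; simp
  · exact div_mul_cancel₀ _ (pr_pos P₁ Y₁ ha).ne'

theorem sum_left (P₁ : FP Ω₁) (P₂ : FP Ω₂) (Y₁ : Ω₁ → σ) (Y₂ : Ω₂ → σ) (h : SL P₁ Y₁ P₂ Y₂)
    (b : Ω₂) : ∑ a, W P₁ P₂ Y₁ Y₂ a b = P₂.p b := by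
  have e : ∑ a, W P₁ P₂ Y₁ Y₂ a b = P₂.p b / pr P₁ Y₁ (Y₂ b) * pr P₁ Y₁ (Y₂ b) := by
    unfold W
    conv_rhs => rw [show pr P₁ Y₁ (Y₂ b) = ∑ a, if Y₁ a = Y₂ b then P₁.p a else 0 from rfl]
    rw [Finset.mul_sum]
    refine Finset.sum_congr rfl fun a _ => ?_
    by_cases ha : Y₁ a = Y₂ b
    · rw [if_pos ha, if_pos ha, ha]
      show P₁.p a * P₂.p b / pr P₁ Y₁ (Y₂ b) = P₂.p b / pr P₁ Y₁ (Y₂ b) * P₁.p a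
      ring
    · rw [if_neg ha, if_neg ha, mul_zero]
  rw [e]
  by_cases hb : P₂.p b = 0
  · rw [hb]; simp
  · refine div_mul_cancel₀ _ ?_
    rw [h]
    exact (pr_pos P₂ Y₂ hb).ne'

/-- The glued space. -/
abbrev Sp (Y₁ : Ω₁ → σ) (Y₂ : Ω₂ → σ) : Type := {q : Ω₁ × Ω₂ // Y₁ q.1 = Y₂ q.2}

theorem sum_sp (P₁ : FP Ω₁) (P₂ : FP Ω₂) (Y₁ : Ω₁ → σ) (Y₂ : Ω₂ → σ) (f : Ω₁ → Ω₂ → ℝ) :
    ∑ q : Sp Y₁ Y₂, W P₁ P₂ Y₁ Y₂ q.1.1 q.1.2 * f q.1.1 q.1.2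
      = ∑ a, ∑ b, W P₁ P₂ Y₁ Y₂ a b * f a b := by
  have h1 : ∑ q ∈ Finset.univ.filter (fun q : Ω₁ × Ω₂ => Y₁ q.1 = Y₂ q.2),
      W P₁ P₂ Y₁ Y₂ q.1 q.2 * f q.1 q.2
        = ∑ q : Sp Y₁ Y₂, W P₁ P₂ Y₁ Y₂ q.1.1 q.1.2 * f q.1.1 q.1.2 :=
    Finset.sum_subtype _ (fun q => by simp) _
  rw [← h1, Finset.sum_filter, Fintype.sum_prod_type]
  refine Finset.sum_congr rfl fun a _ => Finset.sum_congr rfl fun b _ => ?_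
  by_cases hb : Y₁ a = Y₂ b
  · exact if_pos hb
  · rw [if_neg hb]
    unfold W
    rw [if_neg hb, zero_mul]

theorem ex1 (P₁ : FP Ω₁) (P₂ : FP Ω₂) (Y₁ : Ω₁ → σ) (Y₂ : Ω₂ → σ) (h : SL P₁ Y₁ P₂ Y₂)
    (f : Ω₁ → ℝ) : ∑ q : Sp Y₁ Y₂, W P₁ P₂ Y₁ Y₂ q.1.1 q.1.2 * f q.1.1 = ∑ a, P₁.p a * f a := by
  rw [sum_sp P₁ P₂ Y₁ Y₂ fun a _ => f a]
  refine Finset.sum_congr rfl fun a _ => ?_
  rw [← Finset.sum_mul, sum_right P₁ P₂ Y₁ Y₂ h]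

theorem ex2 (P₁ : FP Ω₁) (P₂ : FP Ω₂) (Y₁ : Ω₁ → σ) (Y₂ : Ω₂ → σ) (h : SL P₁ Y₁ P₂ Y₂)
    (f : Ω₂ → ℝ) : ∑ q : Sp Y₁ Y₂, W P₁ P₂ Y₁ Y₂ q.1.1 q.1.2 * f q.1.2 = ∑ b, P₂.p b * f b := by
  rw [sum_sp P₁ P₂ Y₁ Y₂ fun _ b => f b, Finset.sum_comm]
  refine Finset.sum_congr rfl fun b _ => ?_
  rw [← Finset.sum_mul, sum_left P₁ P₂ Y₁ Y₂ h]

/-- The probability on the glued space. -/
noncomputable def glue (P₁ : FP Ω₁) (P₂ : FP Ω₂) (Y₁ : Ω₁ → σ) (Y₂ : Ω₂ → σ)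
    (h : SL P₁ Y₁ P₂ Y₂) : FP (Sp Y₁ Y₂) where
  p q := W P₁ P₂ Y₁ Y₂ q.1.1 q.1.2
  nn q := W_nonneg _ _ _ _ _ _
  one := by
    have := ex1 P₁ P₂ Y₁ Y₂ h fun _ => 1
    simp only [mul_one] at this
    rw [this]
    exact P₁.one

theorem pr_id {Ω : Type} [Fintype Ω] (P : FP Ω) (x : Ω) : pr P id x = P.p x := by
  unfold pr
  simp

theorem pr_pair {α β : Type} (P₁ : FP Ω₁) (P₂ : FP Ω₂) (Y₁ : Ω₁ → σ) (Y₂ : Ω₂ → σ)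
    (h : SL P₁ Y₁ P₂ Y₂) (X₁ : Ω₁ → α) (X₂ : Ω₂ → β) (x₁ : α) (x₂ : β) :
    pr (glue P₁ P₂ Y₁ Y₂ h) (fun q => (X₁ q.1.1, X₂ q.1.2)) (x₁, x₂)
      = ∑ a, ∑ b, W P₁ P₂ Y₁ Y₂ a b * (if X₁ a = x₁ ∧ X₂ b = x₂ then 1 else 0) := by
  rw [← sum_sp P₁ P₂ Y₁ Y₂ fun a b => if X₁ a = x₁ ∧ X₂ b = x₂ then (1 : ℝ) else 0]
  unfold pr
  refine Finset.sum_congr rfl fun q _ => ?_
  simp only [Prod.mk.injEq]
  show (if X₁ q.1.1 = x₁ ∧ X₂ q.1.2 = x₂ then W P₁ P₂ Y₁ Y₂ q.1.1 q.1.2 else 0) = _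
  split_ifs <;> simp

/-- The law of the pair if `Y₁`, `Y₂` are functions of `X₁`, `X₂`. -/
theorem pr_det {α β : Type} (P₁ : FP Ω₁) (P₂ : FP Ω₂) (Y₁ : Ω₁ → σ) (Y₂ : Ω₂ → σ)
    (h : SL P₁ Y₁ P₂ Y₂) (X₁ : Ω₁ → α) (X₂ : Ω₂ → β) (h1 : Det X₁ Y₁) (h2 : Det X₂ Y₂)
    (q : Sp Y₁ Y₂) :
    pr (glue P₁ P₂ Y₁ Y₂ h) (fun q => (X₁ q.1.1, X₂ q.1.2)) (X₁ q.1.1, X₂ q.1.2)
      = pr P₁ X₁ (X₁ q.1.1) * pr P₂ X₂ (X₂ q.1.2) / pr P₁ Y₁ (Y₁ q.1.1) := by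
  rw [pr_pair]
  have e : ∀ a b, W P₁ P₂ Y₁ Y₂ a b * (if X₁ a = X₁ q.1.1 ∧ X₂ b = X₂ q.1.2 then 1 else 0)
      = (if X₁ a = X₁ q.1.1 then P₁.p a else 0) * (if X₂ b = X₂ q.1.2 then P₂.p b else 0)
        / pr P₁ Y₁ (Y₁ q.1.1) := by
    intro a b
    by_cases ha : X₁ a = X₁ q.1.1
    · by_cases hb : X₂ b = X₂ q.1.2
      · have e1 : Y₁ a = Y₁ q.1.1 := h1 _ _ ha
        have e2 : Y₂ b = Y₂ q.1.2 := h2 _ _ hb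
        have e3 : Y₁ a = Y₂ b := by rw [e1, e2, q.2]
        rw [if_pos ⟨ha, hb⟩, if_pos ha, if_pos hb, mul_one]
        unfold W
        rw [if_pos e3, e1]
      · rw [if_neg fun hc => hb hc.2, if_neg hb, mul_zero, mul_zero, zero_div]
    · rw [if_neg fun hc => ha hc.1, if_neg ha, mul_zero, zero_mul, zero_div]
  simp only [e]
  unfold pr
  rw [Finset.sum_mul_sum, Finset.sum_div]
  refine Finset.sum_congr rfl fun a _ => ?_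
  rw [Finset.sum_div]

end MGLU

open MGLU in
theorem t_GLU (_hSLF : S_SLF) : S_GLU := by
  intro Ω₁ Ω₂ _ _ P₁ P₂ σ Y₁ Y₂ h
  refine ⟨Sp Y₁ Y₂, inferInstance, glue P₁ P₂ Y₁ Y₂ h, fun q => q.1.1, fun q => q.1.2,
    fun q => q.2, ?_, ?_, ?_, ?_⟩
  · intro x
    rw [pr_id]
    have e := ex1 P₁ P₂ Y₁ Y₂ h fun a => if a = x then 1 else 0
    simp only [mul_ite, mul_one, mul_zero, Finset.sum_ite_eq', Finset.mem_univ, if_true] at e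
    rw [← e]
    rfl
  · intro x
    rw [pr_id]
    have e := ex2 P₁ P₂ Y₁ Y₂ h fun a => if a = x then 1 else 0
    simp only [mul_ite, mul_one, mul_zero, Finset.sum_ite_eq', Finset.mem_univ, if_true] at e
    rw [← e]
    rfl
  · intro α β X₁ X₂ h1 h2
    have e1 := ex1 P₁ P₂ Y₁ Y₂ h fun a => -Real.log (pr P₁ X₁ (X₁ a))
    have e2 := ex2 P₁ P₂ Y₁ Y₂ h fun b => -Real.log (pr P₂ X₂ (X₂ b))
    have e3 := ex1 P₁ P₂ Y₁ Y₂ h fun a => -Real.log (pr P₁ Y₁ (Y₁ a))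
    have g1 : H P₁ X₁ = ∑ a, P₁.p a * -Real.log (pr P₁ X₁ (X₁ a)) := rfl
    have g2 : H P₂ X₂ = ∑ b, P₂.p b * -Real.log (pr P₂ X₂ (X₂ b)) := rfl
    have g3 : H P₁ Y₁ = ∑ a, P₁.p a * -Real.log (pr P₁ Y₁ (Y₁ a)) := rfl
    rw [g1, g2, g3, ← e1, ← e2, ← e3, ← Finset.sum_add_distrib, ← Finset.sum_sub_distrib]
    show ∑ q : Sp Y₁ Y₂, W P₁ P₂ Y₁ Y₂ q.1.1 q.1.2 *
      -Real.log (pr (glue P₁ P₂ Y₁ Y₂ h) (fun q => (X₁ q.1.1, X₂ q.1.2))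
        (X₁ q.1.1, X₂ q.1.2)) = _
    refine Finset.sum_congr rfl fun q _ => ?_
    rw [pr_det P₁ P₂ Y₁ Y₂ h X₁ X₂ h1 h2 q]
    by_cases hq : W P₁ P₂ Y₁ Y₂ q.1.1 q.1.2 = 0
    · rw [hq]; ring
    · have hW : W P₁ P₂ Y₁ Y₂ q.1.1 q.1.2
          = P₁.p q.1.1 * P₂.p q.1.2 / pr P₁ Y₁ (Y₁ q.1.1) := if_pos q.2
      have hp1 : P₁.p q.1.1 ≠ 0 := by
        intro h0
        rw [hW, h0] at hq
        simp at hq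
      have hp2 : P₂.p q.1.2 ≠ 0 := by
        intro h0
        rw [hW, h0] at hq
        simp at hq
      have k1 := pr_pos P₁ X₁ hp1
      have k2 := pr_pos P₂ X₂ hp2
      have k3 := pr_pos P₁ Y₁ hp1
      rw [Real.log_div (mul_pos k1 k2).ne' k3.ne', Real.log_mul k1.ne' k2.ne']
      ring
  · intro x₁ x₂
    have e := pr_pair P₁ P₂ Y₁ Y₂ h (id : Ω₁ → Ω₁) (id : Ω₂ → Ω₂) x₁ x₂
    show pr (glue P₁ P₂ Y₁ Y₂ h) (fun q => (q.1.1, q.1.2)) (x₁, x₂) = W P₁ P₂ Y₁ Y₂ x₁ x₂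
    rw [show (fun q : Sp Y₁ Y₂ => (q.1.1, q.1.2)) = fun q => (id q.1.1, id q.1.2) from rfl, e]
    rw [Finset.sum_eq_single x₁, Finset.sum_eq_single x₂]
    · simp
    · intro b _ hb
      simp [hb]
    · intro hc
      exact absurd (Finset.mem_univ _) hc
    · intro a _ ha
      refine Finset.sum_eq_zero fun b _ => ?_
      simp [ha]
    · intro hc
      exact absurd (Finset.mem_univ _) hc

end NCE
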