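import Pool.Agent.NCE.Ineq

/-!
# The inequalities of node E
-/

set_option autoImplicit false

open Finset
open scoped Classical

namespace NCE

namespace MIE

lemma rr_pos {A : Finset ℝ} {x y z : ℝ} (hx : x ∈ A) (hy : y ∈ A) (h : x - y = z) :
    0 < rr A z := by
  unfold rr
  apply Finset.card_pos.2
  exact ⟨(x, y), by simp [hx, hy, h]⟩

end MIE

theorem t_IE (hDET : S_DET) (hSLF : S_SLF) (hSUB : S_SUB) (hST : S_ST) (hG3 : S_G3)
    (hLEV : S_LEV) : S_IE := by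
  intro ε hε
  obtain ⟨K1, hK1, h1⟩ := hST 1 ε hε
  obtain ⟨K2, hK2, h2⟩ := hG3 ε hε
  refine ⟨K1 + K2, by linarith, ?_⟩
  intro n A0 hn hA Ω _ P h g e z N
  have hsm : Sm n 1 e := by
    refine ⟨cs n A0, ?_, N.m3⟩
    unfold cs
    simpa using Finset.card_image_le (s := range n) (f := A0)
  have i1 := h1 n A0 hn hA Ω P ℝ g e z hsm N.m6
  have hs : H P (fun ω => (g ω, e ω)) = H P (fun ω => (g ω + z ω, e ω + z ω)) :=
    (hSLF Ω Ω P P (ℝ × ℝ × ℝ × ℝ) (ℝ × ℝ) (fun ω => (h ω, g ω, e ω, z ω))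
      (fun ω => (h ω + z ω, g ω + z ω, e ω + z ω, - z ω)) (fun x => (x.2.1, x.2.2.1))
      (fun _ => 0) N.s1).2.1
  have i2 := hSUB Ω P ℝ (ℝ × ℝ) (ℝ × ℝ) (ℝ × ℝ × ℝ) (fun ω => g ω - e ω)
    (fun ω => (g ω, e ω)) (fun ω => (g ω + z ω, e ω + z ω)) (fun ω => (g ω, e ω, z ω))
    (by
      intro ω ω' q
      simp only [Prod.mk.injEq] at q
      simp only [q.1, q.2])
    (by
      intro ω ω' q
      simp only [Prod.mk.injEq] at q
      show g ω - e ω = g ω' - e ω'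
      linarith [q.1, q.2])
    (by
      intro ω ω' q q'
      simp only [Prod.mk.injEq] at q q' ⊢
      exact ⟨q.1, q.2, by linarith [q.1, q'.1]⟩)
  have i3 := hSUB Ω P ℝ (ℝ × ℝ) (ℝ × ℝ) (ℝ × ℝ × ℝ) z
    (fun ω => (g ω, z ω)) (fun ω => (h ω, z ω)) (fun ω => (h ω, g ω, z ω))
    (by
      intro ω ω' q
      simp only [Prod.mk.injEq] at q
      exact q.2)
    (by
      intro ω ω' q
      simp only [Prod.mk.injEq] at q
      exact q.2)
    (by
      intro ω ω' q q'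
      simp only [Prod.mk.injEq] at q q' ⊢
      exact ⟨q'.1, q.1, q.2⟩)
  have i4 := hSUB Ω P (ℝ × ℝ) (ℝ × ℝ × ℝ) (ℝ × ℝ × ℝ) (ℝ × ℝ × ℝ × ℝ) (fun ω => (g ω, z ω))
    (fun ω => (h ω, g ω, z ω)) (fun ω => (g ω, e ω, z ω)) (fun ω => (h ω, g ω, e ω, z ω))
    (by
      intro ω ω' q
      simp only [Prod.mk.injEq] at q ⊢
      exact q.2)
    (by
      intro ω ω' q
      simp only [Prod.mk.injEq] at q ⊢
      exact ⟨q.1, q.2.2⟩)
    (by
      intro ω ω' q q'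
      simp only [Prod.mk.injEq] at q q' ⊢
      exact ⟨q.1, q.2.1, q'.2.1, q.2.2⟩)
  have key : ∀ x : Ω → ℝ, (∀ ω, x ω ∈ cs n A0) → (∀ ω, x ω + z ω ∈ cs n A0) →
      H P (fun ω => (x ω, z ω)) ≤ H P z + lvl (cs n A0) P z := by
    intro x hx hxz
    have j1 := hLEV (cs n A0) Ω P ℝ z z (fun ω => x ω + z ω) (fun ω ω' q => q)
      (fun ω => ⟨hxz ω, by simpa using hx ω⟩)
    have j2 := hDET Ω P (ℝ × ℝ) (ℝ × ℝ) (fun ω => (z ω, x ω + z ω)) (fun ω => (x ω, z ω))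
      (by
        intro ω ω' q
        simp only [Prod.mk.injEq] at q ⊢
        exact ⟨by linarith [q.1, q.2], q.1⟩)
    exact j2.trans j1
  have i7 := h2 n A0 hn hA Ω P z
    (fun ω => MIE.rr_pos (N.m5 ω) (N.m2 ω) (by ring))
  refine ⟨?_, ?_, ?_, ?_, key g N.m2 N.m5, key h N.m1 N.m4, ?_⟩
  · linarith
  · rw [← hs] at i2
    linarith
  · linarith
  · linarith
  · unfold lvl
    linarith

end NCE
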