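import Pool.Agent.NCE.Stmts

/-!
# INA: the numerical inequality in the incidence lemma
-/

set_option autoImplicit false

open Finset
open scoped Classical

namespace NCE

namespace MINA

/-- Arithmetic and geometric mean of `1 / (x y)`, `x`, `y`. -/
lemma key (x y : ℝ) (hx : 0 < x) (hy : 0 < y) : 3 - x - y ≤ 1 / (x * y) := by
  obtain ⟨a, ha, rfl⟩ : ∃ a : ℝ, 0 < a ∧ a ^ 2 = x :=
    ⟨Real.sqrt x, Real.sqrt_pos.2 hx, Real.sq_sqrt hx.le⟩
  obtain ⟨b, hb, rfl⟩ : ∃ b : ℝ, 0 < b ∧ b ^ 2 = y :=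
    ⟨Real.sqrt y, Real.sqrt_pos.2 hy, Real.sq_sqrt hy.le⟩
  rw [le_div_iff₀ (by positivity)]
  have h1 : 0 ≤ (1 - a * b) ^ 2 * (1 + 2 * (a * b)) := by positivity
  have h2 : 0 ≤ (a * b) ^ 2 * (a - b) ^ 2 := by positivity
  nlinarith [h1, h2]

end MINA

theorem t_INA : S_INA := by
  intro ι s u v N M hN hM hpos hu hv
  set m : ℝ := (s.card : ℝ) with hm
  rcases Nat.eq_zero_or_pos s.card with h0 | h0
  · have hs : s = ∅ := Finset.card_eq_zero.1 h0
    subst hs
    simp [hm]
  have hmp : 0 < m := by rw [hm]; exact_mod_cast h0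
  have h1 : ∀ k ∈ s, m ^ 2 / (N * M) * (3 - u k * m / N - v k * m / M) ≤ 1 / (u k * v k) := by
    intro k hk
    obtain ⟨hk1, hk2⟩ := hpos k hk
    have h := MINA.key (u k * m / N) (v k * m / M) (by positivity) (by positivity)
    have h2 : m ^ 2 / (N * M) * (1 / (u k * m / N * (v k * m / M))) = 1 / (u k * v k) := by
      field_simp
    rw [← h2]
    exact mul_le_mul_of_nonneg_left h (by positivity)
  have h2 := Finset.sum_le_sum h1
  refine le_trans ?_ h2
  rw [← Finset.mul_sum]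
  have h3 : ∑ k ∈ s, (3 - u k * m / N - v k * m / M)
      = 3 * m - (∑ k ∈ s, u k) * (m / N) - (∑ k ∈ s, v k) * (m / M) := by
    rw [Finset.sum_sub_distrib, Finset.sum_sub_distrib, Finset.sum_mul, Finset.sum_mul]
    congr 1
    · congr 1
      · simp [hm, mul_comm]
      · exact Finset.sum_congr rfl fun k _ => by ring
    · exact Finset.sum_congr rfl fun k _ => by ring
  rw [h3]
  have h4 : (∑ k ∈ s, u k) * (m / N) ≤ m := by
    calc (∑ k ∈ s, u k) * (m / N) ≤ N * (m / N) :=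
          mul_le_mul_of_nonneg_right hu (by positivity)
      _ = m := by field_simp
  have h5 : (∑ k ∈ s, v k) * (m / M) ≤ m := by
    calc (∑ k ∈ s, v k) * (m / M) ≤ M * (m / M) :=
          mul_le_mul_of_nonneg_right hv (by positivity)
      _ = m := by field_simp
  calc m ^ 3 / (N * M) = m ^ 2 / (N * M) * m := by ring
    _ ≤ m ^ 2 / (N * M) * (3 * m - (∑ k ∈ s, u k) * (m / N) - (∑ k ∈ s, v k) * (m / M)) := by
        apply mul_le_mul_of_nonneg_left _ (by positivity)
        linarith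

end NCE
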