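import Pool.Agent.NCE.Stmts

/-!
# INC: the elementary incidence lemma for convex sequences (helper86)
-/

set_option autoImplicit false

open Finset
open scoped Classical

namespace NCE

namespace MINC

/-- Consecutive pairs of a finite set. -/
noncomputable def Q (S : Finset ℝ) : Finset (ℝ × ℝ) :=
  (S ×ˢ S).filter fun q => q.1 < q.2 ∧ ∀ x ∈ S, ¬ (q.1 < x ∧ x < q.2)

/-- The number of the indices `i` with `x ≤ a i < y`. -/
noncomputable def cu (n : ℕ) (a : ℕ → ℝ) (x y : ℝ) : ℕ :=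
  ((range n).filter fun i => x ≤ a i ∧ a i < y).card

/-- The number of the elements of `B` between `x` and `y`. -/
noncomputable def cv (B : Finset ℝ) (x y : ℝ) : ℕ := (B.filter fun t => x ≤ t ∧ t < y).card

lemma mem_Q {S : Finset ℝ} {q : ℝ × ℝ} : q ∈ Q S ↔
    (q.1 ∈ S ∧ q.2 ∈ S) ∧ q.1 < q.2 ∧ ∀ x ∈ S, ¬ (q.1 < x ∧ x < q.2) := by
  unfold Q
  rw [mem_filter, mem_product]

lemma card_Q (S : Finset ℝ) : S.card ≤ (Q S).card + 1 := by
  rcases S.eq_empty_or_nonempty with h | hS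
  · simp [h]
  have h1 : S.erase (S.max' hS) ⊆ (Q S).image Prod.fst := by
    intro b hb
    rw [mem_erase] at hb
    obtain ⟨hb1, hb2⟩ := hb
    have hlt : b < S.max' hS := lt_of_le_of_ne (S.le_max' b hb2) hb1
    have hF : (S.filter fun x => b < x).Nonempty := ⟨S.max' hS, by
      rw [mem_filter]
      exact ⟨S.max'_mem hS, hlt⟩⟩
    have hm := (S.filter fun x => b < x).min'_mem hF
    rw [mem_filter] at hm
    rw [mem_image]
    refine ⟨(b, (S.filter fun x => b < x).min' hF), ?_, rfl⟩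
    rw [mem_Q]
    refine ⟨⟨hb2, hm.1⟩, hm.2, fun x hx hxx => ?_⟩
    have := (S.filter fun x => b < x).min'_le x (by
      rw [mem_filter]
      exact ⟨hx, hxx.1⟩)
    exact absurd hxx.2 (not_lt.2 this)
  have h2 := card_le_card h1
  rw [card_erase_of_mem (S.max'_mem hS)] at h2
  have h3 : ((Q S).image Prod.fst).card ≤ (Q S).card := card_image_le
  omega

/-- Different consecutive pairs have disjoint intervals. -/
lemma Q_unique {S : Finset ℝ} {q q' : ℝ × ℝ} (hq : q ∈ Q S) (hq' : q' ∈ Q S) {x : ℝ}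
    (h : q.1 ≤ x ∧ x < q.2) (h' : q'.1 ≤ x ∧ x < q'.2) : q = q' := by
  rw [mem_Q] at hq hq'
  obtain ⟨⟨a1, a2⟩, a3, a4⟩ := hq
  obtain ⟨⟨b1, b2⟩, b3, b4⟩ := hq'
  have e1 : q.1 = q'.1 := by
    rcases lt_trichotomy q.1 q'.1 with h1 | h1 | h1
    · exact absurd ⟨h1, lt_of_le_of_lt h'.1 h.2⟩ (a4 _ b1)
    · exact h1
    · exact absurd ⟨h1, lt_of_le_of_lt h.1 h'.2⟩ (b4 _ a1)
  have e2 : q.2 = q'.2 := by
    rcases lt_trichotomy q.2 q'.2 with h1 | h1 | h1
    · exact absurd ⟨by rw [← e1]; exact a3, h1⟩ (b4 _ a2)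
    · exact h1
    · exact absurd ⟨by rw [e1]; exact b3, h1⟩ (a4 _ b2)
  exact Prod.ext e1 e2

lemma sum_cv (B S : Finset ℝ) : ∑ q ∈ Q S, cv B q.1 q.2 ≤ B.card := by
  unfold cv
  rw [← card_biUnion]
  · refine card_le_card ?_
    intro x hx
    rw [mem_biUnion] at hx
    obtain ⟨q, -, hx⟩ := hx
    exact (mem_filter.1 hx).1
  · intro q hq q' hq' hne
    rw [Function.onFun, disjoint_left]
    intro x hx hx'
    exact hne (Q_unique hq hq' (mem_filter.1 hx).2 (mem_filter.1 hx').2)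

lemma sum_cu (n : ℕ) (a : ℕ → ℝ) (S : Finset ℝ) (c : ℝ) :
    ∑ q ∈ Q S, cu n a (q.1 + c) (q.2 + c) ≤ n := by
  unfold cu
  rw [← card_biUnion]
  · have h1 : ((Q S).biUnion fun q => (range n).filter fun i =>
        q.1 + c ≤ a i ∧ a i < q.2 + c) ⊆ range n := by
      intro x hx
      rw [mem_biUnion] at hx
      obtain ⟨q, -, hx⟩ := hx
      exact (mem_filter.1 hx).1
    have := card_le_card h1
    rwa [card_range] at this
  · intro q hq q' hq' hne
    rw [Function.onFun, disjoint_left]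
    intro x hx hx'
    have h1 := (mem_filter.1 hx).2
    have h2 := (mem_filter.1 hx').2
    exact hne (Q_unique (x := a x - c) hq hq' ⟨by linarith [h1.1], by linarith [h1.2]⟩
      ⟨by linarith [h2.1], by linarith [h2.2]⟩)

section seq
variable {n : ℕ} {a : ℕ → ℝ}

lemma mono (h : Cvx n a) {i j : ℕ} (hij : i < j) (hj : j < n) : a i < a j := by
  induction j with
  | zero => omega
  | succ j ih =>
    rcases Nat.lt_succ_iff_lt_or_eq.1 hij with h1 | h1
    · exact (ih h1 (by omega)).trans (h.1 j hj)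
    · rw [h1]
      exact h.1 j hj

lemma mono_le (h : Cvx n a) {i j : ℕ} (hi : i < n) (hj : j < n) : a i ≤ a j ↔ i ≤ j := by
  constructor
  · intro h1
    by_contra h2
    exact absurd h1 (not_le.2 (mono h (not_le.1 h2) hi))
  · intro h1
    rcases h1.eq_or_lt with h2 | h2
    · rw [h2]
    · exact (mono h h2 hj).le

lemma mono_lt (h : Cvx n a) {i j : ℕ} (hi : i < n) (hj : j < n) : a i < a j ↔ i < j := by
  rw [← not_le, ← not_le, mono_le h hj hi]

lemma gap (h : Cvx n a) {i j : ℕ} (hij : i < j) (hj : j + 1 < n) :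
    a (i + 1) - a i < a (j + 1) - a j := by
  induction j with
  | zero => omega
  | succ j ih =>
    rcases Nat.lt_succ_iff_lt_or_eq.1 hij with h1 | h1
    · exact (ih h1 (by omega)).trans (h.2 j hj)
    · rw [h1]
      exact h.2 j hj

lemma cvx (h : Cvx n a) {i j : ℕ} (hij : i < j) (u : ℕ) (hj : j + (u + 1) < n) :
    a (i + (u + 1)) - a i < a (j + (u + 1)) - a j := by
  induction u with
  | zero => exact gap h hij hj
  | succ u ih =>
    have h1 := ih (by omega)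
    have h2 := gap h (i := i + (u + 1)) (j := j + (u + 1)) (by omega) (by omega)
    have e1 : i + (u + 1 + 1) = i + (u + 1) + 1 := by ring
    have e2 : j + (u + 1 + 1) = j + (u + 1) + 1 := by ring
    rw [e1, e2]
    linarith

lemma cu_eq (h : Cvx n a) {i j : ℕ} (hij : i ≤ j) (hj : j < n) :
    cu n a (a i) (a j) = j - i := by
  have : ((range n).filter fun k => a i ≤ a k ∧ a k < a j) = Ico i j := by
    ext k
    rw [mem_filter, mem_range, mem_Ico]
    constructor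
    · rintro ⟨h1, h2, h3⟩
      exact ⟨(mono_le h (by omega) h1).1 h2, (mono_lt h h1 hj).1 h3⟩
    · rintro ⟨h1, h2⟩
      have hk : k < n := by omega
      exact ⟨hk, (mono_le h (by omega) hk).2 h1, (mono_lt h hk hj).2 h2⟩
  unfold cu
  rw [this, Nat.card_Ico]

lemma mem_cs {x : ℝ} (hx : x ∈ cs n a) : ∃ i, i < n ∧ a i = x := by
  unfold cs at hx
  rw [mem_image] at hx
  obtain ⟨i, hi, h⟩ := hx
  exact ⟨i, mem_range.1 hi, h⟩

/-- The index step and the difference determine the translation. -/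
lemma det (h : Cvx n a) {x y c c' : ℝ} (hxy : x < y) (h1 : x + c ∈ cs n a) (h2 : y + c ∈ cs n a)
    (h3 : x + c' ∈ cs n a) (h4 : y + c' ∈ cs n a)
    (he : cu n a (x + c) (y + c) = cu n a (x + c') (y + c')) : c = c' := by
  obtain ⟨i, hi, ei⟩ := mem_cs h1
  obtain ⟨j, hj, ej⟩ := mem_cs h2
  obtain ⟨k, hk, ek⟩ := mem_cs h3
  obtain ⟨l, hl, el⟩ := mem_cs h4
  have hij : i < j := (mono_lt h hi hj).1 (by rw [ei, ej]; linarith)
  have hkl : k < l := (mono_lt h hk hl).1 (by rw [ek, el]; linarith)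
  rw [← ei, ← ej, ← ek, ← el, cu_eq h hij.le hj, cu_eq h hkl.le hl] at he
  obtain ⟨u, hu⟩ : ∃ u, j = i + (u + 1) := ⟨j - i - 1, by omega⟩
  have hl' : l = k + (u + 1) := by omega
  have hik : i = k := by
    rcases lt_trichotomy i k with h5 | h5 | h5
    · have := cvx h h5 u (by omega)
      rw [← hu, ← hl', ei, ej, ek, el] at this
      linarith
    · exact h5
    · have := cvx h h5 u (by omega)
      rw [← hu, ← hl', ei, ej, ek, el] at this
      linarith
  subst hik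
  linarith

end seq

lemma cv_pos {B : Finset ℝ} {x y : ℝ} (hx : x ∈ B) (hxy : x < y) : 1 ≤ cv B x y := by
  unfold cv
  exact card_pos.2 ⟨x, mem_filter.2 ⟨hx, le_refl _, hxy⟩⟩

lemma cv_le (B : Finset ℝ) (x y : ℝ) : cv B x y ≤ B.card := card_filter_le _ _

lemma cu_pos {n : ℕ} {a : ℕ → ℝ} {x y : ℝ} (hx : x ∈ cs n a) (hxy : x < y) : 1 ≤ cu n a x y := by
  obtain ⟨i, hi, ei⟩ := mem_cs hx
  unfold cu
  exact card_pos.2 ⟨i, mem_filter.2 ⟨mem_range.2 hi, ei.ge, by rw [ei]; exact hxy⟩⟩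

lemma cu_le (n : ℕ) (a : ℕ → ℝ) (x y : ℝ) : cu n a x y ≤ n := by
  have := card_filter_le (range n) fun i => x ≤ a i ∧ a i < y
  rwa [card_range] at this

/-- The left end and the number of the elements of `B` determine the right end. -/
lemma cv_inj {B : Finset ℝ} {x y z : ℝ} (hy : y ∈ B) (hz : z ∈ B) (hxy : x < y) (hxz : x < z)
    (h : cv B x y = cv B x z) : y = z := by
  have key : ∀ y z : ℝ, y ∈ B → x < y → y < z → cv B x y < cv B x z := by
    intro y z hy hxy hyz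
    unfold cv
    refine card_lt_card ?_
    rw [ssubset_iff_of_subset]
    · refine ⟨y, mem_filter.2 ⟨hy, hxy.le, hyz⟩, fun hh => ?_⟩
      exact lt_irrefl _ (mem_filter.1 hh).2.2
    · intro t ht
      rw [mem_filter] at ht ⊢
      exact ⟨ht.1, ht.2.1, ht.2.2.trans hyz⟩
  rcases lt_trichotomy y z with h1 | h1 | h1
  · have := key y z hy hxy h1
    omega
  · exact h1
  · have := key z y hz hxz h1
    omega

/-- The harmonic sum. -/
lemma harm (N : ℕ) : ∑ i ∈ Icc 1 N, 1 / (i : ℝ) ≤ 1 + Real.log N := by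
  have h1 := harmonic_le_one_add_log N
  rw [harmonic_eq_sum_Icc] at h1
  push_cast at h1
  simpa [one_div] using h1

lemma harm_nonneg (N : ℕ) : 0 ≤ ∑ i ∈ Icc 1 N, 1 / (i : ℝ) :=
  sum_nonneg fun i _ => by positivity

end MINC

open MINC in
theorem t_INC (hINA : S_INA) : S_INC := by
  intro n a hn hC B C hB
  set A : Finset ℝ := cs n a with hA
  have hn0 : (0 : ℝ) < n := by exact_mod_cast hn
  have hBc : 1 ≤ B.card := card_pos.2 hB
  have hB0 : (0 : ℝ) < B.card := by exact_mod_cast hBc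
  have hB1 : (1 : ℝ) ≤ B.card := by exact_mod_cast hBc
  have hn1 : (1 : ℝ) ≤ n := by exact_mod_cast hn
  have hln : 0 ≤ Real.log n := Real.log_nonneg hn1
  have hlB : 0 ≤ Real.log B.card := Real.log_nonneg hB1
  let S : ℝ → Finset ℝ := fun c => B.filter fun b => b + c ∈ A
  have hSr : ∀ c, (S c).card = rc A B c := fun c => rfl
  -- one value of `c`
  have h1 : ∀ c, ((Q (S c)).card : ℝ) ^ 3 / (n * B.card) ≤
      ∑ q ∈ Q (S c), 1 / ((cu n a (q.1 + c) (q.2 + c) : ℝ) * (cv B q.1 q.2 : ℝ)) := by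
    intro c
    refine hINA (ℝ × ℝ) (Q (S c)) (fun q => (cu n a (q.1 + c) (q.2 + c) : ℝ))
      (fun q => (cv B q.1 q.2 : ℝ)) n B.card hn0 hB0 ?_ ?_ ?_
    · intro q hq
      obtain ⟨⟨a1, a2⟩, a3, a4⟩ := mem_Q.1 hq
      rw [mem_filter] at a1 a2
      constructor
      · have := cu_pos (n := n) (a := a) (x := q.1 + c) (y := q.2 + c) a1.2 (by linarith)
        exact_mod_cast this
      · have := cv_pos a1.1 a3
        exact_mod_cast this
    · have := sum_cu n a (S c) c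
      exact_mod_cast this
    · have := sum_cv B (S c)
      exact_mod_cast this
  -- the sum over all triples
  let φ : (Σ _ : ℝ, ℝ × ℝ) → ℝ × (ℕ × ℕ) := fun t =>
    (t.2.1, (cv B t.2.1 t.2.2, cu n a (t.2.1 + t.1) (t.2.2 + t.1)))
  let f : ℝ × (ℕ × ℕ) → ℝ := fun y => 1 / ((y.2.2 : ℝ) * (y.2.1 : ℝ))
  let T : Finset (Σ _ : ℝ, ℝ × ℝ) := C.sigma fun c => Q (S c)
  have hT : ∀ t ∈ T, ((t.2.1 ∈ B ∧ t.2.1 + t.1 ∈ A) ∧ (t.2.2 ∈ B ∧ t.2.2 + t.1 ∈ A)) ∧
      t.2.1 < t.2.2 := by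
    intro t ht
    rw [mem_sigma] at ht
    obtain ⟨⟨a1, a2⟩, a3, a4⟩ := mem_Q.1 ht.2
    exact ⟨⟨mem_filter.1 a1, mem_filter.1 a2⟩, a3⟩
  have h2 : ∑ c ∈ C, ∑ q ∈ Q (S c), 1 / ((cu n a (q.1 + c) (q.2 + c) : ℝ) * (cv B q.1 q.2 : ℝ))
      = ∑ t ∈ T, f (φ t) := by
    rw [sum_sigma]
  have hinj : Set.InjOn φ (T : Set (Σ _ : ℝ, ℝ × ℝ)) := by
    intro t ht t' ht' he
    obtain ⟨⟨⟨b1, b2⟩, ⟨b3, b4⟩⟩, b5⟩ := hT t ht
    obtain ⟨⟨⟨d1, d2⟩, ⟨d3, d4⟩⟩, d5⟩ := hT t' ht'
    obtain ⟨c, x, y⟩ := t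
    obtain ⟨c', x', y'⟩ := t'
    have e1 : x = x' := congrArg (fun z => z.1) he
    have e2 : cv B x y = cv B x' y' := congrArg (fun z => z.2.1) he
    have e3 : cu n a (x + c) (y + c) = cu n a (x' + c') (y' + c') :=
      congrArg (fun z => z.2.2) he
    subst e1
    have e4 : y = y' := cv_inj b3 d3 b5 d5 e2
    subst e4
    have e5 : c = c' := det hC b5 b2 b4 d2 d4 e3
    subst e5
    rfl
  have himg : T.image φ ⊆ B ×ˢ (Icc 1 B.card ×ˢ Icc 1 n) := by
    intro z hz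
    rw [mem_image] at hz
    obtain ⟨t, ht, rfl⟩ := hz
    obtain ⟨⟨⟨b1, b2⟩, ⟨b3, b4⟩⟩, b5⟩ := hT t ht
    rw [mem_product, mem_product, mem_Icc, mem_Icc]
    exact ⟨b1, ⟨cv_pos b1 b5, cv_le _ _ _⟩, ⟨cu_pos b2 (by linarith), cu_le _ _ _ _⟩⟩
  have h3 : ∑ t ∈ T, f (φ t) ≤ ∑ z ∈ B ×ˢ (Icc 1 B.card ×ˢ Icc 1 n), f z := by
    rw [← sum_image (f := f) hinj]
    refine sum_le_sum_of_subset_of_nonneg himg fun z _ _ => ?_
    show 0 ≤ 1 / ((z.2.2 : ℝ) * (z.2.1 : ℝ))
    positivity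
  have h4 : ∑ z ∈ B ×ˢ (Icc 1 B.card ×ˢ Icc 1 n), f z
      = B.card * ((∑ i ∈ Icc 1 B.card, 1 / (i : ℝ)) * ∑ i ∈ Icc 1 n, 1 / (i : ℝ)) := by
    rw [sum_product]
    have e1 : ∀ x ∈ B, ∑ y ∈ Icc 1 B.card ×ˢ Icc 1 n, f (x, y)
        = (∑ i ∈ Icc 1 B.card, 1 / (i : ℝ)) * ∑ i ∈ Icc 1 n, 1 / (i : ℝ) := by
      intro x _
      rw [sum_product, sum_mul_sum]
      refine sum_congr rfl fun i _ => sum_congr rfl fun j _ => ?_
      show 1 / ((j : ℝ) * (i : ℝ)) = 1 / (i : ℝ) * (1 / (j : ℝ))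
      rw [one_div_mul_one_div, mul_comm]
    rw [sum_congr rfl e1, sum_const, nsmul_eq_mul]
  have h5 : ∑ z ∈ B ×ˢ (Icc 1 B.card ×ˢ Icc 1 n), f z
      ≤ B.card * ((1 + Real.log B.card) * (1 + Real.log n)) := by
    rw [h4]
    refine mul_le_mul_of_nonneg_left ?_ hB0.le
    exact mul_le_mul (harm _) (harm _) (harm_nonneg _) (by linarith)
  have h6 : ∑ c ∈ C, ((Q (S c)).card : ℝ) ^ 3
      ≤ n * B.card * (B.card * ((1 + Real.log B.card) * (1 + Real.log n))) := by
    have e1 : ∑ c ∈ C, ((Q (S c)).card : ℝ) ^ 3 / (n * B.card)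
        ≤ B.card * ((1 + Real.log B.card) * (1 + Real.log n)) :=
      ((sum_le_sum fun c _ => h1 c).trans (h2.le.trans h3)).trans h5
    rw [← sum_div, div_le_iff₀ (by positivity)] at e1
    linarith
  -- the values of `c` with at least one representation
  have h7 : ((C.filter fun c => 1 ≤ rc A B c).card : ℝ) ≤ n * B.card := by
    have e1 : (C.filter fun c => 1 ≤ rc A B c) ⊆
        (range n ×ˢ B).image fun z => a z.1 - z.2 := by
      intro c hc
      rw [mem_filter] at hc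
      obtain ⟨b, hb⟩ := card_pos.1 (show 0 < (S c).card from hc.2)
      rw [mem_filter] at hb
      obtain ⟨i, hi, ei⟩ := mem_cs hb.2
      rw [mem_image]
      refine ⟨(i, b), mem_product.2 ⟨mem_range.2 hi, hb.1⟩, ?_⟩
      show a i - b = c
      rw [ei]
      ring
    have e2 := (card_le_card e1).trans card_image_le
    rw [card_product, card_range] at e2
    exact_mod_cast e2
  have h8 : ∀ c, ((rc A B c : ℝ)) ^ 3 ≤ 8 * ((Q (S c)).card : ℝ) ^ 3 +
      8 * (if 1 ≤ rc A B c then 1 else 0) := by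
    intro c
    have e1 := card_Q (S c)
    rw [hSr] at e1
    have e1' : (rc A B c : ℝ) ≤ (Q (S c)).card + 1 := by exact_mod_cast e1
    have e0 : (0 : ℝ) ≤ (Q (S c)).card := Nat.cast_nonneg _
    split_ifs with hr
    · rcases Nat.eq_zero_or_pos (Q (S c)).card with hq | hq
      · rw [hq] at e1' ⊢
        have e2 : (1 : ℝ) ≤ rc A B c := by exact_mod_cast hr
        have e3 : (rc A B c : ℝ) = 1 := by
          push_cast at e1'
          linarith
        rw [e3]
        norm_num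
      · have e2 : (1 : ℝ) ≤ (Q (S c)).card := by exact_mod_cast hq
        have e3 : (rc A B c : ℝ) ≤ 2 * (Q (S c)).card := by linarith
        have e4 : (rc A B c : ℝ) ^ 3 ≤ (2 * (Q (S c)).card : ℝ) ^ 3 :=
          pow_le_pow_left₀ (Nat.cast_nonneg _) e3 3
        have e5 : (2 * (Q (S c)).card : ℝ) ^ 3 = 8 * ((Q (S c)).card : ℝ) ^ 3 := by ring
        linarith
    · have e2 : rc A B c = 0 := by omega
      rw [e2, Nat.cast_zero, mul_zero, add_zero, zero_pow (by norm_num)]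
      positivity
  have h9 : ∑ c ∈ C, ((rc A B c : ℝ)) ^ 3 ≤
      8 * ∑ c ∈ C, ((Q (S c)).card : ℝ) ^ 3 + 8 * (n * B.card) := by
    refine (sum_le_sum fun c _ => h8 c).trans ?_
    rw [sum_add_distrib, ← mul_sum, ← mul_sum]
    have e1 : ∑ c ∈ C, (if 1 ≤ rc A B c then (1 : ℝ) else 0)
        = ((C.filter fun c => 1 ≤ rc A B c).card : ℝ) := by
      rw [sum_boole]
    rw [e1]
    linarith
  refine h9.trans ?_
  have g1 : (1 : ℝ) ≤ (1 + Real.log B.card) * (1 + Real.log n) := by nlinarith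
  have g2 : (n : ℝ) * B.card ≤ n * B.card ^ 2 * ((1 + Real.log B.card) * (1 + Real.log n)) := by
    have e1 : (n : ℝ) * B.card * 1 ≤ n * B.card * (B.card *
        ((1 + Real.log B.card) * (1 + Real.log n))) := by
      refine mul_le_mul_of_nonneg_left ?_ (by positivity)
      nlinarith
    linarith [e1, show (n : ℝ) * B.card * (B.card * ((1 + Real.log B.card) * (1 + Real.log n)))
      = n * B.card ^ 2 * ((1 + Real.log B.card) * (1 + Real.log n)) by ring]
  have g3 : (n : ℝ) * B.card * (B.card * ((1 + Real.log B.card) * (1 + Real.log n)))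
      = n * B.card ^ 2 * ((1 + Real.log B.card) * (1 + Real.log n)) := by ring
  rw [g3] at h6
  have g4 : 16 * (n : ℝ) * (B.card : ℝ) ^ 2 * (1 + Real.log n) * (1 + Real.log B.card)
      = 16 * (n * B.card ^ 2 * ((1 + Real.log B.card) * (1 + Real.log n))) := by ring
  rw [g4]
  linarith

end NCE
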