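import Pool.Agent.NCE.Ineq

/-!
# Module IQ: the inequalities of node Q

Written by helper10 for the project of helper53 (MP_f03f67_co).
-/

set_option autoImplicit false

open Finset
open scoped Classical

namespace NCE

namespace MIQ

lemma H_unit {Ω : Type} [Fintype Ω] (P : FP Ω) : H P (fun _ : Ω => ()) = 0 := by
  unfold H ex
  apply Finset.sum_eq_zero
  intro ω _
  have : pr P (fun _ : Ω => ()) () = 1 := by
    unfold pr
    simpa using P.one
  show P.p ω * -Real.log (pr P (fun _ : Ω => ()) ()) = 0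
  rw [this]
  simp

lemma H_eq (hDET : S_DET) {Ω : Type} [Fintype Ω] (P : FP Ω) {α β : Type} (V : Ω → α) (W : Ω → β)
    (h1 : Det V W) (h2 : Det W V) : H P V = H P W :=
  le_antisymm (hDET Ω P β α W V h2) (hDET Ω P α β V W h1)

lemma H_A (hDET : S_DET) (hCNT : S_CNT) {Ω : Type} [Fintype Ω] (P : FP Ω) (n : ℕ) (A0 : ℕ → ℝ)
    (hn : 1 ≤ n) (b : Ω → ℝ) (hb : ∀ ω, b ω ∈ cs n A0) : H P b ≤ Real.log n := by
  have h1 := hCNT Ω P Unit ℝ (fun _ => ()) b (fun _ => cs n A0) (fun ω _ => hb ω)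
  have h2 : H P b ≤ H P (fun ω => ((), b ω)) := by
    apply hDET
    intro ω ω' h
    exact congrArg Prod.snd h
  rw [H_unit] at h1
  have h3 : ex P (fun _ => Real.log ((cs n A0).card : ℝ)) = Real.log ((cs n A0).card : ℝ) := by
    unfold ex
    rw [← Finset.sum_mul, P.one, one_mul]
  have h4 : Real.log ((cs n A0).card : ℝ) ≤ Real.log n := by
    have hle : (cs n A0).card ≤ n := by
      unfold cs
      calc ((range n).image A0).card ≤ (range n).card := Finset.card_image_le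
        _ = n := Finset.card_range n
    rcases Nat.eq_zero_or_pos (cs n A0).card with h0 | h0
    · rw [h0]
      simp only [Nat.cast_zero, Real.log_zero]
      exact Real.log_nonneg (by exact_mod_cast hn)
    · apply Real.log_le_log
      · exact_mod_cast h0
      · exact_mod_cast hle
  have h1' : H P (fun ω => ((), b ω)) ≤ 0 + ex P (fun _ => Real.log ((cs n A0).card : ℝ)) := h1
  rw [h3] at h1'
  linarith

end MIQ

open MIQ in
theorem t_IQ (hDET : S_DET) (hSLF : S_SLF) (hSUB : S_SUB) (hCNT : S_CNT) (hST0 : S_ST0) :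
    S_IQ := by
  intro ε hε
  obtain ⟨K, hK0, hK⟩ := hST0 1 ε hε
  refine ⟨K, hK0, ?_⟩
  intro n A0 hn hA Ω _ P b c y a N
  -- identities
  have e1 : H P b = H P c :=
    (hSLF Ω Ω P P (ℝ × ℝ × ℝ) ℝ _ _ (fun x => x.1) (fun _ => 0) N.s1).2.1
  have e2 : H P y = H P (fun ω => b ω - c ω) :=
    (hSLF Ω Ω P P (ℝ × ℝ × ℝ) ℝ _ _ (fun x => x.2.2) (fun _ => 0) N.s2).2.1
  have e3 : H P (fun ω => (b ω, y ω)) = H P (fun ω => (b ω, b ω - c ω)) :=
    (hSLF Ω Ω P P (ℝ × ℝ × ℝ) (ℝ × ℝ) _ _ (fun x => (x.1, x.2.2)) (fun _ => 0) N.s2).2.1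
  have e4 : H P (fun ω => (b ω, b ω - c ω)) = H P (fun ω => (b ω, c ω)) := by
    apply H_eq hDET
    · intro ω ω' h
      simp only [Prod.mk.injEq] at h ⊢
      obtain ⟨h1, h2⟩ := h
      exact ⟨h1, by linarith⟩
    · intro ω ω' h
      simp only [Prod.mk.injEq] at h ⊢
      obtain ⟨h1, h2⟩ := h
      exact ⟨h1, by linarith⟩
  have e5 : H P (fun ω => (c ω, y ω)) = H P (fun ω => (b ω, y ω)) :=
    ((hSLF Ω Ω P P (ℝ × ℝ × ℝ) (ℝ × ℝ) _ _ (fun x => (x.1, x.2.2)) (fun _ => 0) N.s1).2.1).symm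
  have e6 : H P a = H P c :=
    (hSLF Ω Ω P P (ℝ × ℝ) ℝ _ _ (fun x => x.2) (fun _ => 0) N.s3).2.1
  have e7 : H P (fun ω => (b ω, a ω)) = H P (fun ω => (b ω, c ω)) :=
    (hSLF Ω Ω P P (ℝ × ℝ) (ℝ × ℝ) _ _ (fun x => x) (fun _ => 0) N.s3).2.1
  have e8 : H P (fun ω => (a ω, b ω)) = H P (fun ω => (b ω, a ω)) := by
    apply H_eq hDET
    · intro ω ω' h
      simp only [Prod.mk.injEq] at h ⊢
      exact ⟨h.2, h.1⟩
    · intro ω ω' h
      simp only [Prod.mk.injEq] at h ⊢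
      exact ⟨h.2, h.1⟩
  have e9 : H P (fun ω => (b ω, c ω)) = H P (fun ω => (c ω, b ω - c ω)) := by
    apply H_eq hDET
    · intro ω ω' h
      simp only [Prod.mk.injEq] at h ⊢
      obtain ⟨h1, h2⟩ := h
      exact ⟨h2, by linarith⟩
    · intro ω ω' h
      simp only [Prod.mk.injEq] at h ⊢
      obtain ⟨h1, h2⟩ := h
      exact ⟨by linarith, h1⟩
  refine ⟨?_, ?_, ?_, ?_, ?_⟩
  · -- 1
    have hSm : Sm n 1 c := by
      refine ⟨cs n A0, ?_, N.m2⟩
      rw [pow_one]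
      unfold cs
      calc ((range n).image A0).card ≤ (range n).card := Finset.card_image_le
        _ = n := Finset.card_range n
    have h := hK n A0 hn hA Ω P c (fun ω => b ω - c ω) hSm (fun ω _ => by
      have : c ω + (b ω - c ω) = b ω := by ring
      rw [this]
      exact N.m1 ω)
    rw [e9]
    linarith [h, e1]
  · -- 2
    have h := hSUB Ω P Unit ℝ ℝ (ℝ × ℝ) (fun _ => ()) a y (fun ω => (a ω, y ω))
      (fun _ _ _ => rfl) (fun _ _ _ => rfl) (fun ω ω' h1 h2 => by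
        simp only [Prod.mk.injEq]
        exact ⟨h1, h2⟩)
    rw [H_unit] at h
    linarith
  · -- 3
    have h := hSUB Ω P ℝ (ℝ × ℝ) (ℝ × ℝ) (ℝ × ℝ × ℝ) b (fun ω => (a ω, b ω))
      (fun ω => (b ω, y ω)) (fun ω => (a ω, b ω, y ω))
      (fun ω ω' h => congrArg Prod.snd h) (fun ω ω' h => congrArg Prod.fst h)
      (fun ω ω' h1 h2 => by
        simp only [Prod.mk.injEq] at h1 h2 ⊢
        exact ⟨h1.1, h1.2, h2.2⟩)
    linarith
  · -- 4
    have h := hSUB Ω P ℝ (ℝ × ℝ) (ℝ × ℝ) (ℝ × ℝ × ℝ) y (fun ω => (c ω, y ω))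
      (fun ω => (y ω, a ω)) (fun ω => (c ω, y ω, a ω))
      (fun ω ω' h => congrArg Prod.snd h) (fun ω ω' h => congrArg Prod.fst h)
      (fun ω ω' h1 h2 => by
        simp only [Prod.mk.injEq] at h1 h2 ⊢
        exact ⟨h1.1, h1.2, h2.2⟩)
    have h' := hSUB Ω P (ℝ × ℝ) (ℝ × ℝ × ℝ) (ℝ × ℝ × ℝ) (ℝ × ℝ × ℝ × ℝ)
      (fun ω => (y ω, a ω)) (fun ω => (a ω, b ω, y ω))
      (fun ω => (c ω, y ω, a ω)) (fun ω => (b ω, c ω, y ω, a ω))
      (fun ω ω' h => by
        simp only [Prod.mk.injEq] at h ⊢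
        exact ⟨h.2.2, h.1⟩)
      (fun ω ω' h => by
        simp only [Prod.mk.injEq] at h ⊢
        exact ⟨h.2.1, h.2.2⟩)
      (fun ω ω' h1 h2 => by
        simp only [Prod.mk.injEq] at h1 h2 ⊢
        exact ⟨h1.2.1, h2.1, h2.2.1, h2.2.2⟩)
    have h4 := N.h4
    linarith
  · -- 5
    exact H_A hDET hCNT P n A0 hn b N.m1

end NCE
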