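import Pool.Agent.NCE.Ineq

/-!
# The inequalities of node R
-/

set_option autoImplicit false

open Finset
open scoped Classical

namespace NCE

namespace MIR

theorem sm_one {Ω : Type} {n : ℕ} {A0 : ℕ → ℝ} {x : Ω → ℝ} (h : ∀ ω, x ω ∈ cs n A0) :
    Sm n 1 x := by
  refine ⟨cs n A0, ?_, h⟩
  unfold cs
  simpa using Finset.card_image_le (s := range n) (f := A0)

end MIR

theorem t_IR (hDET : S_DET) (hSLF : S_SLF) (hSUB : S_SUB) (hST0 : S_ST0) (hE3T : S_E3T) :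
    S_IR := by
  have _ := hSLF
  intro ε hε
  obtain ⟨K1, hK1, h1⟩ := hST0 1 ε hε
  obtain ⟨K2, hK2, h2⟩ := hE3T ε hε
  refine ⟨K1 + K2, by linarith, ?_⟩
  intro n A0 hn hA Ω _ P a b y b2 N
  have i1 := h1 n A0 hn hA Ω P (fun ω => b ω - y ω) (fun ω => - (b ω - b2 ω))
    (MIR.sm_one N.m4) (fun ω _ => by
      have h := N.m5 ω
      have e : b ω - y ω + - (b ω - b2 ω) = b2 ω - y ω := by ring
      show b ω - y ω + - (b ω - b2 ω) ∈ cs n A0
      rw [e]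
      exact h)
  have i2 := h2 n A0 hn hA Ω P a b b2 (fun ω => ⟨N.m1 ω, N.m2 ω, N.m3 ω⟩)
  have d1 := hDET Ω P (ℝ × ℝ) (ℝ × ℝ) (fun ω => (b ω - y ω, - (b ω - b2 ω)))
    (fun ω => (b ω - y ω, b ω - b2 ω)) (by
      intro ω ω' q
      simp only [Prod.mk.injEq] at q ⊢
      exact ⟨q.1, neg_injective q.2⟩)
  have d2 := hDET Ω P ℝ ℝ (fun ω => b ω - b2 ω) (fun ω => - (b ω - b2 ω)) (by
      intro ω ω' q
      simp only at q
      simp only [q])
  have d3 := hDET Ω P (ℝ × ℝ) (ℝ × ℝ) (fun ω => (a ω - b ω, a ω - b2 ω))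
    (fun ω => (a ω - b ω, b ω - b2 ω)) (by
      intro ω ω' q
      simp only [Prod.mk.injEq] at q ⊢
      exact ⟨q.1, by linarith [q.1, q.2]⟩)
  have s1 := hSUB Ω P ℝ (ℝ × ℝ) (ℝ × ℝ) (ℝ × ℝ × ℝ) (fun ω => b ω - b2 ω)
    (fun ω => (b ω - y ω, b ω - b2 ω)) (fun ω => (a ω - b ω, a ω - b2 ω))
    (fun ω => (b ω - y ω, b ω - b2 ω, a ω - b ω))
    (by
      intro ω ω' q
      simp only [Prod.mk.injEq] at q
      exact q.2)
    (by
      intro ω ω' q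
      simp only [Prod.mk.injEq] at q
      show b ω - b2 ω = b ω' - b2 ω'
      linarith [q.1, q.2])
    (by
      intro ω ω' q q'
      simp only [Prod.mk.injEq] at q q' ⊢
      exact ⟨q.1, q.2, q'.1⟩)
  have s2 := hSUB Ω P (ℝ × ℝ) (ℝ × ℝ × ℝ) (ℝ × ℝ × ℝ) (ℝ × ℝ × ℝ × ℝ)
    (fun ω => (a ω - b ω, a ω - b2 ω)) (fun ω => (a ω, b ω, b2 ω))
    (fun ω => (b ω - y ω, b ω - b2 ω, a ω - b ω)) (fun ω => (a ω, b ω, y ω, b2 ω))
    (by
      intro ω ω' q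
      simp only [Prod.mk.injEq] at q ⊢
      exact ⟨by rw [q.1, q.2.1], by rw [q.1, q.2.2]⟩)
    (by
      intro ω ω' q
      simp only [Prod.mk.injEq] at q ⊢
      exact ⟨q.2.2, by linarith [q.2.1, q.2.2]⟩)
    (by
      intro ω ω' q q'
      simp only [Prod.mk.injEq] at q q' ⊢
      exact ⟨q.1, q.2.1, by linarith [q.2.1, q'.1], q.2.2⟩)
  have hh := N.h1
  constructor
  · linarith
  · linarith

end NCE
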