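import Pool.Agent.NCE.Ineq

/-!
# The inequalities of node W (problem MP_f03f67_co)
-/

set_option autoImplicit false

open Finset
open scoped Classical

namespace NCE

namespace MIW

/-- The set of the differences of `A` has at most `n ^ 2` elements. -/
theorem sm_diff {Ω : Type} (n : ℕ) (A0 : ℕ → ℝ) (b b2 : Ω → ℝ) (hb : ∀ ω, b ω ∈ cs n A0)
    (hb2 : ∀ ω, b2 ω ∈ cs n A0) : Sm n 2 (fun ω => b ω - b2 ω) := by
  refine ⟨(cs n A0 ×ˢ cs n A0).image (fun q => q.1 - q.2), ?_, ?_⟩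
  · have h1 : (cs n A0).card ≤ n := by
      unfold cs
      calc ((range n).image A0).card ≤ (range n).card := card_image_le
        _ = n := card_range n
    calc ((cs n A0 ×ˢ cs n A0).image (fun q => q.1 - q.2)).card
        ≤ (cs n A0 ×ˢ cs n A0).card := card_image_le
      _ = (cs n A0).card * (cs n A0).card := card_product _ _
      _ ≤ n * n := Nat.mul_le_mul h1 h1
      _ = n ^ 2 := (pow_two n).symm
  · intro ω
    exact mem_image.2 ⟨(b ω, b2 ω), mem_product.2 ⟨hb ω, hb2 ω⟩, rfl⟩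

end MIW

open MIW in
theorem t_IW (_hDET : S_DET) (hSUB : S_SUB) (hST0 : S_ST0) : S_IW := by
  intro ε hε
  obtain ⟨K, hK, hS⟩ := hST0 2 ε hε
  refine ⟨K, hK, ?_⟩
  intro n A0 hn hA Ω _ P a b b2 g hW
  constructor
  · have h := hS n A0 hn hA Ω P (fun ω => b ω - b2 ω) (fun ω => g ω + b2 ω - a ω)
      (sm_diff n A0 b b2 hW.m2 hW.m3) (fun ω _ => by
        have h5 := hW.m5 ω
        have e : b ω - b2 ω + (g ω + b2 ω - a ω) = g ω - a ω + b ω := by ring
        show b ω - b2 ω + (g ω + b2 ω - a ω) ∈ cs n A0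
        rw [e]
        exact h5)
    linarith
  · have h := hSUB Ω P (ℝ × ℝ) (ℝ × ℝ × ℝ) (ℝ × ℝ × ℝ) (ℝ × ℝ × ℝ × ℝ)
      (fun ω => (a ω - b ω, a ω - b2 ω)) (fun ω => (a ω, b ω, b2 ω))
      (fun ω => (g ω + b2 ω - a ω, g ω, g ω - a ω + b ω))
      (fun ω => (a ω, b ω, b2 ω, g ω))
      (fun ω ω' h => by
        simp only [Prod.mk.injEq] at h ⊢
        obtain ⟨h1, h2, h3⟩ := h
        constructor <;> linarith)
      (fun ω ω' h => by
        simp only [Prod.mk.injEq] at h ⊢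
        obtain ⟨h1, h2, h3⟩ := h
        constructor <;> linarith)
      (fun ω ω' h h' => by
        simp only [Prod.mk.injEq] at h h' ⊢
        obtain ⟨h1, h2, h3⟩ := h
        obtain ⟨h4, h5, h6⟩ := h'
        exact ⟨h1, h2, h3, h5⟩)
    have h1 := hW.h1
    linarith

end NCE
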