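import Pool.Agent.NCE.Ineq

/-!
# IXS: the submodular inequalities of node X
-/

set_option autoImplicit false

open Finset
open scoped Classical

namespace NCE

namespace MIXS

section
variable {Ω : Type} [Fintype Ω]

theorem ex_const (P : FP Ω) (c : ℝ) : ex P (fun _ => c) = c := by
  unfold ex
  rw [← Finset.sum_mul, P.one, one_mul]

theorem H_unit (P : FP Ω) : H P (fun _ => ()) = 0 := by
  have h : ∀ ω : Ω, pr P (fun _ => ()) () = 1 := fun _ => by
    unfold pr
    simp [P.one]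
  unfold H
  have h1 : (fun ω : Ω => - Real.log (pr P (fun _ => ()) ())) = fun _ => (0 : ℝ) := by
    funext ω
    rw [h ω, Real.log_one, neg_zero]
  rw [h1]
  exact ex_const P 0

theorem log_card (P : FP Ω) (n : ℕ) (A0 : ℕ → ℝ) (x : Ω → ℝ) (hx : ∀ ω, x ω ∈ cs n A0) :
    Real.log (cs n A0).card ≤ Real.log n := by
  have hne : Nonempty Ω := by
    by_contra hc
    rw [not_nonempty_iff] at hc
    have h1 := P.one
    rw [Finset.univ_eq_empty, Finset.sum_empty] at h1
    exact zero_ne_one h1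
  obtain ⟨ω⟩ := hne
  have h1 : 0 < (cs n A0).card := Finset.card_pos.mpr ⟨_, hx ω⟩
  have h2 : (cs n A0).card ≤ n := by
    have := Finset.card_image_le (s := range n) (f := A0)
    rwa [Finset.card_range] at this
  exact Real.log_le_log (by exact_mod_cast h1) (by exact_mod_cast h2)

end

end MIXS

open MIXS in
theorem t_IXS (hDET : S_DET) (hSLF : S_SLF) (hSUB : S_SUB) (hCNT : S_CNT) : S_IXS := by
  intro n A0 _ _ Ω _ P f g h d e hX
  have c1 : Real.log (cs n A0).card ≤ Real.log n := log_card P n A0 g hX.m1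
  refine ⟨?_, ?_, ?_, ?_, ?_, ?_, ?_, ?_, ?_, ?_, ?_, ?_, ?_⟩
  · have h1 := hCNT Ω P Unit ℝ (fun _ => ()) g (fun _ => cs n A0) (fun ω _ => hX.m1 ω)
    have h2 : H P g ≤ H P (fun ω => ((), g ω)) := hDET Ω P _ _ _ _ (by
      intro ω ω' hh
      exact congrArg Prod.snd hh)
    rw [H_unit, ex_const] at h1
    linarith
  · have h1 := hCNT Ω P ℝ ℝ g (fun ω => d ω - f ω + g ω) (fun _ => cs n A0)
      (fun ω _ => hX.m5 ω)
    have h2 : H P (fun ω => (g ω, f ω - d ω)) ≤ H P (fun ω => (g ω, d ω - f ω + g ω)) :=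
      hDET Ω P _ _ _ _ (by
        intro ω ω' hh
        simp only [Prod.mk.injEq] at hh ⊢
        obtain ⟨a1, a2⟩ := hh
        exact ⟨a1, by linarith⟩)
    rw [ex_const] at h1
    linarith
  · have h1 := hSUB Ω P _ _ _ _ f (fun ω => (f ω, h ω)) (fun ω => (f ω, d ω))
      (fun ω => (f ω, h ω, d ω))
      (fun ω ω' hh => by
        simp only [Prod.mk.injEq] at hh
        exact hh.1)
      (fun ω ω' hh => by
        simp only [Prod.mk.injEq] at hh
        exact hh.1)
      (fun ω ω' h1 h2 => by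
        simp only [Prod.mk.injEq] at h1 h2 ⊢
        exact ⟨h1.1, h1.2, h2.2⟩)
    linarith
  · have h1 := hSUB Ω P _ _ _ _ f (fun ω => (f ω, h ω)) (fun ω => (f ω, g ω - e ω))
      (fun ω => (f ω, h ω, g ω - e ω))
      (fun ω ω' hh => by
        simp only [Prod.mk.injEq] at hh
        exact hh.1)
      (fun ω ω' hh => by
        simp only [Prod.mk.injEq] at hh
        exact hh.1)
      (fun ω ω' h1 h2 => by
        simp only [Prod.mk.injEq] at h1 h2 ⊢
        exact ⟨h1.1, h1.2, h2.2⟩)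
    linarith
  · have h1 := hSUB Ω P _ _ _ _ (fun ω => d ω + h ω - f ω)
      (fun ω => (d ω + h ω - f ω, f ω - d ω)) (fun ω => (h ω - f ω, d ω + h ω - f ω))
      (fun ω => (f ω, h ω, d ω))
      (fun ω ω' hh => by
        simp only [Prod.mk.injEq] at hh
        exact hh.1)
      (fun ω ω' hh => by
        simp only [Prod.mk.injEq] at hh
        exact hh.2)
      (fun ω ω' h1 h2 => by
        simp only [Prod.mk.injEq] at h1 h2 ⊢
        obtain ⟨a1, a2⟩ := h1
        obtain ⟨b1, b2⟩ := h2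
        exact ⟨by linarith, by linarith, by linarith⟩)
    linarith
  · have h1 := hSUB Ω P _ _ _ _ (fun ω => f ω - d ω)
      (fun ω => (g ω, f ω - d ω)) (fun ω => (e ω, f ω - d ω))
      (fun ω => (g ω, e ω, f ω - d ω))
      (fun ω ω' hh => by
        simp only [Prod.mk.injEq] at hh
        exact hh.2)
      (fun ω ω' hh => by
        simp only [Prod.mk.injEq] at hh
        exact hh.2)
      (fun ω ω' h1 h2 => by
        simp only [Prod.mk.injEq] at h1 h2 ⊢
        exact ⟨h1.1, h2.1, h1.2⟩)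
    have h2 := (hSLF Ω Ω P P _ _ _ _
      (fun q : ℝ × ℝ × ℝ × ℝ × ℝ => (q.2.1, q.1 - q.2.2.2.1)) (fun _ => 0) hX.s1).2.1
    have h3 : H P (fun ω => (g ω, f ω - d ω)) = H P (fun ω => (e ω, f ω - d ω)) := h2
    linarith
  · have h1 := hSUB Ω P _ _ _ _ (fun ω => g ω - e ω)
      (fun ω => (g ω, e ω)) (fun ω => (f ω - g ω, f ω - e ω))
      (fun ω => (f ω, g ω, e ω))
      (fun ω ω' hh => by
        simp only [Prod.mk.injEq] at hh
        show g ω - e ω = g ω' - e ω'
        linarith [hh.1, hh.2])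
      (fun ω ω' hh => by
        simp only [Prod.mk.injEq] at hh
        show g ω - e ω = g ω' - e ω'
        linarith [hh.1, hh.2])
      (fun ω ω' h1 h2 => by
        simp only [Prod.mk.injEq] at h1 h2 ⊢
        obtain ⟨a1, a2⟩ := h1
        obtain ⟨b1, b2⟩ := h2
        exact ⟨by linarith, a1, a2⟩)
    linarith
  · have h1 := hSUB Ω P _ _ _ _ (fun ω => (g ω, e ω))
      (fun ω => (h ω, g ω, e ω)) (fun ω => (g ω, e ω, f ω - d ω))
      (fun ω => (g ω, h ω, e ω, f ω - d ω))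
      (fun ω ω' hh => by
        simp only [Prod.mk.injEq] at hh ⊢
        exact hh.2)
      (fun ω ω' hh => by
        simp only [Prod.mk.injEq] at hh ⊢
        exact ⟨hh.1, hh.2.1⟩)
      (fun ω ω' h1 h2 => by
        simp only [Prod.mk.injEq] at h1 h2 ⊢
        exact ⟨h1.2.1, h1.1, h1.2.2, h2.2.2⟩)
    linarith
  · have h1 := hSUB Ω P _ _ _ _ (fun ω => (d ω + h ω - f ω, f ω - d ω))
      (fun ω => (g ω, h ω, f ω - d ω)) (fun ω => (f ω, h ω, d ω))
      (fun ω => (f ω, g ω, h ω, d ω))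
      (fun ω ω' hh => by
        simp only [Prod.mk.injEq] at hh ⊢
        obtain ⟨a1, a2, a3⟩ := hh
        exact ⟨by linarith, a3⟩)
      (fun ω ω' hh => by
        simp only [Prod.mk.injEq] at hh ⊢
        obtain ⟨a1, a2, a3⟩ := hh
        exact ⟨by linarith, by linarith⟩)
      (fun ω ω' h1 h2 => by
        simp only [Prod.mk.injEq] at h1 h2 ⊢
        exact ⟨h2.1, h1.1, h2.2.1, h2.2.2⟩)
    linarith
  · have h1 := hSUB Ω P _ _ _ _ (fun ω => (f ω - g ω, f ω - e ω))
      (fun ω => (f ω - g ω, f ω - e ω, f ω - h ω)) (fun ω => (f ω - g ω, f ω - e ω, d ω))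
      (fun ω => (f ω - g ω, f ω - e ω, f ω - h ω, d ω))
      (fun ω ω' hh => by
        simp only [Prod.mk.injEq] at hh ⊢
        exact ⟨hh.1, hh.2.1⟩)
      (fun ω ω' hh => by
        simp only [Prod.mk.injEq] at hh ⊢
        exact ⟨hh.1, hh.2.1⟩)
      (fun ω ω' h1 h2 => by
        simp only [Prod.mk.injEq] at h1 h2 ⊢
        exact ⟨h1.1, h1.2.1, h1.2.2, h2.2.2⟩)
    linarith
  · have h1 := hSUB Ω P _ _ _ _ (fun ω => (f ω, g ω - e ω))
      (fun ω => (f ω, g ω, e ω)) (fun ω => (f ω, h ω, g ω - e ω))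
      (fun ω => (f ω, g ω, h ω, e ω))
      (fun ω ω' hh => by
        simp only [Prod.mk.injEq] at hh ⊢
        obtain ⟨a1, a2, a3⟩ := hh
        exact ⟨a1, by linarith⟩)
      (fun ω ω' hh => by
        simp only [Prod.mk.injEq] at hh ⊢
        exact ⟨hh.1, hh.2.2⟩)
      (fun ω ω' h1 h2 => by
        simp only [Prod.mk.injEq] at h1 h2 ⊢
        exact ⟨h1.1, h1.2.1, h2.2.1, h1.2.2⟩)
    linarith
  · have h1 := hSUB Ω P _ _ _ _ (fun ω => (g ω, h ω, f ω - d ω))
      (fun ω => (f ω, g ω, h ω, d ω)) (fun ω => (g ω, h ω, e ω, f ω - d ω))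
      (fun ω => (f ω, g ω, h ω, d ω, e ω))
      (fun ω ω' hh => by
        simp only [Prod.mk.injEq] at hh ⊢
        obtain ⟨a1, a2, a3, a4⟩ := hh
        exact ⟨a2, a3, by linarith⟩)
      (fun ω ω' hh => by
        simp only [Prod.mk.injEq] at hh ⊢
        exact ⟨hh.1, hh.2.1, hh.2.2.2⟩)
      (fun ω ω' h1 h2 => by
        simp only [Prod.mk.injEq] at h1 h2 ⊢
        exact ⟨h1.1, h1.2.1, h1.2.2.1, h1.2.2.2, h2.2.2.1⟩)
    linarith
  · have h1 := hSUB Ω P _ _ _ _ (fun ω => (f ω - g ω, f ω - e ω, f ω - h ω))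
      (fun ω => (f ω, g ω, h ω, e ω)) (fun ω => (f ω - g ω, f ω - e ω, f ω - h ω, d ω))
      (fun ω => (f ω, g ω, h ω, d ω, e ω))
      (fun ω ω' hh => by
        simp only [Prod.mk.injEq] at hh ⊢
        obtain ⟨a1, a2, a3, a4⟩ := hh
        exact ⟨by linarith, by linarith, by linarith⟩)
      (fun ω ω' hh => by
        simp only [Prod.mk.injEq] at hh ⊢
        exact ⟨hh.1, hh.2.1, hh.2.2.1⟩)
      (fun ω ω' h1 h2 => by
        simp only [Prod.mk.injEq] at h1 h2 ⊢
        exact ⟨h1.1, h1.2.1, h1.2.2.1, h2.2.2.2, h1.2.2.2⟩)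
    linarith

end NCE
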