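import Pool.Agent.NCE.Ineq

/-!
# IXT: the convexity inequalities of node X
-/

set_option autoImplicit false

open Finset
open scoped Classical

namespace NCE

namespace MIXT

section
variable {Ω : Type} [Fintype Ω]

theorem card_cs (n : ℕ) (a : ℕ → ℝ) : (cs n a).card ≤ n := by
  have h := card_image_le (s := range n) (f := a)
  rwa [card_range] at h

/-- linear combinations of at most `k` elements of `A` -/
theorem sm_lin {n k m : ℕ} (hn : 1 ≤ n) (hmk : m ≤ k) (A : Finset ℝ) (hA : A.card ≤ n)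
    (c : Fin m → ℝ) (x : Fin m → Ω → ℝ) (hx : ∀ i ω, x i ω ∈ A) (b : Ω → ℝ)
    (hb : ∀ ω, b ω = ∑ i, c i * x i ω) : Sm n k b := by
  refine ⟨(Fintype.piFinset (fun _ : Fin m => A)).image (fun t => ∑ i, c i * t i), ?_, ?_⟩
  · refine card_image_le.trans ?_
    rw [Fintype.card_piFinset_const]
    exact (Nat.pow_le_pow_left hA m).trans (Nat.pow_le_pow_right hn hmk)
  · intro ω
    rw [mem_image]
    refine ⟨fun i => x i ω, ?_, (hb ω).symm⟩
    rw [Fintype.mem_piFinset]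
    exact fun i => hx i ω

theorem rr_pos {A : Finset ℝ} {u v : ℝ} (hu : u ∈ A) (hv : v ∈ A) : 0 < rr A (u - v) := by
  unfold rr
  rw [card_pos]
  refine ⟨(u, v), ?_⟩
  rw [mem_filter, mem_product]
  exact ⟨⟨hu, hv⟩, rfl⟩

theorem H_eq (hDET : S_DET) (P : FP Ω) {α β : Type} (V : Ω → α) (W : Ω → β) (h1 : Det V W)
    (h2 : Det W V) : H P W = H P V :=
  le_antisymm (hDET Ω P α β V W h1) (hDET Ω P β α W V h2)

end

end MIXT

open MIXT in
theorem t_IXT (hDET : S_DET) (hSLF : S_SLF) (hST0 : S_ST0) (hE3T : S_E3T) (hSCH : S_SCH) :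
    S_IXT := by
  intro ε hε
  obtain ⟨K1, hK1, h1⟩ := hST0 8 ε hε
  obtain ⟨K2, hK2, h2⟩ := hE3T ε hε
  obtain ⟨K3, hK3, h3⟩ := hSCH 8 ε hε
  refine ⟨K1 + K2 + K3, by positivity, ?_⟩
  intro n A0 hn hA0 Ω _ P f g h d e N
  have cA := card_cs n A0
  have smF : Sm n 8 f := sm_lin hn (by norm_num) (cs n A0) cA ![1, 1, -1]
    ![g, d, fun ω => d ω - f ω + g ω] (by
      intro i ω
      fin_cases i
      · exact N.m1 ω
      · exact N.m4 ω
      · exact N.m5 ω) f (by
      intro ω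
      simp [Fin.sum_univ_succ]
      ring)
  have smHF : Sm n 8 (fun ω => -(h ω - f ω)) := sm_lin hn (by norm_num) (cs n A0) cA
    ![-1, 1, 1, -1] ![h, g, d, fun ω => d ω - f ω + g ω] (by
      intro i ω
      fin_cases i
      · exact N.m2 ω
      · exact N.m1 ω
      · exact N.m4 ω
      · exact N.m5 ω) _ (by
      intro ω
      simp [Fin.sum_univ_succ]
      ring)
  have smK : Sm n 8 (fun ω => d ω + h ω - f ω) := sm_lin hn (by norm_num) (cs n A0) cA
    ![1, -1, 1] ![h, g, fun ω => d ω - f ω + g ω] (by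
      intro i ω
      fin_cases i
      · exact N.m2 ω
      · exact N.m1 ω
      · exact N.m5 ω) _ (by
      intro ω
      simp [Fin.sum_univ_succ]
      ring)
  have smGE : Sm n 8 (fun ω => g ω - e ω) := sm_lin hn (by norm_num) (cs n A0) cA
    ![1, -1] ![g, e] (by
      intro i ω
      fin_cases i
      · exact N.m1 ω
      · exact N.m3 ω) _ (by
      intro ω
      simp [Fin.sum_univ_succ]
      ring)
  have smHE : Sm n 8 (fun ω => h ω - e ω) := sm_lin hn (by norm_num) (cs n A0) cA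
    ![1, -1] ![h, e] (by
      intro i ω
      fin_cases i
      · exact N.m2 ω
      · exact N.m3 ω) _ (by
      intro ω
      simp [Fin.sum_univ_succ]
      ring)
  have smFE : Sm n 8 (fun ω => f ω - e ω) := sm_lin hn (by norm_num) (cs n A0) cA
    ![1, 1, -1, -1] ![g, d, fun ω => d ω - f ω + g ω, e] (by
      intro i ω
      fin_cases i
      · exact N.m1 ω
      · exact N.m4 ω
      · exact N.m5 ω
      · exact N.m3 ω) _ (by
      intro ω
      simp [Fin.sum_univ_succ]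
      ring)
  have q1 := h1 n A0 hn hA0 Ω P (fun ω => -(h ω - f ω)) (fun ω => d ω + h ω - f ω) smHF
    (fun ω _ => by
      have e1 : -(h ω - f ω) + (d ω + h ω - f ω) = d ω := by ring
      rw [e1]; exact N.m4 ω)
  have q2 := h1 n A0 hn hA0 Ω P f (fun ω => -(f ω - d ω)) smF
    (fun ω _ => by
      have e1 : f ω + -(f ω - d ω) = d ω := by ring
      rw [e1]; exact N.m4 ω)
  have q3 := h1 n A0 hn hA0 Ω P (fun ω => d ω + h ω - f ω) (fun ω => f ω - d ω) smK
    (fun ω _ => by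
      have e1 : d ω + h ω - f ω + (f ω - d ω) = h ω := by ring
      rw [e1]; exact N.m2 ω)
  have q4 := h2 n A0 hn hA0 Ω P d (fun ω => d ω - f ω + g ω) (fun ω => d ω - f ω + e ω)
    (fun ω => ⟨N.m4 ω, N.m5 ω, N.m6 ω⟩)
  have q5 := h3 n A0 hn hA0 Ω P (fun ω => g ω - e ω) (fun ω => h ω - e ω) smGE smHE
    (fun ω => by
      have e1 : h ω - e ω - (g ω - e ω) = h ω - g ω := by ring
      rw [e1]; exact rr_pos (N.m2 ω) (N.m1 ω))
  have q6 := h3 n A0 hn hA0 Ω P (fun ω => g ω - e ω) (fun ω => f ω - e ω) smGE smFE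
    (fun ω => by
      have e1 : f ω - e ω - (g ω - e ω) = d ω - (d ω - f ω + g ω) := by ring
      rw [e1]; exact rr_pos (N.m4 ω) (N.m5 ω))
  -- equalities of entropies
  have a1 : H P (fun ω => (h ω - f ω, d ω + h ω - f ω)) ≤
      H P (fun ω => (-(h ω - f ω), d ω + h ω - f ω)) := hDET Ω P _ _ _ _ (fun ω ω' hh => by
    simp only [Prod.mk.injEq] at hh ⊢
    exact ⟨neg_injective hh.1, hh.2⟩)
  have a2 : H P (fun ω => -(h ω - f ω)) ≤ H P (fun ω => h ω - f ω) :=
    hDET Ω P _ _ _ _ (fun ω ω' hh => congrArg Neg.neg hh)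
  have a3 : H P (fun ω => (f ω, d ω)) ≤ H P (fun ω => (f ω, -(f ω - d ω))) :=
    hDET Ω P _ _ _ _ (fun ω ω' hh => by
      simp only [Prod.mk.injEq] at hh ⊢
      obtain ⟨x1, x2⟩ := hh
      exact ⟨x1, by linarith⟩)
  have a4 : H P (fun ω => -(f ω - d ω)) ≤ H P (fun ω => f ω - d ω) :=
    hDET Ω P _ _ _ _ (fun ω ω' hh => congrArg Neg.neg hh)
  have a5 : H P (fun ω => (f ω - g ω, f ω - e ω, d ω)) ≤
      H P (fun ω => (d ω, d ω - f ω + g ω, d ω - f ω + e ω)) :=
    hDET Ω P _ _ _ _ (fun ω ω' hh => by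
      simp only [Prod.mk.injEq] at hh ⊢
      obtain ⟨x1, x2, x3⟩ := hh
      exact ⟨by linarith, by linarith, x1⟩)
  have a6 : H P (fun ω => (d ω - (d ω - f ω + g ω), (d ω - f ω + g ω) - (d ω - f ω + e ω))) ≤
      H P (fun ω => (f ω - g ω, f ω - e ω)) :=
    hDET Ω P _ _ _ _ (fun ω ω' hh => by
      simp only [Prod.mk.injEq] at hh ⊢
      obtain ⟨x1, x2⟩ := hh
      exact ⟨by linarith, by linarith⟩)
  have a7 : H P (fun ω => (h ω - g ω, h ω - e ω)) ≤ H P (fun ω => (g ω - e ω, h ω - e ω)) :=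
    hDET Ω P _ _ _ _ (fun ω ω' hh => by
      simp only [Prod.mk.injEq] at hh ⊢
      obtain ⟨x1, x2⟩ := hh
      exact ⟨by linarith, by linarith⟩)
  have a8 : H P (fun ω => (f ω - g ω, f ω - e ω)) ≤ H P (fun ω => (g ω - e ω, f ω - e ω)) :=
    hDET Ω P _ _ _ _ (fun ω ω' hh => by
      simp only [Prod.mk.injEq] at hh ⊢
      obtain ⟨x1, x2⟩ := hh
      exact ⟨by linarith, by linarith⟩)
  have b1 : H P (fun ω => h ω - g ω) = H P (fun ω => h ω - e ω) :=
    (hSLF Ω Ω P P _ _ _ _ (fun t : ℝ × ℝ × ℝ × ℝ × ℝ => t.2.2.1 - t.2.1) (fun _ => 0) N.s1).2.1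
  have b2 : H P (fun ω => f ω - g ω) = H P (fun ω => f ω - e ω) :=
    (hSLF Ω Ω P P _ _ _ _ (fun t : ℝ × ℝ × ℝ × ℝ × ℝ => t.1 - t.2.1) (fun _ => 0) N.s1).2.1
  have c1 : ex P (fun ω => Real.log (rr (cs n A0) (h ω - e ω - (g ω - e ω)))) =
      lvl (cs n A0) P (fun ω => h ω - g ω) := by
    unfold lvl
    congr 1
    funext ω
    rw [show h ω - e ω - (g ω - e ω) = h ω - g ω by ring]
  have c2 : ex P (fun ω => Real.log (rr (cs n A0) (f ω - e ω - (g ω - e ω)))) =
      lvl (cs n A0) P (fun ω => f ω - g ω) := by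
    unfold lvl
    congr 1
    funext ω
    rw [show f ω - e ω - (g ω - e ω) = f ω - g ω by ring]
  rw [c1] at q5
  rw [c2] at q6
  rw [← b1] at q5
  rw [← b2] at q6
  refine ⟨by linarith, by linarith, by linarith, by linarith, by linarith, by linarith⟩

end NCE
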