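import Pool.Agent.NCE.Stmts

/-!
# LEV: given `z`, an `a ∈ A` with `a - z ∈ A` takes at most `rr A z` values
-/

set_option autoImplicit false

open Finset
open scoped Classical

namespace NCE

namespace MLEV

theorem card_eq (A : Finset ℝ) (t : ℝ) : (A.filter fun x => x - t ∈ A).card = rr A t := by
  unfold rr
  apply Finset.card_bij (fun x _ => (x, x - t))
  · intro x hx
    rw [mem_filter] at hx
    rw [mem_filter, mem_product]
    exact ⟨⟨hx.1, hx.2⟩, by ring⟩
  · intro x _ y _ h
    exact (Prod.mk.inj h).1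
  · rintro ⟨u, v⟩ h
    rw [mem_filter, mem_product] at h
    obtain ⟨⟨hu, hv⟩, he⟩ := h
    have hv' : v = u - t := by
      simp only at he
      linarith
    refine ⟨u, ?_, ?_⟩
    · rw [mem_filter]
      exact ⟨hu, by rw [← hv']; exact hv⟩
    · rw [hv']

end MLEV

open MLEV

theorem t_LEV (hCNT : S_CNT) : S_LEV := by
  intro A Ω _ P γ Z z a hD hA
  let F : γ → Finset ℝ := fun v =>
    if h : ∃ ω, Z ω = v then A.filter (fun x => x - z h.choose ∈ A) else ∅
  have hF : ∀ ω, F (Z ω) = A.filter (fun x => x - z ω ∈ A) := by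
    intro ω
    have h : ∃ ω', Z ω' = Z ω := ⟨ω, rfl⟩
    have h2 : z h.choose = z ω := hD _ _ h.choose_spec
    simp only [F, dif_pos h, h2]
  have hc : ∀ ω, (F (Z ω)).card = rr A (z ω) := by
    intro ω
    rw [hF]
    exact card_eq A (z ω)
  have h := hCNT Ω P γ ℝ Z a F (fun ω _ => by
    rw [hF, mem_filter]
    exact hA ω)
  simp only [hc] at h
  exact h

end NCE
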