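import Pool.Agent.NCE.Ineq

/-!
# MAIN: the linear combination of the certificate (problem MP_f03f67_co), written by helper85
-/

set_option autoImplicit false

open Finset
open scoped Classical

namespace NCE
namespace MMAIN

theorem HH (hSLF : S_SLF) {Ω Ω' : Type} [Fintype Ω] [Fintype Ω'] {P : FP Ω} {P' : FP Ω'}
    {α β : Type} {X : Ω → α} {X' : Ω' → α} (h : SL P X P' X') (F : α → β) :
    H P (fun ω => F (X ω)) = H P' (fun ω => F (X' ω)) :=
  (hSLF Ω Ω' P P' α β X X' F (fun _ => 0) h).2.1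

theorem EX (hSLF : S_SLF) {Ω Ω' : Type} [Fintype Ω] [Fintype Ω'] {P : FP Ω} {P' : FP Ω'}
    {α : Type} {X : Ω → α} {X' : Ω' → α} (h : SL P X P' X') (f : α → ℝ) :
    ex P (fun ω => f (X ω)) = ex P' (fun ω => f (X' ω)) :=
  (hSLF Ω Ω' P P' α α X X' id f h).2.2

theorem DD (hDET : S_DET) {Ω : Type} [Fintype Ω] (P : FP Ω) {α β : Type} (V : Ω → α)
    (W : Ω → β) (h : ∀ ω ω', V ω = V ω' ↔ W ω = W ω') : H P V = H P W :=
  le_antisymm (hDET Ω P β α W V fun ω ω' e => (h ω ω').2 e)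
    (hDET Ω P α β V W fun ω ω' e => (h ω ω').1 e)

theorem rr_neg (A : Finset ℝ) (x : ℝ) : rr A (-x) = rr A x := by
  unfold rr
  apply Finset.card_bij (fun q _ => (q.2, q.1))
  · intro q hq
    simp only [mem_filter, mem_product] at hq ⊢
    refine ⟨⟨hq.1.2, hq.1.1⟩, ?_⟩
    linarith [hq.2]
  · intro q _ q' _ he
    simp only [Prod.mk.injEq] at he
    exact Prod.ext he.2 he.1
  · intro q hq
    simp only [mem_filter, mem_product] at hq
    refine ⟨(q.2, q.1), ?_, rfl⟩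
    simp only [mem_filter, mem_product]
    refine ⟨⟨hq.1.2, hq.1.1⟩, ?_⟩
    linarith [hq.2]

theorem lvl_neg (A : Finset ℝ) {Ω : Type} [Fintype Ω] (P : FP Ω) (z w : Ω → ℝ)
    (h : ∀ ω, w ω = - z ω) : lvl A P w = lvl A P z := by
  unfold lvl
  congr 1
  funext ω
  rw [h ω, rr_neg]

theorem H_neg (hDET : S_DET) {Ω : Type} [Fintype Ω] (P : FP Ω) (z w : Ω → ℝ)
    (h : ∀ ω, w ω = - z ω) : H P w = H P z := by
  apply DD hDET
  intro ω ω'
  rw [h ω, h ω']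
  exact neg_inj

theorem cs_nonempty (n : ℕ) (a : ℕ → ℝ) (hn : 1 ≤ n) : (cs n a).Nonempty :=
  ⟨a 0, mem_image.2 ⟨0, mem_range.2 hn, rfl⟩⟩

end MMAIN

open MMAIN in
theorem t_MAIN (hDET : S_DET) (hSLF : S_SLF) (hNQ : S_NQ) (hNR : S_NR) (hNW : S_NW)
    (hNX : S_NX) (hNE : S_NE) (hIQ : S_IQ) (hIR : S_IR) (hIW : S_IW) (hIXS : S_IXS)
    (hIXT : S_IXT) (hIE : S_IE) : S_MAIN := by
  intro ε hε
  obtain ⟨K1, hK1, IQ⟩ := hIQ ε hε
  obtain ⟨K2, hK2, IR⟩ := hIR ε hε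
  obtain ⟨K3, hK3, IW⟩ := hIW ε hε
  obtain ⟨K4, hK4, IXT⟩ := hIXT ε hε
  obtain ⟨K5, hK5, IE⟩ := hIE ε hε
  refine ⟨K1 + K2 + K3 + K4 + K5, by positivity, ?_⟩
  intro n A0 hn hA
  have hL : 0 ≤ Real.log n := Real.log_nonneg (by exact_mod_cast hn)
  have hεL : 0 ≤ ε * Real.log n := mul_nonneg hε.le hL
  obtain ⟨ΩQ, _, PQ, b, c, y, a, NQ⟩ := hNQ (cs n A0) (cs_nonempty n A0 hn)
  obtain ⟨ΩR, _, PR, aR, bR, yR, bR2, NR, slR⟩ := hNR (cs n A0) ΩQ PQ b c y a NQ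
  obtain ⟨ΩW, _, PW, aW, bW, bW2, gW, NW, slW⟩ := hNW (cs n A0) ΩR PR aR bR yR bR2 NR
  obtain ⟨ΩX, _, PX, f, g, h, d, e, NX, slX⟩ := hNX (cs n A0) ΩW PW aW bW bW2 gW NW
  obtain ⟨ΩE, _, PE, hE, gE, eE, zE, NE, slE⟩ := hNE (cs n A0) ΩX PX f g h d e NX
  obtain ⟨iq1, iq2, iq3, iq4, iq5⟩ := IQ n A0 hn hA ΩQ PQ b c y a NQ
  obtain ⟨ir1, ir2⟩ := IR n A0 hn hA ΩR PR aR bR yR bR2 NR
  obtain ⟨iw1, iw2⟩ := IW n A0 hn hA ΩW PW aW bW bW2 gW NW
  obtain ⟨xs1, xs2, xs3, xs4, xs5, xs6, xs7, xs8, xs9, xs10, xs11, xs12, xs13⟩ :=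
    hIXS n A0 hn hA ΩX PX f g h d e NX
  obtain ⟨xt1, xt2, xt3, xt4, xt5, xt6⟩ := IXT n A0 hn hA ΩX PX f g h d e NX
  obtain ⟨ie1, ie2, ie3, ie4, ie5, ie6, ie7⟩ := IE n A0 hn hA ΩE PE hE gE eE zE NE
  -- node R
  have r1 : H PR (fun ω => (aR ω, bR ω, yR ω)) = H PQ (fun ω => (a ω, b ω, y ω)) :=
    HH hSLF slR id
  have r2 : H PR (fun ω => (aR ω, yR ω)) = H PQ (fun ω => (a ω, y ω)) :=
    HH hSLF slR fun t => (t.1, t.2.2)
  have r3 : H PR (fun ω => bR ω - yR ω) = H PQ b := by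
    have h1 : H PR (fun ω => bR ω - yR ω) = H PQ (fun ω => b ω - y ω) :=
      HH hSLF slR fun t => t.2.1 - t.2.2
    have h2 : H PQ (fun ω => c ω) = H PQ (fun ω => b ω - y ω) := HH hSLF NQ.s2 fun t => t.2.1
    have h3 : H PQ (fun ω => b ω) = H PQ (fun ω => c ω) := HH hSLF NQ.s1 fun t => t.1
    rw [h1, ← h2, ← h3]
  -- the difference `a - b`
  have qa : H PQ (fun ω => a ω - b ω) = H PQ (fun ω => b ω - c ω) := by
    have h1 : H PQ (fun ω => a ω - b ω) = H PQ (fun ω => c ω - b ω) :=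
      HH hSLF NQ.s3 fun t => t.2 - t.1
    rw [h1]
    exact H_neg hDET _ _ _ fun ω => by ring
  have ql : lvl (cs n A0) PQ (fun ω => a ω - b ω) = lvl (cs n A0) PQ (fun ω => b ω - c ω) := by
    have h1 : lvl (cs n A0) PQ (fun ω => a ω - b ω) = lvl (cs n A0) PQ (fun ω => c ω - b ω) :=
      EX hSLF NQ.s3 fun t => Real.log (rr (cs n A0) (t.2 - t.1))
    rw [h1]
    exact lvl_neg _ _ _ _ fun ω => by ring
  have r4 : H PR (fun ω => aR ω - bR ω) = H PQ (fun ω => b ω - c ω) := by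
    rw [← qa]
    exact HH hSLF slR fun t => t.1 - t.2.1
  have r5 : lvl (cs n A0) PR (fun ω => aR ω - bR ω) =
      lvl (cs n A0) PQ (fun ω => b ω - c ω) := by
    rw [← ql]
    exact EX hSLF slR fun t => Real.log (rr (cs n A0) (t.1 - t.2.1))
  have r6 : H PR (fun ω => bR2 ω - aR ω) = H PQ (fun ω => b ω - c ω) := by
    rw [← r4]
    have h1 : H PR (fun ω => aR ω - bR ω) = H PR (fun ω => aR ω - bR2 ω) :=
      HH hSLF NR.s1 fun t => t.1 - t.2.1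
    rw [h1]
    exact H_neg hDET _ _ _ fun ω => by ring
  have r7 : lvl (cs n A0) PR (fun ω => bR2 ω - aR ω) =
      lvl (cs n A0) PQ (fun ω => b ω - c ω) := by
    rw [← r5]
    have h1 : lvl (cs n A0) PR (fun ω => aR ω - bR ω) =
        lvl (cs n A0) PR (fun ω => aR ω - bR2 ω) :=
      EX hSLF NR.s1 fun t => Real.log (rr (cs n A0) (t.1 - t.2.1))
    rw [h1]
    exact lvl_neg _ _ _ _ fun ω => by ring
  -- node W
  have w1 : H PW (fun ω => bW ω - bW2 ω) = H PR (fun ω => bR ω - bR2 ω) :=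
    HH hSLF slW fun t => t.2.1 - t.2.2
  have w2 : H PW (fun ω => (aW ω - bW ω, aW ω - bW2 ω)) =
      H PR (fun ω => (aR ω - bR ω, aR ω - bR2 ω)) :=
    HH hSLF slW fun t => (t.1 - t.2.1, t.1 - t.2.2)
  have w3 : lvl (cs n A0) PW (fun ω => aW ω - bW ω) =
      lvl (cs n A0) PQ (fun ω => b ω - c ω) := by
    rw [← r5]
    exact EX hSLF slW fun t => Real.log (rr (cs n A0) (t.1 - t.2.1))
  have w4 : lvl (cs n A0) PW (fun ω => bW2 ω - aW ω) =
      lvl (cs n A0) PQ (fun ω => b ω - c ω) := by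
    rw [← r7]
    exact EX hSLF slW fun t => Real.log (rr (cs n A0) (t.2.2 - t.1))
  have w5 : H PW (fun ω => bW2 ω - aW ω) = H PQ (fun ω => b ω - c ω) := by
    rw [← r6]
    exact HH hSLF slW fun t => t.2.2 - t.1
  have w6 : H PW (fun ω => bW ω - aW ω) = H PQ (fun ω => b ω - c ω) := by
    rw [← r4]
    have h1 : H PW (fun ω => aW ω - bW ω) = H PR (fun ω => aR ω - bR ω) :=
      HH hSLF slW fun t => t.1 - t.2.1
    rw [← h1]
    exact H_neg hDET _ _ _ fun ω => by ring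
  -- node X
  have x1 : H PX f = H PW (fun ω => gW ω + bW2 ω - aW ω) := HH hSLF slX fun t => t.1
  have x2 : H PX (fun ω => (f ω, g ω, h ω)) =
      H PW (fun ω => (gW ω + bW2 ω - aW ω, gW ω, gW ω - aW ω + bW ω)) := HH hSLF slX id
  have x3 : H PX (fun ω => (f ω, h ω)) =
      H PW (fun ω => (bW ω - bW2 ω, gW ω + bW2 ω - aW ω)) := by
    have h1 : H PX (fun ω => (f ω, h ω)) =
        H PW (fun ω => (gW ω + bW2 ω - aW ω, gW ω - aW ω + bW ω)) :=
      HH hSLF slX fun t => (t.1, t.2.2)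
    rw [h1]
    apply DD hDET
    intro ω ω'
    simp only [Prod.mk.injEq]
    constructor
    · rintro ⟨h1, h2⟩
      exact ⟨by linarith, h1⟩
    · rintro ⟨h1, h2⟩
      exact ⟨h2, by linarith⟩
  have x4 : H PX (fun ω => h ω - f ω) = H PW (fun ω => bW ω - bW2 ω) := by
    have h1 : H PX (fun ω => h ω - f ω) =
        H PW (fun ω => (gW ω - aW ω + bW ω) - (gW ω + bW2 ω - aW ω)) :=
      HH hSLF slX fun t => t.2.2 - t.1
    rw [h1]
    congr 1
    funext ω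
    ring
  have x5 : H PX (fun ω => f ω - g ω) = H PQ (fun ω => b ω - c ω) := by
    rw [← w5]
    have h1 : H PX (fun ω => f ω - g ω) =
        H PW (fun ω => (gW ω + bW2 ω - aW ω) - gW ω) :=
      HH hSLF slX fun t => t.1 - t.2.1
    rw [h1]
    congr 1
    funext ω
    ring
  have x6 : H PX (fun ω => h ω - g ω) = H PQ (fun ω => b ω - c ω) := by
    rw [← w6]
    have h1 : H PX (fun ω => h ω - g ω) =
        H PW (fun ω => (gW ω - aW ω + bW ω) - gW ω) :=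
      HH hSLF slX fun t => t.2.2 - t.2.1
    rw [h1]
    congr 1
    funext ω
    ring
  have x7 : lvl (cs n A0) PX (fun ω => f ω - g ω) =
      lvl (cs n A0) PQ (fun ω => b ω - c ω) := by
    rw [← w4]
    have h1 : lvl (cs n A0) PX (fun ω => f ω - g ω) =
        lvl (cs n A0) PW (fun ω => (gW ω + bW2 ω - aW ω) - gW ω) :=
      EX hSLF slX fun t => Real.log (rr (cs n A0) (t.1 - t.2.1))
    rw [h1]
    congr 1
    funext ω
    ring
  have x8 : lvl (cs n A0) PX (fun ω => h ω - g ω) =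
      lvl (cs n A0) PQ (fun ω => b ω - c ω) := by
    rw [← w3]
    have h1 : lvl (cs n A0) PX (fun ω => h ω - g ω) =
        lvl (cs n A0) PW (fun ω => (gW ω - aW ω + bW ω) - gW ω) :=
      EX hSLF slX fun t => Real.log (rr (cs n A0) (t.2.2 - t.2.1))
    rw [h1]
    exact lvl_neg _ _ _ _ fun ω => by ring
  -- node E
  have e1 : H PE gE = H PX g := HH hSLF slE fun t => t.2.1
  have e2 : H PE (fun ω => (gE ω, eE ω)) = H PX (fun ω => (g ω, e ω)) :=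
    HH hSLF slE fun t => t.2
  have e3 : H PE (fun ω => gE ω - eE ω) = H PX (fun ω => g ω - e ω) :=
    HH hSLF slE fun t => t.2.1 - t.2.2
  have e4 : H PE (fun ω => (hE ω, gE ω, eE ω)) = H PX (fun ω => (h ω, g ω, e ω)) :=
    HH hSLF slE id
  have e5 : H PE (fun ω => (hE ω - gE ω, hE ω - eE ω)) =
      H PX (fun ω => (h ω - g ω, h ω - e ω)) :=
    HH hSLF slE fun t => (t.1 - t.2.1, t.1 - t.2.2)
  have q1 := NQ.h1
  have q2 := NQ.h2
  have q3 := NQ.h3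
  have n1 := NX.h1
  have n2 := NX.h2
  have n3 := NE.h1
  rw [r1, r2, r3] at ir1
  rw [w1] at iw1
  rw [w2, w3] at iw2
  rw [x8, x6] at xt5
  rw [x7, x5] at xt6
  rw [x7, x2] at n1
  rw [x1] at xs3 xs4 xt2
  rw [x3] at xs3 xs4
  rw [x4, w1] at xt1
  rw [e1, e2] at ie1
  rw [e2, e3] at ie2
  rw [e4, e5] at n3
  rw [← q1]
  linarith

end NCE
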