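import Pool.Agent.NCE.Nodes

/-!
# NE: existence of node E (problem MP_f03f67_co)

Two copies of node X are glued over `(h - g, h - e)`.
-/

set_option autoImplicit false

open Finset
open scoped Classical

namespace NCE

namespace MNE

/-- random variables that are functions of each other have the same entropy -/
theorem H_eq {Ω : Type} [Fintype Ω] (hDET : S_DET) (P : FP Ω) {α β : Type} (V : Ω → α) (W : Ω → β)
    (h : Det V W) (h' : Det W V) : H P V = H P W :=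
  le_antisymm (hDET Ω P β α W V h') (hDET Ω P α β V W h)

end MNE

open MNE in
theorem t_NE (hDET : S_DET) (hSLF : S_SLF) (hSGL : S_SGL) : S_NE := by
  intro A Ω _ P f g h d e N
  obtain ⟨Ω', inst, P', π₁, π₂, hY, h1, -, hex, hH⟩ :=
    hSGL Ω P (ℝ × ℝ) (fun ω => (h ω - g ω, h ω - e ω))
  have hg : ∀ q, h (π₁ q) - g (π₁ q) = h (π₂ q) - g (π₂ q) := fun q => (Prod.ext_iff.1 (hY q)).1
  have he : ∀ q, h (π₁ q) - e (π₁ q) = h (π₂ q) - e (π₂ q) := fun q => (Prod.ext_iff.1 (hY q)).2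
  have e1 : ∀ q, h (π₁ q) + (g (π₂ q) - g (π₁ q)) = h (π₂ q) := fun q => by linarith [hg q]
  have e2 : ∀ q, g (π₁ q) + (g (π₂ q) - g (π₁ q)) = g (π₂ q) := fun q => by ring
  have e3 : ∀ q, e (π₁ q) + (g (π₂ q) - g (π₁ q)) = e (π₂ q) := fun q => by
    linarith [hg q, he q]
  refine ⟨Ω', inst, P', fun q => h (π₁ q), fun q => g (π₁ q), fun q => e (π₁ q),
    fun q => g (π₂ q) - g (π₁ q), ?_, ?_⟩
  · refine ⟨fun q => N.m2 _, fun q => N.m1 _, fun q => N.m3 _, fun q => ?_, fun q => ?_,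
      fun q => ?_, ?_, ?_⟩
    · simp only [e1]
      exact N.m2 _
    · simp only [e2]
      exact N.m1 _
    · simp only [e3]
      exact N.m3 _
    · have hs := (hSLF Ω' Ω' P' P' (Ω × Ω) (ℝ × ℝ × ℝ × ℝ) (fun q => (π₁ q, π₂ q))
        (fun q => (π₂ q, π₁ q)) (fun w => (h w.1, g w.1, e w.1, g w.2 - g w.1)) (fun _ => 0) hex).1
      have h4 : (fun q => (h (π₁ q) + (g (π₂ q) - g (π₁ q)), g (π₁ q) + (g (π₂ q) - g (π₁ q)),
          e (π₁ q) + (g (π₂ q) - g (π₁ q)), -(g (π₂ q) - g (π₁ q)))) =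
          fun q => (h (π₂ q), g (π₂ q), e (π₂ q), g (π₁ q) - g (π₂ q)) := by
        funext q
        rw [e1, e2, e3, neg_sub]
      rw [h4]
      exact hs
    · have hD : Det (fun ω => (h ω, g ω, e ω)) (fun ω => (h ω - g ω, h ω - e ω)) := by
        intro ω ω' hw
        simp only [Prod.mk.injEq] at hw ⊢
        rw [hw.1, hw.2.1, hw.2.2]
        exact ⟨rfl, rfl⟩
      have h5 := hH _ _ (fun ω => (h ω, g ω, e ω)) (fun ω => (h ω, g ω, e ω)) hD hD
      have h6 : H P' (fun q => (h (π₁ q), g (π₁ q), e (π₁ q), g (π₂ q) - g (π₁ q))) =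
          H P' (fun q => ((h (π₁ q), g (π₁ q), e (π₁ q)), (h (π₂ q), g (π₂ q), e (π₂ q)))) := by
        refine H_eq hDET P' _ _ ?_ ?_
        · intro q q' hq
          simp only [Prod.mk.injEq] at hq ⊢
          obtain ⟨a1, a2, a3, a4⟩ := hq
          refine ⟨⟨a1, a2, a3⟩, ?_, ?_, ?_⟩
          · rw [← e1 q, ← e1 q', a1, a4]
          · rw [← e2 q, ← e2 q', a4, a2]
          · rw [← e3 q, ← e3 q', a3, a4]
        · intro q q' hq
          simp only [Prod.mk.injEq] at hq ⊢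
          obtain ⟨⟨a1, a2, a3⟩, b1, b2, b3⟩ := hq
          exact ⟨a1, a2, a3, by rw [a2, b2]⟩
      have h7 := (hSLF Ω' Ω P' P Ω (ℝ × ℝ × ℝ) π₁ id (fun ω => (h ω, g ω, e ω)) (fun _ => 0) h1).2.1
      have h8 := (hSLF Ω' Ω P' P Ω (ℝ × ℝ) π₁ id (fun ω => (h ω - g ω, h ω - e ω))
        (fun _ => 0) h1).2.1
      simp only [id_eq] at h7 h8
      rw [h6, h5, h7, h8]
      ring
  · exact (hSLF Ω' Ω P' P Ω (ℝ × ℝ × ℝ) π₁ id (fun ω => (h ω, g ω, e ω)) (fun _ => 0) h1).1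

end NCE
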