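import Pool.Agent.NCE.Nodes

/-!
# NQ: existence of node Q (problem MP_f03f67_co)
-/

set_option autoImplicit false

open Finset
open scoped Classical

namespace NCE

namespace MNQ

theorem SLtr {Ω Ω' Ω'' : Type} [Fintype Ω] [Fintype Ω'] [Fintype Ω''] {α : Type} {P : FP Ω}
    {P' : FP Ω'} {P'' : FP Ω''} {X : Ω → α} {X' : Ω' → α} {X'' : Ω'' → α} (h : SL P X P' X')
    (h' : SL P' X' P'' X'') : SL P X P'' X'' := fun x => (h x).trans (h' x)

theorem SLsy {Ω Ω' : Type} [Fintype Ω] [Fintype Ω'] {α : Type} {P : FP Ω}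
    {P' : FP Ω'} {X : Ω → α} {X' : Ω' → α} (h : SL P X P' X') : SL P' X' P X :=
  fun x => (h x).symm

theorem H_eq (hDET : S_DET) {Ω : Type} [Fintype Ω] (P : FP Ω) {α β : Type} (V : Ω → α)
    (W : Ω → β) (h1 : Det V W) (h2 : Det W V) : H P V = H P W :=
  le_antisymm (hDET Ω P β α W V h2) (hDET Ω P α β V W h1)

end MNQ

open MNQ in
theorem t_NQ (hDET : S_DET) (hSLF : S_SLF) (hGLU : S_GLU) (hQUA : S_QUA) : S_NQ := by
  intro A hA
  obtain ⟨Ω₀, _, P₀, b, c, y, hm, hs1, hs2, hh1, hh2, hh3⟩ := hQUA A hA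
  obtain ⟨Ω, hΩ, P, π₁, π₂, hY, hL1, hL2, hE, -⟩ := hGLU Ω₀ Ω₀ P₀ P₀ ℝ b b (fun x => rfl)
  have t1 : ∀ {β : Type} (F : Ω₀ → β), SL P (fun ω => F (π₁ ω)) P₀ F := fun {β} F =>
    (hSLF Ω Ω₀ P P₀ Ω₀ β π₁ id F (fun _ => 0) hL1).1
  have t2 : ∀ {β : Type} (F : Ω₀ → β), SL P (fun ω => F (π₂ ω)) P₀ F := fun {β} F =>
    (hSLF Ω Ω₀ P P₀ Ω₀ β π₂ id F (fun _ => 0) hL2).1
  have tH : ∀ {β : Type} (F : Ω₀ → β), H P (fun ω => F (π₁ ω)) = H P₀ F := fun {β} F =>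
    (hSLF Ω Ω₀ P P₀ Ω₀ β π₁ id F (fun _ => 0) hL1).2.1
  have tE : ∀ (f : Ω₀ → ℝ), ex P (fun ω => f (π₁ ω)) = ex P₀ f := fun f =>
    (hSLF Ω Ω₀ P P₀ Ω₀ ℝ π₁ id (fun _ => 0) f hL1).2.2
  have hlvl : lvl A P (fun ω => b (π₁ ω) - c (π₁ ω)) =
      ex P₀ (fun ω => Real.log (rr A (b ω - c ω))) := tE fun ω => Real.log (rr A (b ω - c ω))
  refine ⟨Ω, hΩ, P, fun ω => b (π₁ ω), fun ω => c (π₁ ω), fun ω => y (π₁ ω),
    fun ω => c (π₂ ω), ?_⟩
  exact
    { m1 := fun ω => (hm _).1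
      m2 := fun ω => (hm _).2.1
      m3 := fun ω => (hm _).2.2.1
      m4 := fun ω => (hm _).2.2.2
      m5 := fun ω => (hm _).2.1
      s1 := SLtr (SLtr (t1 fun x => (b x, c x, y x)) hs1) (SLsy (t1 fun x => (c x, b x, y x)))
      s2 := SLtr (SLtr (t1 fun x => (b x, c x, y x)) hs2)
        (SLsy (t1 fun x => (b x, b x - y x, b x - c x)))
      s3 := by
        have h1 : (fun ω => (b (π₁ ω), c (π₂ ω))) = fun ω => (b (π₂ ω), c (π₂ ω)) := by
          funext ω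
          rw [hY ω]
        rw [h1]
        exact SLtr (t2 fun x => (b x, c x)) (SLsy (t1 fun x => (b x, c x)))
      h1 := (tH fun x => (b x, c x, y x)).trans hh1
      h2 := by
        rw [hlvl, tH fun x => (b x, c x, y x), tH fun x => (b x, c x)]
        exact hh2
      h3 := by
        rw [hlvl, tH fun x => (b x, c x), tH fun x => b x - c x]
        exact hh3
      h4 := by
        have h1 := hE (ℝ × ℝ × ℝ) (ℝ × ℝ) (fun x => (b x, c x, y x)) (fun x => (b x, c x))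
          (fun ω ω' h => (Prod.ext_iff.1 h).1) (fun ω ω' h => (Prod.ext_iff.1 h).1)
        rw [tH fun x => (b x, c x, y x), tH fun x => (b x, c x), tH b, ← h1]
        refine H_eq hDET P _ _ ?_ ?_
        · intro ω ω' h
          simp only [Prod.mk.injEq] at h ⊢
          obtain ⟨e1, e2, e3, e4⟩ := h
          refine ⟨⟨e1, e2, e3⟩, ?_, e4⟩
          rw [← hY ω, ← hY ω', e1]
        · intro ω ω' h
          simp only [Prod.mk.injEq] at h ⊢
          obtain ⟨⟨e1, e2, e3⟩, -, e4⟩ := h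
          exact ⟨e1, e2, e3, e4⟩ }

end NCE
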