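import Pool.Agent.NCE.Nodes

/-!
# NR: existence of node R (problem MP_f03f67_co)

helper81, architect helper53.  Self-gluing over `(a, y)`.
-/

set_option autoImplicit false

open Finset
open scoped Classical

namespace NCE

/-- NR. -/
theorem t_NR (hDET : S_DET) (hSLF : S_SLF) (hSGL : S_SGL) : S_NR := by
  intro A Ω _ P b c y a h
  obtain ⟨Ω', hΩ', P', π₁, π₂, hY, hS1, -, hsw, hH⟩ := hSGL Ω P (ℝ × ℝ) (fun ω => (a ω, y ω))
  have hYa : ∀ q, a (π₂ q) = a (π₁ q) := fun q => (Prod.mk.inj (hY q)).1.symm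
  have hYy : ∀ q, y (π₂ q) = y (π₁ q) := fun q => (Prod.mk.inj (hY q)).2.symm
  refine ⟨Ω', hΩ', P', fun q => a (π₁ q), fun q => b (π₁ q), fun q => y (π₁ q),
    fun q => b (π₂ q), ?_, ?_⟩
  · refine
      { m1 := fun q => h.m5 _
        m2 := fun q => h.m1 _
        m3 := fun q => h.m1 _
        m4 := fun q => h.m3 _
        m5 := fun q => ?_
        s1 := ?_
        h1 := ?_ }
    · have := h.m3 (π₂ q)
      rw [hYy q] at this
      exact this
    · have h1 := (hSLF Ω' Ω' P' P' (Ω × Ω) (ℝ × ℝ × ℝ × ℝ) (fun q => (π₁ q, π₂ q))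
        (fun q => (π₂ q, π₁ q)) (fun u => (a u.1, b u.1, y u.1, b u.2)) (fun _ => 0) hsw).1
      have h2 : (fun q => (a (π₂ q), b (π₂ q), y (π₂ q), b (π₁ q)))
          = fun q => (a (π₁ q), b (π₂ q), y (π₁ q), b (π₁ q)) := by
        funext q
        rw [hYa q, hYy q]
      simp only [h2] at h1
      exact h1
    · have h1 := hH (ℝ × ℝ × ℝ) (ℝ × ℝ × ℝ) (fun ω => (a ω, b ω, y ω))
        (fun ω => (a ω, b ω, y ω)) ?_ ?_
      · have h2 : H P' (fun q => (a (π₁ q), b (π₁ q), y (π₁ q), b (π₂ q)))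
            = H P' (fun q => ((a (π₁ q), b (π₁ q), y (π₁ q)),
                (a (π₂ q), b (π₂ q), y (π₂ q)))) := by
          refine le_antisymm (hDET _ _ _ _ _ _ ?_) (hDET _ _ _ _ _ _ ?_)
          · intro q q' hq
            simp only [Prod.mk.injEq] at hq ⊢
            obtain ⟨⟨h1, h2, h3⟩, -, h5, -⟩ := hq
            exact ⟨h1, h2, h3, h5⟩
          · intro q q' hq
            simp only [Prod.mk.injEq] at hq ⊢
            obtain ⟨h1, h2, h3, h4⟩ := hq
            refine ⟨⟨h1, h2, h3⟩, ?_, h4, ?_⟩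
            · rw [hYa q, hYa q', h1]
            · rw [hYy q, hYy q', h3]
        have h3 : H P' (fun q => (a (π₁ q), b (π₁ q), y (π₁ q)))
            = H P (fun ω => (a ω, b ω, y ω)) :=
          (hSLF Ω' Ω P' P Ω (ℝ × ℝ × ℝ) π₁ id (fun u => (a u, b u, y u)) (fun _ => 0) hS1).2.1
        have h4 : H P' (fun q => (a (π₁ q), y (π₁ q))) = H P (fun ω => (a ω, y ω)) :=
          (hSLF Ω' Ω P' P Ω (ℝ × ℝ) π₁ id (fun u => (a u, y u)) (fun _ => 0) hS1).2.1
        rw [h2, h1, h3, h4]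
        ring
      · intro ω ω' hω
        simp only [Prod.mk.injEq] at hω ⊢
        exact ⟨hω.1, hω.2.2⟩
      · intro ω ω' hω
        simp only [Prod.mk.injEq] at hω ⊢
        exact ⟨hω.1, hω.2.2⟩
  · exact (hSLF Ω' Ω P' P Ω (ℝ × ℝ × ℝ) π₁ id (fun u => (a u, b u, y u)) (fun _ => 0) hS1).1

end NCE
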