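import Pool.Agent.NCE.Nodes

set_option autoImplicit false

open Finset
open scoped Classical

namespace NCE

namespace MNW

/-- A difference of two elements of `A` has a positive number of representations. -/
lemma rr_pos (A : Finset ℝ) (x y : ℝ) (hx : x ∈ A) (hy : y ∈ A) : 0 < rr A (x - y) := by
  unfold rr
  apply Finset.card_pos.mpr
  exact ⟨(x, y), by simp [hx, hy]⟩

end MNW

theorem t_NW (hDET : S_DET) (hSLF : S_SLF) (hFRE : S_FRE) : S_NW := by
  intro A Ω _ P a b y b2 hR
  obtain ⟨Ω', iF, P', π, g, hg, hSL, hH⟩ := hFRE Ω P A (fun ω => a ω - b ω)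
    (fun ω => MNW.rr_pos A _ _ (hR.m1 ω) (hR.m2 ω))
  refine ⟨Ω', iF, P', fun q => a (π q), fun q => b (π q), fun q => b2 (π q), g, ?_, ?_⟩
  · refine ⟨fun q => hR.m1 _, fun q => hR.m2 _, fun q => hR.m3 _, fun q => (hg q).1, ?_, ?_⟩
    · intro q
      have h := (hg q).2
      have e : g q - a (π q) + b (π q) = g q - (a (π q) - b (π q)) := by ring
      rw [e]
      exact h
    · have h1 := hH (ℝ × ℝ × ℝ) (fun ω => (a ω, b ω, b2 ω)) (by
        intro ω ω' h
        simp only [Prod.mk.injEq] at h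
        show a ω - b ω = a ω' - b ω'
        rw [h.1, h.2.1])
      have h2 := hSLF Ω' Ω P' P Ω (ℝ × ℝ × ℝ) π id (fun ω => (a ω, b ω, b2 ω))
        (fun ω => Real.log (rr A (a ω - b ω))) hSL
      obtain ⟨-, h3, h4⟩ := h2
      have h5 : H P' (fun q => (a (π q), b (π q), b2 (π q), g q)) =
          H P' (fun q => ((a (π q), b (π q), b2 (π q)), g q)) := by
        apply le_antisymm
        · apply hDET
          intro ω ω' h
          simp only [Prod.mk.injEq] at h ⊢
          exact ⟨h.1.1, h.1.2.1, h.1.2.2, h.2⟩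
        · apply hDET
          intro ω ω' h
          simp only [Prod.mk.injEq] at h ⊢
          exact ⟨⟨h.1, h.2.1, h.2.2.1⟩, h.2.2.2⟩
      show H P' (fun q => (a (π q), b (π q), b2 (π q), g q)) =
        H P' (fun q => (a (π q), b (π q), b2 (π q))) +
          lvl A P' (fun q => a (π q) - b (π q))
      rw [h5]
      simp only [id] at h3 h4
      unfold lvl
      rw [h3, h4]
      exact h1
  · exact (hSLF Ω' Ω P' P Ω (ℝ × ℝ × ℝ) π id (fun ω => (a ω, b ω, b2 ω)) (fun _ => 0) hSL).1

end NCE
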