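import Pool.Agent.NCE.Nodes

/-!
# NX: existence of node X (problem MP_f03f67_co)

A fresh representation of `f - g`, then two copies are glued over `(f, h, d)`.
-/

set_option autoImplicit false

open Finset
open scoped Classical

namespace NCE

namespace MNX

/-- random variables that are functions of each other have the same entropy -/
theorem H_eq {Ω : Type} [Fintype Ω] (hDET : S_DET) (P : FP Ω) {α β : Type} (V : Ω → α) (W : Ω → β)
    (h : Det V W) (h' : Det W V) : H P V = H P W :=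
  le_antisymm (hDET Ω P β α W V h') (hDET Ω P α β V W h)

/-- A difference of two elements of `A` has a positive number of representations. -/
lemma rr_pos (A : Finset ℝ) (x y : ℝ) (hx : x ∈ A) (hy : y ∈ A) : 0 < rr A (x - y) := by
  unfold rr
  apply Finset.card_pos.mpr
  exact ⟨(x, y), by simp [hx, hy]⟩

end MNX

open MNX in
theorem t_NX (hDET : S_DET) (hSLF : S_SLF) (hFRE : S_FRE) (hSGL : S_SGL) : S_NX := by
  intro A Ω _ P a b b2 g N
  obtain ⟨Ω1, iF, P1, π, d, hd, hSL, hH1⟩ := hFRE Ω P A (fun ω => b2 ω - a ω)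
    (fun ω => rr_pos A _ _ (N.m3 ω) (N.m1 ω))
  obtain ⟨f, hf⟩ : ∃ f : Ω → ℝ, f = fun ω => g ω + b2 ω - a ω := ⟨_, rfl⟩
  obtain ⟨h, hh⟩ : ∃ h : Ω → ℝ, h = fun ω => g ω - a ω + b ω := ⟨_, rfl⟩
  have hfg : ∀ ω, f ω - g ω = b2 ω - a ω := fun ω => by rw [hf]; ring
  obtain ⟨Ω2, iF2, P2, π₁, π₂, hY, h1, -, hex, hH2⟩ :=
    hSGL Ω1 P1 (ℝ × ℝ × ℝ) (fun ω => (f (π ω), h (π ω), d ω))
  have y1 : ∀ q, f (π (π₁ q)) = f (π (π₂ q)) := fun q => (Prod.ext_iff.1 (hY q)).1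
  have y2 : ∀ q, h (π (π₁ q)) = h (π (π₂ q)) := fun q =>
    (Prod.ext_iff.1 (Prod.ext_iff.1 (hY q)).2).1
  have y3 : ∀ q, d (π₁ q) = d (π₂ q) := fun q => (Prod.ext_iff.1 (Prod.ext_iff.1 (hY q)).2).2
  have hdf : ∀ ω, d ω - f (π ω) + g (π ω) ∈ A := fun ω => by
    have e : d ω - f (π ω) + g (π ω) = d ω - (b2 (π ω) - a (π ω)) := by
      rw [← hfg (π ω)]; ring
    rw [e]
    exact (hd ω).2
  refine ⟨Ω2, iF2, P2, fun q => f (π (π₁ q)), fun q => g (π (π₁ q)), fun q => h (π (π₁ q)),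
    fun q => d (π₁ q), fun q => g (π (π₂ q)), ?_, ?_⟩
  · refine ⟨fun q => N.m4 _, fun q => ?_, fun q => N.m4 _, fun q => (hd _).1, fun q => hdf _,
      fun q => ?_, ?_, ?_, ?_⟩
    · rw [hh]
      exact N.m5 _
    · have e : d (π₁ q) - f (π (π₁ q)) + g (π (π₂ q)) = d (π₂ q) - f (π (π₂ q)) + g (π (π₂ q)) := by
        rw [y1, y3]
      rw [e]
      exact hdf _
    · have hs := (hSLF Ω2 Ω2 P2 P2 (Ω1 × Ω1) (ℝ × ℝ × ℝ × ℝ × ℝ) (fun q => (π₁ q, π₂ q))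
        (fun q => (π₂ q, π₁ q)) (fun w => (f (π w.1), g (π w.1), h (π w.1), d w.1, g (π w.2)))
        (fun _ => 0) hex).1
      have h4 : (fun q => (f (π (π₁ q)), g (π (π₂ q)), h (π (π₁ q)), d (π₁ q), g (π (π₁ q)))) =
          fun q => (f (π (π₂ q)), g (π (π₂ q)), h (π (π₂ q)), d (π₂ q), g (π (π₁ q))) := by
        funext q
        rw [y1, y2, y3]
      rw [h4]
      exact hs
    · -- the fresh representation
      have g1 := hH1 (ℝ × ℝ × ℝ) (fun ω => (f ω, g ω, h ω)) (by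
        intro ω ω' hw
        simp only [Prod.mk.injEq] at hw
        show b2 ω - a ω = b2 ω' - a ω'
        rw [← hfg, ← hfg, hw.1, hw.2.1])
      obtain ⟨-, g2, g3⟩ := hSLF Ω2 Ω1 P2 P1 Ω1 (ℝ × ℝ × ℝ) π₁ id
        (fun ω => (f (π ω), g (π ω), h (π ω)))
        (fun ω => Real.log (rr A (f (π ω) - g (π ω)))) h1
      obtain ⟨-, g4, g5⟩ := hSLF Ω1 Ω P1 P Ω (ℝ × ℝ × ℝ) π id (fun ω => (f ω, g ω, h ω))
        (fun ω => Real.log (rr A (f ω - g ω))) hSL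
      obtain ⟨-, g6, -⟩ := hSLF Ω2 Ω1 P2 P1 Ω1 (ℝ × ℝ × ℝ × ℝ) π₁ id
        (fun ω => (f (π ω), g (π ω), h (π ω), d ω)) (fun _ => 0) h1
      simp only [id] at g2 g3 g4 g5 g6
      have g7 : H P1 (fun q => (f (π q), g (π q), h (π q), d q)) =
          H P1 (fun q => ((f (π q), g (π q), h (π q)), d q)) := by
        refine H_eq hDET P1 _ _ ?_ ?_
        · intro q q' hq
          simp only [Prod.mk.injEq] at hq ⊢
          exact ⟨⟨hq.1, hq.2.1, hq.2.2.1⟩, hq.2.2.2⟩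
        · intro q q' hq
          simp only [Prod.mk.injEq] at hq ⊢
          exact ⟨hq.1.1, hq.1.2.1, hq.1.2.2, hq.2⟩
      have g8 : (fun ω => Real.log (rr A (b2 ω - a ω) : ℝ)) =
          fun ω => Real.log (rr A (f ω - g ω) : ℝ) := by
        funext ω
        rw [hfg]
      unfold lvl
      rw [g6, g7, g1, g2, g3, g4, g5, g8]
    · -- the gluing
      have hD : Det (fun ω => (f (π ω), g (π ω), h (π ω), d ω))
          (fun ω => (f (π ω), h (π ω), d ω)) := by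
        intro ω ω' hw
        simp only [Prod.mk.injEq] at hw ⊢
        exact ⟨hw.1, hw.2.2.1, hw.2.2.2⟩
      have h5 := hH2 _ _ (fun ω => (f (π ω), g (π ω), h (π ω), d ω))
        (fun ω => (f (π ω), g (π ω), h (π ω), d ω)) hD hD
      have h6 : H P2 (fun q => (f (π (π₁ q)), g (π (π₁ q)), h (π (π₁ q)), d (π₁ q),
            g (π (π₂ q)))) =
          H P2 (fun q => ((f (π (π₁ q)), g (π (π₁ q)), h (π (π₁ q)), d (π₁ q)),
            (f (π (π₂ q)), g (π (π₂ q)), h (π (π₂ q)), d (π₂ q)))) := by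
        refine H_eq hDET P2 _ _ ?_ ?_
        · intro q q' hq
          simp only [Prod.mk.injEq] at hq ⊢
          obtain ⟨a1, a2, a3, a4, a5⟩ := hq
          refine ⟨⟨a1, a2, a3, a4⟩, ?_, a5, ?_, ?_⟩
          · rw [← y1 q, ← y1 q', a1]
          · rw [← y2 q, ← y2 q', a3]
          · rw [← y3 q, ← y3 q', a4]
        · intro q q' hq
          simp only [Prod.mk.injEq] at hq ⊢
          obtain ⟨⟨a1, a2, a3, a4⟩, b1, b2', b3, b4⟩ := hq
          exact ⟨a1, a2, a3, a4, b2'⟩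
      have h7 := (hSLF Ω2 Ω1 P2 P1 Ω1 (ℝ × ℝ × ℝ × ℝ) π₁ id
        (fun ω => (f (π ω), g (π ω), h (π ω), d ω)) (fun _ => 0) h1).2.1
      have h8 := (hSLF Ω2 Ω1 P2 P1 Ω1 (ℝ × ℝ × ℝ) π₁ id
        (fun ω => (f (π ω), h (π ω), d ω)) (fun _ => 0) h1).2.1
      simp only [id] at h7 h8
      rw [h6, h5, h7, h8]
      ring
  · have s1 := (hSLF Ω2 Ω1 P2 P1 Ω1 (ℝ × ℝ × ℝ) π₁ id
      (fun ω => (f (π ω), g (π ω), h (π ω))) (fun _ => 0) h1).1
    have s2 := (hSLF Ω1 Ω P1 P Ω (ℝ × ℝ × ℝ) π id (fun ω => (f ω, g ω, h ω)) (fun _ => 0) hSL).1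
    intro x
    have e1 := s1 x
    have e2 := s2 x
    simp only [id] at e1 e2
    rw [e1, e2, hf, hh]

end NCE
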