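import Pool.Agent.NCE.Stmts

/-!
# Asymmetric Schur inequality (module SCH)
-/

set_option autoImplicit false

open Finset
open scoped Classical

namespace NCE

namespace MSCH

theorem cs_card_pos {n : ℕ} (a : ℕ → ℝ) (hn : 1 ≤ n) : 0 < (cs n a).card := by
  refine Finset.card_pos.2 ⟨a 0, ?_⟩
  exact Finset.mem_image_of_mem a (Finset.mem_range.2 (by omega))

theorem cs_card_le (n : ℕ) (a : ℕ → ℝ) : (cs n a).card ≤ n := by
  unfold cs
  exact Finset.card_image_le.trans (by simp)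

theorem sm_neg {Ω : Type} {n k : ℕ} {b : Ω → ℝ} (h : Sm n k b) : Sm n k fun ω => - b ω := by
  obtain ⟨B, hB, hb⟩ := h
  refine ⟨B.image Neg.neg, Finset.card_image_le.trans hB, fun ω => ?_⟩
  exact Finset.mem_image_of_mem _ (hb ω)

theorem ex_const_le {Ω : Type} [Fintype Ω] (P : FP Ω) (f : Ω → ℝ) (c : ℝ) (h : ∀ ω, f ω ≤ c) :
    ex P f ≤ c := by
  unfold ex
  calc ∑ ω, P.p ω * f ω ≤ ∑ ω, P.p ω * c :=
        Finset.sum_le_sum fun ω _ => mul_le_mul_of_nonneg_left (h ω) (P.nn ω)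
    _ = c := by rw [← Finset.sum_mul, P.one, one_mul]

/-- The incidence inequality for `f - x ∈ A`. -/
theorem inc (hDET : S_DET) {k : ℕ} {ε K : ℝ}
    (hK : ∀ (n : ℕ) (a : ℕ → ℝ), 1 ≤ n → Cvx n a →
      ∀ (Ω : Type) [Fintype Ω] (P : FP Ω) (b c : Ω → ℝ), Sm n k b →
        (∀ ω, P.p ω ≠ 0 → b ω + c ω ∈ cs n a) →
        3 * H P (fun ω => (b ω, c ω)) ≤
          Real.log n + 2 * H P b + 2 * H P c + ε * Real.log n + K)
    {n : ℕ} {a : ℕ → ℝ} (hn : 1 ≤ n) (ha : Cvx n a) {Ω : Type} [Fintype Ω] (P : FP Ω)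
    (x f : Ω → ℝ) (hx : Sm n k x) (hf : ∀ ω, f ω - x ω ∈ cs n a) :
    3 * H P (fun ω => (x ω, f ω)) ≤
      Real.log n + 2 * H P x + 2 * H P f + ε * Real.log n + K := by
  have h1 := hK n a hn ha Ω P (fun ω => - x ω) f (sm_neg hx) (fun ω _ => by
    have h := hf ω
    have e : - x ω + f ω = f ω - x ω := by ring
    show - x ω + f ω ∈ cs n a
    rw [e]
    exact h)
  have h2 : H P (fun ω => (x ω, f ω)) ≤ H P (fun ω => (- x ω, f ω)) := by
    refine hDET Ω P (ℝ × ℝ) (ℝ × ℝ) (fun ω => (- x ω, f ω)) (fun ω => (x ω, f ω)) ?_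
    intro ω ω' h
    have h3 := congrArg Prod.fst h
    have h4 := congrArg Prod.snd h
    simp only at h3 h4
    exact Prod.ext (neg_injective h3) h4
  have h5 : H P (fun ω => - x ω) ≤ H P x := by
    refine hDET Ω P ℝ ℝ x (fun ω => - x ω) ?_
    intro ω ω' h
    simp only [h]
  linarith

end MSCH

theorem t_SCH (hDET : S_DET) (hSLF : S_SLF) (hSUB : S_SUB) (hCNT : S_CNT) (hFRE : S_FRE)
    (hST0 : S_ST0) : S_SCH := by
  intro k ε hε
  obtain ⟨K, hK0, hK⟩ := hST0 k ε hε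
  refine ⟨K, hK0, ?_⟩
  intro n a hn ha Ω _ P c s hc hs hr
  obtain ⟨Ω', _, P', π, g, hg, hSL, hH⟩ := hFRE Ω P (cs n a) (fun ω => s ω - c ω) hr
  have hW := hH (ℝ × ℝ) (fun ω => (c ω, s ω)) (by
    intro ω ω' h
    have h3 := congrArg Prod.fst h
    have h4 := congrArg Prod.snd h
    simp only at h3 h4
    simp only [h3, h4])
  have hHc : H P' (fun q => c (π q)) = H P c :=
    (hSLF Ω' Ω P' P Ω ℝ π id c (fun _ => 0) hSL).2.1
  have hHs : H P' (fun q => s (π q)) = H P s :=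
    (hSLF Ω' Ω P' P Ω ℝ π id s (fun _ => 0) hSL).2.1
  set f : Ω' → ℝ := fun q => c (π q) + g q with hfdef
  have hsub := hSUB Ω' P' ℝ (ℝ × ℝ) (ℝ × ℝ) ((ℝ × ℝ) × ℝ) f (fun q => (c (π q), f q))
    (fun q => (s (π q), f q)) (fun q => ((c (π q), s (π q)), g q))
    (fun ω ω' h => congrArg Prod.snd h) (fun ω ω' h => congrArg Prod.snd h) (by
      intro ω ω' h1 h2
      have h3 := congrArg Prod.fst h1
      have h4 := congrArg Prod.snd h1
      have h5 := congrArg Prod.fst h2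
      simp only [hfdef] at h3 h4 h5
      refine Prod.ext (Prod.ext h3 h5) ?_
      show g ω = g ω'
      linarith)
  have hc' : Sm n k (fun q => c (π q)) := by
    obtain ⟨B, hB, hb⟩ := hc
    exact ⟨B, hB, fun q => hb (π q)⟩
  have hs' : Sm n k (fun q => s (π q)) := by
    obtain ⟨B, hB, hb⟩ := hs
    exact ⟨B, hB, fun q => hb (π q)⟩
  have h1 := MSCH.inc hDET hK hn ha P' (fun q => c (π q)) f hc' (fun q => by
    have e : f q - c (π q) = g q := by simp only [hfdef]; ring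
    rw [e]
    exact (hg q).1)
  have h2 := MSCH.inc hDET hK hn ha P' (fun q => s (π q)) f hs' (fun q => by
    have e : f q - s (π q) = g q - (s (π q) - c (π q)) := by simp only [hfdef]; ring
    rw [e]
    exact (hg q).2)
  have h3 : H P' (fun q => (c (π q), f q)) ≤ H P' (fun q => c (π q)) + Real.log n := by
    have h4 := hCNT Ω' P' ℝ ℝ (fun q => c (π q)) f
      (fun v => (cs n a).image fun x => v + x) (fun q _ => by
        exact Finset.mem_image_of_mem (fun x => c (π q) + x) (hg q).1)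
    have h5 : ex P' (fun q => Real.log
        (((cs n a).image fun x => c (π q) + x).card : ℝ)) ≤ Real.log n := by
      refine MSCH.ex_const_le P' _ _ fun q => ?_
      rw [Finset.card_image_of_injective _ (add_right_injective (c (π q)))]
      refine Real.log_le_log ?_ ?_
      · exact_mod_cast MSCH.cs_card_pos a hn
      · exact_mod_cast MSCH.cs_card_le n a
    linarith
  have hlog : 0 ≤ Real.log (n : ℝ) := Real.log_nonneg (by exact_mod_cast hn)
  have hnn : 0 ≤ ε * Real.log n := mul_nonneg hε.le hlog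
  rw [hHc] at h1 h3
  rw [hHs] at h2
  linarith

end NCE
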