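import Pool.Agent.NCE.Stmts

/-!
# Gluing of two copies of one space

helper29, problem MP_f03f67_co.
-/

set_option autoImplicit false

open Finset
open scoped Classical

namespace NCE

/-- Exchanging the coordinates of a pair of random variables. -/
lemma MSGL.pr_swap {Ω α β : Type} [Fintype Ω] (P : FP Ω) (X : Ω → α) (Y : Ω → β) (x : α) (y : β) :
    pr P (fun ω => (Y ω, X ω)) (y, x) = pr P (fun ω => (X ω, Y ω)) (x, y) := by
  unfold pr
  refine Finset.sum_congr rfl fun ω _ => ?_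
  by_cases h : X ω = x ∧ Y ω = y
  · rw [if_pos (Prod.ext h.2 h.1), if_pos (Prod.ext h.1 h.2)]
  · rw [if_neg, if_neg]
    · intro h'
      exact h ⟨(Prod.mk.inj h').1, (Prod.mk.inj h').2⟩
    · intro h'
      exact h ⟨(Prod.mk.inj h').2, (Prod.mk.inj h').1⟩

theorem t_SGL (hGLU : S_GLU) : S_SGL := by
  intro Ω _ P σ Y
  obtain ⟨Ω', hF, P', π₁, π₂, hY, h1, h2, hH, hJ⟩ := hGLU Ω Ω P P σ Y Y (fun _ => rfl)
  refine ⟨Ω', hF, P', π₁, π₂, hY, h1, h2, ?_, hH⟩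
  rintro ⟨x₁, x₂⟩
  rw [MSGL.pr_swap P' π₁ π₂ x₂ x₁, hJ x₁ x₂, hJ x₂ x₁]
  by_cases h : Y x₁ = Y x₂
  · rw [if_pos h, if_pos h.symm, mul_comm, h]
  · rw [if_neg h, if_neg (fun h' => h h'.symm)]

end NCE
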