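import Pool.Agent.NCE.Stmts

/-!
# Entropy calculus: equality of laws passes to functions, entropies and expectations

helper72, module SLF for MP_f03f67_co.
-/

set_option autoImplicit false

open Finset
open scoped Classical

namespace NCE
namespace MSLF

lemma ex_eq_sum {Ω α : Type} [Fintype Ω] (P : FP Ω) (X : Ω → α) (f : α → ℝ) (S : Finset α)
    (hS : ∀ ω, X ω ∈ S) :
    ex P (fun ω => f (X ω)) = ∑ x ∈ S, pr P X x * f x := by
  have h1 : ∀ ω : Ω, P.p ω * f (X ω) = ∑ x ∈ S, (if X ω = x then P.p ω else 0) * f x := by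
    intro ω
    rw [Finset.sum_eq_single (X ω)]
    · rw [if_pos rfl]
    · intro b _ hb
      rw [if_neg (fun h => hb h.symm), zero_mul]
    · intro h
      exact absurd (hS ω) h
  unfold ex pr
  rw [Finset.sum_congr rfl (fun ω _ => h1 ω), Finset.sum_comm]
  refine Finset.sum_congr rfl (fun x _ => ?_)
  rw [Finset.sum_mul]

lemma ex_congr {Ω Ω' α : Type} [Fintype Ω] [Fintype Ω'] (P : FP Ω) (P' : FP Ω') (X : Ω → α)
    (X' : Ω' → α) (h : SL P X P' X') (f : α → ℝ) :
    ex P (fun ω => f (X ω)) = ex P' (fun ω => f (X' ω)) := by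
  have hS : ∀ ω, X ω ∈ (univ.image X ∪ univ.image X' : Finset α) := fun ω =>
    Finset.mem_union_left _ (Finset.mem_image_of_mem _ (Finset.mem_univ _))
  have hS' : ∀ ω, X' ω ∈ (univ.image X ∪ univ.image X' : Finset α) := fun ω =>
    Finset.mem_union_right _ (Finset.mem_image_of_mem _ (Finset.mem_univ _))
  rw [ex_eq_sum P X f _ hS, ex_eq_sum P' X' f _ hS']
  exact Finset.sum_congr rfl (fun x _ => by rw [h x])

lemma pr_eq_ex {Ω β : Type} [Fintype Ω] (P : FP Ω) (Y : Ω → β) (y : β) :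
    pr P Y y = ex P (fun ω => if Y ω = y then (1 : ℝ) else 0) := by
  unfold pr ex
  refine Finset.sum_congr rfl (fun ω _ => ?_)
  beta_reduce
  by_cases hy : Y ω = y
  · rw [if_pos hy, if_pos hy, mul_one]
  · rw [if_neg hy, if_neg hy, mul_zero]

lemma sl_comp {Ω Ω' α β : Type} [Fintype Ω] [Fintype Ω'] (P : FP Ω) (P' : FP Ω') (X : Ω → α)
    (X' : Ω' → α) (h : SL P X P' X') (F : α → β) :
    SL P (fun ω => F (X ω)) P' (fun ω => F (X' ω)) := by
  intro y
  rw [pr_eq_ex, pr_eq_ex]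
  exact ex_congr P P' X X' h (fun x => if F x = y then (1 : ℝ) else 0)

end MSLF

theorem t_SLF : S_SLF := by
  intro Ω Ω' _ _ P P' α β X X' F f h
  have h1 := MSLF.sl_comp P P' X X' h F
  refine ⟨h1, ?_, MSLF.ex_congr P P' X X' h f⟩
  unfold H
  rw [MSLF.ex_congr P P' (fun ω => F (X ω)) (fun ω => F (X' ω)) h1
    (fun y => - Real.log (pr P (fun ω => F (X ω)) y))]
  unfold ex
  refine Finset.sum_congr rfl (fun ω _ => ?_)
  beta_reduce
  rw [h1 (F (X' ω))]

end NCE
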