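import Pool.Agent.NCE.Stmts

/-!
# The conditional entropic incidence inequality

The inequality `S_ST0` for the conditional laws, averaged.
-/

set_option autoImplicit false

open Finset
open scoped Classical

namespace NCE

namespace MST

variable {Ω : Type} [Fintype Ω]

lemma ex_mono (P : FP Ω) {f g : Ω → ℝ} (h : ∀ ω, f ω ≤ g ω) : ex P f ≤ ex P g := by
  unfold ex
  exact Finset.sum_le_sum fun ω _ => mul_le_mul_of_nonneg_left (h ω) (P.nn ω)

lemma ex_const (P : FP Ω) (c : ℝ) : ex P (fun _ => c) = c := by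
  unfold ex
  rw [← Finset.sum_mul, P.one, one_mul]

lemma ex_add (P : FP Ω) (f g : Ω → ℝ) : ex P (fun ω => f ω + g ω) = ex P f + ex P g := by
  unfold ex
  rw [← Finset.sum_add_distrib]
  exact Finset.sum_congr rfl fun ω _ => mul_add _ _ _

lemma ex_smul (P : FP Ω) (c : ℝ) (f : Ω → ℝ) : ex P (fun ω => c * f ω) = c * ex P f := by
  unfold ex
  rw [Finset.mul_sum]
  exact Finset.sum_congr rfl fun ω _ => by ring

end MST

theorem t_ST (hCON : S_CON) (hST0 : S_ST0) : S_ST := by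
  intro k ε hε
  obtain ⟨K, hK, h⟩ := hST0 k ε hε
  refine ⟨K, hK, ?_⟩
  intro n a hn ha Ω _ P γ Z b c hb hbc
  obtain ⟨Q, -, hQ, -⟩ := hCON Ω P γ Z
  have h1 := hQ (ℝ × ℝ) (fun ω => (b ω, c ω))
  have h2 := hQ ℝ b
  have h3 := hQ ℝ c
  have h4 : ex P (fun ω => 3 * H (Q ω) (fun ω' => (b ω', c ω'))) ≤
      ex P (fun ω => (Real.log n + ε * Real.log n + K) + (2 * H (Q ω) b + 2 * H (Q ω) c)) := by
    apply MST.ex_mono
    intro ω
    have := h n a hn ha Ω (Q ω) b c hb (fun ω' _ => hbc ω')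
    linarith
  rw [MST.ex_smul, MST.ex_add, MST.ex_const, MST.ex_add, MST.ex_smul, MST.ex_smul] at h4
  linarith

end NCE
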