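import Pool.Agent.NCE.Stmts

/-!
# The entropic incidence inequality, unconditional form

The variable `b` is split into dyadic classes `J` according to the probability of its value; in
every class the inequality follows from conditional counting, Gibbs and the incidence lemma.
-/

set_option autoImplicit false

open Finset
open scoped Classical

namespace NCE

namespace MST0

section
variable {Ω : Type} [Fintype Ω]

/-- monotonicity of the expectation, almost surely -/
theorem ex_mono (P : FP Ω) {f g : Ω → ℝ} (h : ∀ ω, P.p ω ≠ 0 → f ω ≤ g ω) : ex P f ≤ ex P g := by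
  unfold ex
  refine Finset.sum_le_sum fun ω _ => ?_
  by_cases h0 : P.p ω = 0
  · rw [h0, zero_mul, zero_mul]
  · exact mul_le_mul_of_nonneg_left (h ω h0) (P.nn ω)

theorem ex_const (P : FP Ω) (c : ℝ) : ex P (fun _ => c) = c := by
  unfold ex
  rw [← Finset.sum_mul, P.one, one_mul]

theorem ex_add (P : FP Ω) (f g : Ω → ℝ) : ex P (fun ω => f ω + g ω) = ex P f + ex P g := by
  unfold ex
  rw [← Finset.sum_add_distrib]
  exact Finset.sum_congr rfl fun ω _ => mul_add _ _ _

theorem ex_smul (P : FP Ω) (c : ℝ) (f : Ω → ℝ) : ex P (fun ω => c * f ω) = c * ex P f := by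
  unfold ex
  rw [Finset.mul_sum]
  exact Finset.sum_congr rfl fun ω _ => by ring

/-- some point has positive weight -/
theorem exists_ne (P : FP Ω) : ∃ ω, P.p ω ≠ 0 := by
  by_contra h
  push Not at h
  have h1 := P.one
  rw [Finset.sum_eq_zero fun ω _ => h ω] at h1
  exact zero_ne_one h1

theorem le_pr (P : FP Ω) {α : Type} (V : Ω → α) (ω : Ω) : P.p ω ≤ pr P V (V ω) := by
  unfold pr
  have h : (if V ω = V ω then P.p ω else 0) ≤ ∑ ω', if V ω' = V ω then P.p ω' else 0 :=
    Finset.single_le_sum (f := fun ω' => if V ω' = V ω then P.p ω' else 0)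
      (fun ω' _ => by
        split_ifs
        · exact P.nn ω'
        · exact le_refl 0) (Finset.mem_univ ω)
  rwa [if_pos rfl] at h

theorem pr_pos (P : FP Ω) {α : Type} (V : Ω → α) {ω : Ω} (h : P.p ω ≠ 0) :
    0 < pr P V (V ω) :=
  lt_of_lt_of_le (lt_of_le_of_ne (P.nn ω) (Ne.symm h)) (le_pr P V ω)

/-- the probabilities of finitely many values have sum at most one -/
theorem sum_pr_le (P : FP Ω) {α : Type} (V : Ω → α) (S : Finset α) :
    ∑ x ∈ S, pr P V x ≤ 1 := by
  unfold pr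
  rw [Finset.sum_comm, ← P.one]
  refine Finset.sum_le_sum fun ω _ => ?_
  rw [Finset.sum_ite_eq S (V ω) (fun _ => P.p ω)]
  split_ifs
  · exact le_refl _
  · exact P.nn ω

theorem pr_le_one (P : FP Ω) {α : Type} (V : Ω → α) (x : α) : pr P V x ≤ 1 := by
  have h := sum_pr_le P V {x}
  rwa [Finset.sum_singleton] at h

/-- entropy is nonnegative -/
theorem H_nonneg (P : FP Ω) {α : Type} (V : Ω → α) : 0 ≤ H P V := by
  have h : ex P (fun _ => (0 : ℝ)) ≤ ex P (fun ω => - Real.log (pr P V (V ω))) := by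
    refine ex_mono P fun ω h0 => ?_
    have h1 := Real.log_nonpos (pr_pos P V h0).le (pr_le_one P V (V ω))
    linarith
  rw [ex_const] at h
  exact h

/-- the inequality inside one class -/
theorem cls (hDET : S_DET) (hGIB : S_GIB) (hCNT : S_CNT) (hINC : S_INC) (n : ℕ) (a : ℕ → ℝ)
    (hn : 1 ≤ n) (ha : Cvx n a) (P : FP Ω) (b c : Ω → ℝ) (B : Finset ℝ)
    (hB : ∀ ω, P.p ω ≠ 0 → b ω ∈ B) (hbc : ∀ ω, P.p ω ≠ 0 → b ω + c ω ∈ cs n a) :
    3 * H P (fun ω => (b ω, c ω)) ≤ 2 * H P c +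
      (Real.log 16 + Real.log n + 2 * Real.log B.card + Real.log (1 + Real.log n) +
        Real.log (1 + Real.log B.card)) := by
  obtain ⟨ω₀, hω₀⟩ := exists_ne P
  have hBne : B.Nonempty := ⟨b ω₀, hB ω₀ hω₀⟩
  have h1 : H P (fun ω => (b ω, c ω)) ≤ H P (fun ω => (c ω, b ω)) :=
    hDET Ω P (ℝ × ℝ) (ℝ × ℝ) (fun ω => (c ω, b ω)) (fun ω => (b ω, c ω)) (fun ω ω' h => by
      have e1 : c ω = c ω' := congrArg Prod.fst h
      have e2 : b ω = b ω' := congrArg Prod.snd h
      show (b ω, c ω) = (b ω', c ω')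
      rw [e1, e2])
  have h2 := hCNT Ω P ℝ ℝ c b (fun c => B.filter fun b => b + c ∈ cs n a)
    (fun ω h => Finset.mem_filter.mpr ⟨hB ω h, hbc ω h⟩)
  have h2' : H P (fun ω => (c ω, b ω)) ≤ H P c + ex P (fun ω => Real.log (rc (cs n a) B (c ω))) :=
    h2
  set S : Finset ℝ := ((Finset.univ : Finset Ω).filter fun ω => P.p ω ≠ 0).image c with hS
  have hpos : ∀ z ∈ S, 0 < ((rc (cs n a) B z : ℝ)) := by
    intro z hz
    obtain ⟨ω, hω, rfl⟩ := Finset.mem_image.mp hz
    have hω' : P.p ω ≠ 0 := (Finset.mem_filter.mp hω).2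
    have : 0 < rc (cs n a) B (c ω) :=
      Finset.card_pos.mpr ⟨b ω, Finset.mem_filter.mpr ⟨hB ω hω', hbc ω hω'⟩⟩
    exact_mod_cast this
  have hmem : ∀ ω, P.p ω ≠ 0 → c ω ∈ S := fun ω h =>
    Finset.mem_image.mpr ⟨ω, Finset.mem_filter.mpr ⟨Finset.mem_univ ω, h⟩, rfl⟩
  have h3 := hGIB Ω P ℝ c S (fun z => ((rc (cs n a) B z : ℝ)) ^ 3)
    (fun z hz => pow_pos (hpos z hz) 3) hmem
  have h4 : ex P (fun ω => Real.log (((rc (cs n a) B (c ω) : ℝ)) ^ 3)) =
      3 * ex P (fun ω => Real.log (rc (cs n a) B (c ω))) := by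
    rw [← ex_smul]
    congr 1
    funext ω
    rw [Real.log_pow]
    norm_num
  have h3' : H P c + 3 * ex P (fun ω => Real.log (rc (cs n a) B (c ω))) ≤
      Real.log (∑ z ∈ S, ((rc (cs n a) B z : ℝ)) ^ 3) := by
    rw [← h4]
    exact h3
  have h5 := hINC n a hn ha B S hBne
  have hsum : 0 < ∑ z ∈ S, ((rc (cs n a) B z : ℝ)) ^ 3 :=
    Finset.sum_pos (fun z hz => pow_pos (hpos z hz) 3) ⟨c ω₀, hmem ω₀ hω₀⟩
  have h6 := Real.log_le_log hsum h5
  have hn0 : (0 : ℝ) < n := by exact_mod_cast hn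
  have hn1 : (1 : ℝ) ≤ n := by exact_mod_cast hn
  have hc0 : (0 : ℝ) < B.card := by exact_mod_cast Finset.card_pos.mpr hBne
  have hc1 : (1 : ℝ) ≤ B.card := by exact_mod_cast Finset.card_pos.mpr hBne
  have hl1 : 0 < 1 + Real.log n := by
    have := Real.log_nonneg hn1
    linarith
  have hl2 : 0 < 1 + Real.log B.card := by
    have := Real.log_nonneg hc1
    linarith
  have h7 : Real.log (16 * n * (B.card : ℝ) ^ 2 * (1 + Real.log n) * (1 + Real.log B.card)) =
      Real.log 16 + Real.log n + 2 * Real.log B.card + Real.log (1 + Real.log n) +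
        Real.log (1 + Real.log B.card) := by
    rw [Real.log_mul (by positivity) hl2.ne', Real.log_mul (by positivity) hl1.ne',
      Real.log_mul (by positivity) (by positivity), Real.log_mul (by norm_num) hn0.ne',
      Real.log_pow]
    norm_num
  rw [h7] at h6
  linarith

/-- the class of a value -/
noncomputable def J (P : FP Ω) (b : Ω → ℝ) (L : ℕ) (ω : Ω) : ℕ :=
  min L ⌊- Real.log (pr P b (b ω)) / Real.log 2⌋₊

/-- the values of a class -/
noncomputable def Bj (P : FP Ω) (b : Ω → ℝ) (L j : ℕ) : Finset ℝ :=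
  ((Finset.univ : Finset Ω).filter fun ω => P.p ω ≠ 0 ∧ J P b L ω = j).image b

theorem mem_Bj (P : FP Ω) (b : Ω → ℝ) (L : ℕ) {ω ω' : Ω} (h : P.p ω' ≠ 0)
    (hJ : J P b L ω' = J P b L ω) : b ω' ∈ Bj P b L (J P b L ω) :=
  Finset.mem_image.mpr ⟨ω', Finset.mem_filter.mpr ⟨Finset.mem_univ ω', h, hJ⟩, rfl⟩

/-- `J * log 2` is at most the surprise -/
theorem J_le (P : FP Ω) (b : Ω → ℝ) (L : ℕ) {ω : Ω} (h : P.p ω ≠ 0) :
    (J P b L ω : ℝ) * Real.log 2 ≤ - Real.log (pr P b (b ω)) := by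
  have h2 : 0 < Real.log 2 := Real.log_pos (by norm_num)
  have h1 : 0 ≤ - Real.log (pr P b (b ω)) / Real.log 2 := by
    refine div_nonneg ?_ h2.le
    have := Real.log_nonpos (pr_pos P b h).le (pr_le_one P b (b ω))
    linarith
  have h3 : (J P b L ω : ℝ) ≤ - Real.log (pr P b (b ω)) / Real.log 2 := by
    refine le_trans ?_ (Nat.floor_le h1)
    exact_mod_cast min_le_right L _
  rwa [le_div_iff₀ h2] at h3

/-- the size of the small classes -/
theorem card_le (P : FP Ω) (b : Ω → ℝ) (L j : ℕ) (hj : j < L) :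
    ((Bj P b L j).card : ℝ) ≤ 2 ^ (j + 1) := by
  have h2 : 0 < Real.log 2 := Real.log_pos (by norm_num)
  have h1 : ∀ x ∈ Bj P b L j, (1 : ℝ) / 2 ^ (j + 1) ≤ pr P b x := by
    intro x hx
    obtain ⟨ω, hω, rfl⟩ := Finset.mem_image.mp hx
    obtain ⟨-, h0, hJ⟩ := Finset.mem_filter.mp hω
    have h3 : ⌊- Real.log (pr P b (b ω)) / Real.log 2⌋₊ = j := by
      unfold J at hJ
      rcases le_total L ⌊- Real.log (pr P b (b ω)) / Real.log 2⌋₊ with h | h
      · rw [min_eq_left h] at hJ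
        omega
      · rwa [min_eq_right h] at hJ
    have h4 := Nat.lt_floor_add_one (- Real.log (pr P b (b ω)) / Real.log 2)
    rw [h3, div_lt_iff₀ h2] at h4
    have h5 : 0 < pr P b (b ω) := pr_pos P b h0
    have h6 : Real.log (1 / 2 ^ (j + 1)) ≤ Real.log (pr P b (b ω)) := by
      rw [one_div, Real.log_inv, Real.log_pow]
      push_cast
      linarith
    exact (Real.log_le_log_iff (by positivity) h5).mp h6
  have h3 : ((Bj P b L j).card : ℝ) * (1 / 2 ^ (j + 1)) ≤ 1 := by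
    have h4 : ∑ _x ∈ Bj P b L j, (1 : ℝ) / 2 ^ (j + 1) ≤ ∑ x ∈ Bj P b L j, pr P b x :=
      Finset.sum_le_sum h1
    rw [Finset.sum_const, nsmul_eq_mul] at h4
    exact h4.trans (sum_pr_le P b _)
  rw [mul_one_div, div_le_one (by positivity)] at h3
  exact h3

/-- the size of a class against the surprise -/
theorem logcard_le (P : FP Ω) (b : Ω → ℝ) (n k L : ℕ) (hb : Sm n k b)
    (hL : (k : ℝ) * Real.log n ≤ L * Real.log 2) {ω : Ω} (h : P.p ω ≠ 0) :
    Real.log (Bj P b L (J P b L ω)).card ≤ Real.log 2 + - Real.log (pr P b (b ω)) ∧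
    Real.log (Bj P b L (J P b L ω)).card ≤ k * Real.log n := by
  have h2 : 0 < Real.log 2 := Real.log_pos (by norm_num)
  have hJ := J_le P b L h
  have hne : (Bj P b L (J P b L ω)).Nonempty := ⟨b ω, mem_Bj P b L h rfl⟩
  have hc0 : (0 : ℝ) < (Bj P b L (J P b L ω)).card := by
    exact_mod_cast Finset.card_pos.mpr hne
  obtain ⟨B, hB1, hB2⟩ := hb
  have hk : Real.log (Bj P b L (J P b L ω)).card ≤ k * Real.log n := by
    have h3 : (Bj P b L (J P b L ω)).card ≤ n ^ k := by
      refine le_trans (Finset.card_le_card ?_) hB1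
      intro x hx
      obtain ⟨ω', -, rfl⟩ := Finset.mem_image.mp hx
      exact hB2 ω'
    have h4 : ((Bj P b L (J P b L ω)).card : ℝ) ≤ (n : ℝ) ^ k := by exact_mod_cast h3
    have h5 := Real.log_le_log hc0 h4
    rwa [Real.log_pow] at h5
  refine ⟨?_, hk⟩
  rcases lt_or_ge (J P b L ω) L with h3 | h3
  · have h4 := card_le P b L _ h3
    have h5 := Real.log_le_log hc0 h4
    rw [Real.log_pow] at h5
    push_cast at h5
    linarith
  · have h4 : J P b L ω = L := le_antisymm (min_le_left _ _) h3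
    rw [h4] at hJ
    linarith

end

/-- the error terms -/
theorem err (k : ℕ) (ε : ℝ) (hε : 0 < ε) : ∃ K : ℝ, 0 ≤ K ∧ ∀ l : ℝ, 0 ≤ l →
    3 * Real.log (k * l / Real.log 2 + 2) + Real.log 16 + 2 * Real.log 2 + Real.log (1 + l) +
      Real.log (1 + k * l) ≤ ε * l + K := by
  refine ⟨|5 * Real.log (2 + 2 * k) + ε - 5 - 5 * Real.log (ε / 5) + Real.log 16 +
    2 * Real.log 2|, abs_nonneg _, ?_⟩
  intro l hl
  have hk : (0 : ℝ) ≤ k := Nat.cast_nonneg k
  have hkl : 0 ≤ (k : ℝ) * l := mul_nonneg hk hl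
  have h2 : (1 : ℝ) / 2 < Real.log 2 := by
    have := Real.log_two_gt_d9
    linarith
  have hl2 : 0 < Real.log 2 := by linarith
  have h3 : k * l / Real.log 2 ≤ 2 * (k * l) := by
    rw [div_le_iff₀ hl2]
    nlinarith
  have hdiv : 0 ≤ k * l / Real.log 2 := div_nonneg hkl hl2.le
  have hM : (0 : ℝ) < 2 + 2 * k := by linarith
  have hl1 : 0 < 1 + l := by linarith
  have h4 : Real.log ((2 + 2 * k) * (1 + l)) = Real.log (2 + 2 * k) + Real.log (1 + l) :=
    Real.log_mul hM.ne' hl1.ne'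
  have h5 : Real.log (k * l / Real.log 2 + 2) ≤ Real.log ((2 + 2 * k) * (1 + l)) := by
    refine Real.log_le_log (by linarith) ?_
    nlinarith
  have h6 : Real.log (1 + k * l) ≤ Real.log ((2 + 2 * k) * (1 + l)) := by
    refine Real.log_le_log (by linarith) ?_
    nlinarith
  have h7 : Real.log (1 + l) ≤ Real.log ((2 + 2 * k) * (1 + l)) := by
    refine Real.log_le_log (by linarith) ?_
    nlinarith
  have h8 : Real.log (ε / 5 * (1 + l)) ≤ ε / 5 * (1 + l) - 1 :=
    Real.log_le_sub_one_of_pos (by positivity)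
  rw [Real.log_mul (by positivity) hl1.ne'] at h8
  have h9 := le_abs_self (5 * Real.log (2 + 2 * k) + ε - 5 - 5 * Real.log (ε / 5) +
    Real.log 16 + 2 * Real.log 2)
  rw [h4] at h5 h6 h7
  linarith

end MST0

open MST0 in
theorem t_ST0 (hDET : S_DET) (hSUB : S_SUB) (hGIB : S_GIB) (hCNT : S_CNT) (hCON : S_CON)
    (hINC : S_INC) : S_ST0 := by
  intro k ε hε
  obtain ⟨K, hK, herr⟩ := err k ε hε
  refine ⟨K, hK, ?_⟩
  intro n a hn ha Ω _ P b c hb hbc
  have hn1 : (1 : ℝ) ≤ n := by exact_mod_cast hn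
  have hlog : 0 ≤ Real.log n := Real.log_nonneg hn1
  have hl2 : 0 < Real.log 2 := Real.log_pos (by norm_num)
  have hk : (0 : ℝ) ≤ k := Nat.cast_nonneg k
  set L : ℕ := ⌈(k : ℝ) * Real.log n / Real.log 2⌉₊ with hLdef
  have hL : (k : ℝ) * Real.log n ≤ L * Real.log 2 := by
    have h := Nat.le_ceil ((k : ℝ) * Real.log n / Real.log 2)
    rwa [div_le_iff₀ hl2] at h
  have hL2 : (L : ℝ) < k * Real.log n / Real.log 2 + 1 :=
    Nat.ceil_lt_add_one (div_nonneg (mul_nonneg hk hlog) hl2.le)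
  obtain ⟨Q, hQ, hQH, -⟩ := hCON Ω P ℕ (J P b L)
  -- the entropy of the class
  have hJ : H P (J P b L) ≤ Real.log (L + 1) := by
    have h := hGIB Ω P ℕ (J P b L) (Finset.range (L + 1)) (fun _ => 1) (fun _ _ => one_pos)
      (fun ω _ => Finset.mem_range.mpr (Nat.lt_succ_of_le (min_le_left _ _)))
    have e : ex P (fun _ : Ω => Real.log ((fun _ : ℕ => (1 : ℝ)) 0)) = 0 := by
      rw [ex_const]
      exact Real.log_one
    have e2 : (∑ _z ∈ Finset.range (L + 1), (1 : ℝ)) = L + 1 := by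
      rw [Finset.sum_const, Finset.card_range, nsmul_eq_mul, mul_one]
      push_cast
      ring
    rw [e2] at h
    linarith
  -- the conditional entropy of `c`
  have hc : ex P (fun ω => H (Q ω) c) ≤ H P c := by
    have h1 := hSUB Ω P Unit ℕ ℝ (ℕ × ℝ) (fun _ => ()) (J P b L) c (fun ω => (J P b L ω, c ω))
      (fun _ _ _ => rfl) (fun _ _ _ => rfl) (fun ω ω' e1 e2 => by
        show (J P b L ω, c ω) = (J P b L ω', c ω')
        rw [e1, e2])
    have h2 := H_nonneg P (fun _ : Ω => ())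
    have h3 := hQH ℝ c
    linarith
  -- the entropy of the pair
  have hbcJ : H P (fun ω => (b ω, c ω)) ≤ H P (fun ω => (J P b L ω, (b ω, c ω))) :=
    hDET Ω P (ℕ × (ℝ × ℝ)) (ℝ × ℝ) _ _ (fun ω ω' h => congrArg Prod.snd h)
  have h4 := hQH (ℝ × ℝ) (fun ω => (b ω, c ω))
  -- the classes
  have h5 : ex P (fun ω => 3 * H (Q ω) (fun ω' => (b ω', c ω'))) ≤
      ex P (fun ω => (2 * H (Q ω) c + 2 * (- Real.log (pr P b (b ω)))) +
        (Real.log 16 + Real.log n + 2 * Real.log 2 + Real.log (1 + Real.log n) +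
          Real.log (1 + k * Real.log n))) := by
    refine ex_mono P fun ω h0 => ?_
    have h6 := cls hDET hGIB hCNT hINC n a hn ha (Q ω) b c (Bj P b L (J P b L ω))
      (fun ω' h' => mem_Bj P b L (hQ ω ω' h0 h').2 (hQ ω ω' h0 h').1)
      (fun ω' h' => hbc ω' (hQ ω ω' h0 h').2)
    obtain ⟨h7, h8⟩ := logcard_le P b n k L hb hL h0
    have hne : (Bj P b L (J P b L ω)).Nonempty := ⟨b ω, mem_Bj P b L h0 rfl⟩
    have hc1 : (1 : ℝ) ≤ (Bj P b L (J P b L ω)).card := by
      exact_mod_cast Finset.card_pos.mpr hne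
    have h9 : Real.log (1 + Real.log (Bj P b L (J P b L ω)).card) ≤
        Real.log (1 + k * Real.log n) := by
      refine Real.log_le_log ?_ (by linarith)
      have := Real.log_nonneg hc1
      linarith
    linarith
  rw [ex_smul, ex_add, ex_add, ex_const, ex_smul, ex_smul] at h5
  have h10 : ex P (fun ω => - Real.log (pr P b (b ω))) = H P b := rfl
  rw [h10] at h5
  have h11 : Real.log (L + 1) ≤ Real.log (k * Real.log n / Real.log 2 + 2) := by
    refine Real.log_le_log (by positivity) (by linarith)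
  have h12 := herr (Real.log n) hlog
  linarith

end NCE
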