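import Pool.Agent.NCE.Stmts

/-!
# Submodularity of the Shannon entropy, general form
-/

set_option autoImplicit false

open Finset
open scoped Classical

namespace NCE

namespace MSUB

section
variable {Ω : Type} [Fintype Ω] (P : FP Ω) {α β γ : Type}

theorem pr_nn (X : Ω → α) (x : α) : 0 ≤ pr P X x := by
  unfold pr
  refine sum_nonneg fun ω _ => ?_
  split_ifs
  · exact P.nn ω
  · exact le_rfl

theorem le_pr (X : Ω → α) (ω : Ω) : P.p ω ≤ pr P X (X ω) := by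
  unfold pr
  have h := single_le_sum (f := fun ω' => if X ω' = X ω then P.p ω' else 0)
    (fun ω' _ => by
      show 0 ≤ if X ω' = X ω then P.p ω' else 0
      split_ifs
      · exact P.nn ω'
      · exact le_rfl) (mem_univ ω)
  simpa using h

/-- the inner sum for fixed `ω₁`, `ω₂` -/
theorem inner_le (U : Ω → α) (V₁ : Ω → β) (V₂ : Ω → γ) (h1 : Det V₁ U) (h2 : Det V₂ U)
    (ω₁ ω₂ : Ω) :
    (∑ ω, if V₁ ω₁ = V₁ ω ∧ V₂ ω₂ = V₂ ω then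
      P.p ω / (pr P (fun ω => (V₁ ω, V₂ ω)) (V₁ ω, V₂ ω) * pr P U (U ω)) else 0) ≤
      if U ω₂ = U ω₁ then 1 / pr P U (U ω₁) else 0 := by
  by_cases h : ∃ ω₀, V₁ ω₁ = V₁ ω₀ ∧ V₂ ω₂ = V₂ ω₀
  · obtain ⟨ω₀, ha, hb⟩ := h
    have hU1 : U ω₁ = U ω₀ := h1 _ _ ha
    have hU2 : U ω₂ = U ω₀ := h2 _ _ hb
    rw [if_pos (hU2.trans hU1.symm)]
    have e : (∑ ω, if V₁ ω₁ = V₁ ω ∧ V₂ ω₂ = V₂ ω then
        P.p ω / (pr P (fun ω => (V₁ ω, V₂ ω)) (V₁ ω, V₂ ω) * pr P U (U ω)) else 0) =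
        pr P (fun ω => (V₁ ω, V₂ ω)) (V₁ ω₀, V₂ ω₀) /
          (pr P (fun ω => (V₁ ω, V₂ ω)) (V₁ ω₀, V₂ ω₀) * pr P U (U ω₁)) := by
      conv_rhs => rw [pr, sum_div]
      refine sum_congr rfl fun ω _ => ?_
      by_cases hc : V₁ ω₁ = V₁ ω ∧ V₂ ω₂ = V₂ ω
      · have h3 : V₁ ω = V₁ ω₀ := hc.1.symm.trans ha
        have h4 : V₂ ω = V₂ ω₀ := hc.2.symm.trans hb
        have h5 : U ω = U ω₁ := (h1 _ _ hc.1).symm
        rw [if_pos hc, if_pos (by rw [h3, h4]), h3, h4, h5]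
        rfl
      · have h6 : ¬ ((V₁ ω, V₂ ω) = (V₁ ω₀, V₂ ω₀)) := fun h7 =>
          hc ⟨ha.trans (congrArg Prod.fst h7).symm, hb.trans (congrArg Prod.snd h7).symm⟩
        rw [if_neg hc, if_neg h6, zero_div]
    rw [e]
    rcases eq_or_ne (pr P (fun ω => (V₁ ω, V₂ ω)) (V₁ ω₀, V₂ ω₀)) 0 with h0 | h0
    · rw [h0, zero_div]
      exact one_div_nonneg.mpr (pr_nn P U _)
    · rw [div_mul_eq_div_div, div_self h0]
  · rw [sum_eq_zero fun ω _ => if_neg fun hc => h ⟨ω, hc⟩]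
    split_ifs
    · exact one_div_nonneg.mpr (pr_nn P U _)
    · exact le_rfl

/-- the total of the ratios is at most one -/
theorem ratio_le (U : Ω → α) (V₁ : Ω → β) (V₂ : Ω → γ) (h1 : Det V₁ U) (h2 : Det V₂ U) :
    (∑ ω, P.p ω * (pr P V₁ (V₁ ω) * pr P V₂ (V₂ ω) /
      (pr P (fun ω => (V₁ ω, V₂ ω)) (V₁ ω, V₂ ω) * pr P U (U ω)))) ≤ 1 := by
  have e : (∑ ω, P.p ω * (pr P V₁ (V₁ ω) * pr P V₂ (V₂ ω) /
      (pr P (fun ω => (V₁ ω, V₂ ω)) (V₁ ω, V₂ ω) * pr P U (U ω)))) =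
      ∑ ω₁, ∑ ω₂, P.p ω₁ * P.p ω₂ * ∑ ω, if V₁ ω₁ = V₁ ω ∧ V₂ ω₂ = V₂ ω then
        P.p ω / (pr P (fun ω => (V₁ ω, V₂ ω)) (V₁ ω, V₂ ω) * pr P U (U ω)) else 0 := by
    have e1 : ∀ ω, P.p ω * (pr P V₁ (V₁ ω) * pr P V₂ (V₂ ω) /
        (pr P (fun ω => (V₁ ω, V₂ ω)) (V₁ ω, V₂ ω) * pr P U (U ω))) =
        ∑ ω₁, ∑ ω₂, P.p ω₁ * P.p ω₂ * if V₁ ω₁ = V₁ ω ∧ V₂ ω₂ = V₂ ω then
        P.p ω / (pr P (fun ω => (V₁ ω, V₂ ω)) (V₁ ω, V₂ ω) * pr P U (U ω)) else 0 := by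
      intro ω
      set Q := pr P (fun ω => (V₁ ω, V₂ ω)) (V₁ ω, V₂ ω) * pr P U (U ω) with hQ
      have e2 : P.p ω * (pr P V₁ (V₁ ω) * pr P V₂ (V₂ ω) / Q) =
          (pr P V₁ (V₁ ω) * pr P V₂ (V₂ ω)) * (P.p ω / Q) := by ring
      rw [e2, pr, pr, sum_mul_sum, sum_mul]
      refine sum_congr rfl fun ω₁ _ => ?_
      rw [sum_mul]
      refine sum_congr rfl fun ω₂ _ => ?_
      by_cases ha : V₁ ω₁ = V₁ ω
      · by_cases hb : V₂ ω₂ = V₂ ω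
        · have hc : V₁ ω₁ = V₁ ω ∧ V₂ ω₂ = V₂ ω := ⟨ha, hb⟩
          rw [if_pos ha, if_pos hb, if_pos hc]
        · have hc : ¬ (V₁ ω₁ = V₁ ω ∧ V₂ ω₂ = V₂ ω) := fun hc => hb hc.2
          rw [if_neg hb, if_neg hc, mul_zero, zero_mul, mul_zero]
      · have hc : ¬ (V₁ ω₁ = V₁ ω ∧ V₂ ω₂ = V₂ ω) := fun hc => ha hc.1
        rw [if_neg ha, if_neg hc, zero_mul, zero_mul, mul_zero]
    rw [sum_congr rfl fun ω _ => e1 ω, sum_comm]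
    refine sum_congr rfl fun ω₁ _ => ?_
    rw [sum_comm]
    refine sum_congr rfl fun ω₂ _ => ?_
    rw [mul_sum]
  rw [e]
  have e3 : ∀ ω₁ : Ω, (∑ ω₂, P.p ω₁ * P.p ω₂ * ∑ ω, if V₁ ω₁ = V₁ ω ∧ V₂ ω₂ = V₂ ω then
        P.p ω / (pr P (fun ω => (V₁ ω, V₂ ω)) (V₁ ω, V₂ ω) * pr P U (U ω)) else 0) ≤ P.p ω₁ := by
    intro ω₁
    have e4 : (∑ ω₂, P.p ω₁ * P.p ω₂ * ∑ ω, if V₁ ω₁ = V₁ ω ∧ V₂ ω₂ = V₂ ω then
        P.p ω / (pr P (fun ω => (V₁ ω, V₂ ω)) (V₁ ω, V₂ ω) * pr P U (U ω)) else 0) ≤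
        ∑ ω₂, P.p ω₁ * P.p ω₂ * (if U ω₂ = U ω₁ then 1 / pr P U (U ω₁) else 0) :=
      sum_le_sum fun ω₂ _ => mul_le_mul_of_nonneg_left (inner_le P U V₁ V₂ h1 h2 ω₁ ω₂)
        (mul_nonneg (P.nn _) (P.nn _))
    refine e4.trans ?_
    have e5 : (∑ ω₂, P.p ω₁ * P.p ω₂ * (if U ω₂ = U ω₁ then 1 / pr P U (U ω₁) else 0)) =
        P.p ω₁ * (pr P U (U ω₁) / pr P U (U ω₁)) := by
      have e6 : P.p ω₁ * (pr P U (U ω₁) / pr P U (U ω₁)) =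
          ∑ ω₂, P.p ω₁ * ((if U ω₂ = U ω₁ then P.p ω₂ else 0) / pr P U (U ω₁)) := by
        rw [← mul_sum, ← sum_div]
        rfl
      rw [e6]
      refine sum_congr rfl fun ω₂ _ => ?_
      split_ifs <;> ring
    rw [e5]
    calc P.p ω₁ * (pr P U (U ω₁) / pr P U (U ω₁)) ≤ P.p ω₁ * 1 :=
          mul_le_mul_of_nonneg_left (div_self_le_one _) (P.nn _)
      _ = P.p ω₁ := mul_one _
  calc _ ≤ ∑ ω₁, P.p ω₁ := sum_le_sum fun ω₁ _ => e3 ω₁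
    _ = 1 := P.one

theorem core (U : Ω → α) (V₁ : Ω → β) (V₂ : Ω → γ) (h1 : Det V₁ U) (h2 : Det V₂ U) :
    H P (fun ω => (V₁ ω, V₂ ω)) + H P U ≤ H P V₁ + H P V₂ := by
  have key : ∀ ω, P.p ω * (- Real.log (pr P (fun ω => (V₁ ω, V₂ ω)) (V₁ ω, V₂ ω))) +
      P.p ω * (- Real.log (pr P U (U ω))) - P.p ω * (- Real.log (pr P V₁ (V₁ ω))) -
      P.p ω * (- Real.log (pr P V₂ (V₂ ω))) ≤
      P.p ω * (pr P V₁ (V₁ ω) * pr P V₂ (V₂ ω) /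
      (pr P (fun ω => (V₁ ω, V₂ ω)) (V₁ ω, V₂ ω) * pr P U (U ω))) - P.p ω := by
    intro ω
    rcases eq_or_lt_of_le (P.nn ω) with h0 | h0
    · rw [← h0]; simp
    · have a1 : 0 < pr P (fun ω => (V₁ ω, V₂ ω)) (V₁ ω, V₂ ω) :=
        lt_of_lt_of_le h0 (le_pr P (fun ω => (V₁ ω, V₂ ω)) ω)
      have a2 : 0 < pr P U (U ω) := lt_of_lt_of_le h0 (le_pr P U ω)
      have a3 : 0 < pr P V₁ (V₁ ω) := lt_of_lt_of_le h0 (le_pr P V₁ ω)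
      have a4 : 0 < pr P V₂ (V₂ ω) := lt_of_lt_of_le h0 (le_pr P V₂ ω)
      have h := Real.log_le_sub_one_of_pos (div_pos (mul_pos a3 a4) (mul_pos a1 a2))
      rw [Real.log_div (mul_pos a3 a4).ne' (mul_pos a1 a2).ne', Real.log_mul a3.ne' a4.ne',
        Real.log_mul a1.ne' a2.ne'] at h
      have h' := mul_le_mul_of_nonneg_left h h0.le
      linarith
  have hs := sum_le_sum fun ω (_ : ω ∈ (univ : Finset Ω)) => key ω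
  rw [sum_sub_distrib, sum_sub_distrib, sum_add_distrib, sum_sub_distrib, P.one] at hs
  have hr := ratio_le P U V₁ V₂ h1 h2
  unfold H ex
  linarith

end

end MSUB

theorem t_SUB (hDET : S_DET) : S_SUB := by
  intro Ω _ P α β γ δ U V₁ V₂ W h1 h2 hW
  have hA : H P W ≤ H P (fun ω => (V₁ ω, V₂ ω)) :=
    hDET Ω P (β × γ) δ (fun ω => (V₁ ω, V₂ ω)) W
      (fun ω ω' h => hW ω ω' (congrArg Prod.fst h) (congrArg Prod.snd h))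
  have hB := MSUB.core P U V₁ V₂ h1 h2
  linarith

end NCE
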