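import Pool.Agent.NCE.DET
import Pool.Agent.NCE.SLF
import Pool.Agent.NCE.SUB
import Pool.Agent.NCE.GIB
import Pool.Agent.NCE.CNT
import Pool.Agent.NCE.CND
import Pool.Agent.NCE.GLU
import Pool.Agent.NCE.SGL
import Pool.Agent.NCE.FRE
import Pool.Agent.NCE.INA
import Pool.Agent.NCE.INC
import Pool.Agent.NCE.ST0
import Pool.Agent.NCE.ST
import Pool.Agent.NCE.G3
import Pool.Agent.NCE.LEV
import Pool.Agent.NCE.E3T
import Pool.Agent.NCE.SCH
import Pool.Agent.NCE.QUA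
import Pool.Agent.NCE.NQ
import Pool.Agent.NCE.NR
import Pool.Agent.NCE.NW
import Pool.Agent.NCE.NX
import Pool.Agent.NCE.NE
import Pool.Agent.NCE.IQ
import Pool.Agent.NCE.IR
import Pool.Agent.NCE.IW
import Pool.Agent.NCE.IXS
import Pool.Agent.NCE.IXT
import Pool.Agent.NCE.IE
import Pool.Agent.NCE.MAIN

/-!
# The closed form of the library and of MAIN (problem MP_f03f67_co)
-/

set_option autoImplicit false

namespace NCE

theorem c_DET : S_DET := t_DET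
theorem c_SLF : S_SLF := t_SLF
theorem c_SUB : S_SUB := t_SUB c_DET
theorem c_GIB : S_GIB := t_GIB
theorem c_CNT : S_CNT := t_CNT c_GIB
theorem c_CON : S_CON := t_CON
theorem c_GLU : S_GLU := t_GLU c_SLF
theorem c_SGL : S_SGL := t_SGL c_GLU
theorem c_FRE : S_FRE := t_FRE c_SLF
theorem c_INC : S_INC := t_INC t_INA
theorem c_ST0 : S_ST0 := t_ST0 c_DET c_SUB c_GIB c_CNT c_CON c_INC
theorem c_ST : S_ST := t_ST c_CON c_ST0
theorem c_G3 : S_G3 := t_G3 c_GIB c_INC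
theorem c_LEV : S_LEV := t_LEV c_CNT
theorem c_E3T : S_E3T := t_E3T c_DET c_SLF c_SUB c_SGL c_G3 c_LEV
theorem c_SCH : S_SCH := t_SCH c_DET c_SLF c_SUB c_CNT c_FRE c_ST0
theorem c_QUA : S_QUA := t_QUA c_SLF
theorem c_NQ : S_NQ := t_NQ c_DET c_SLF c_GLU c_QUA
theorem c_NR : S_NR := t_NR c_DET c_SLF c_SGL
theorem c_NW : S_NW := t_NW c_DET c_SLF c_FRE
theorem c_NX : S_NX := t_NX c_DET c_SLF c_FRE c_SGL
theorem c_NE : S_NE := t_NE c_DET c_SLF c_SGL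
theorem c_IQ : S_IQ := t_IQ c_DET c_SLF c_SUB c_CNT c_ST0
theorem c_IR : S_IR := t_IR c_DET c_SLF c_SUB c_ST0 c_E3T
theorem c_IW : S_IW := t_IW c_DET c_SUB c_ST0
theorem c_IXS : S_IXS := t_IXS c_DET c_SLF c_SUB c_CNT
theorem c_IXT : S_IXT := t_IXT c_DET c_SLF c_ST0 c_E3T c_SCH
theorem c_IE : S_IE := t_IE c_DET c_SLF c_SUB c_ST c_G3 c_LEV
theorem c_MAIN : S_MAIN := t_MAIN c_DET c_SLF c_NQ c_NR c_NW c_NX c_NE c_IQ c_IR c_IW c_IXS
  c_IXT c_IE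

end NCE
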