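import Pool.Agent.NCE.Stmts

/-!
# DET: the entropy of a function of a random variable
-/

set_option autoImplicit false

open Finset
open scoped Classical

namespace NCE

namespace MDET

/-- the probability of the value is at least the weight of the point -/
theorem le_pr {Ω : Type} [Fintype Ω] (P : FP Ω) {α : Type} (V : Ω → α) (ω : Ω) :
    P.p ω ≤ pr P V (V ω) := by
  unfold pr
  have h : (if V ω = V ω then P.p ω else 0) ≤ ∑ ω', if V ω' = V ω then P.p ω' else 0 :=
    Finset.single_le_sum (f := fun ω' => if V ω' = V ω then P.p ω' else 0)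
      (fun ω' _ => by
        split_ifs
        · exact P.nn ω'
        · exact le_refl 0) (Finset.mem_univ ω)
  rwa [if_pos rfl] at h

/-- the fibre of `V` lies in the fibre of `W` -/
theorem pr_le {Ω : Type} [Fintype Ω] (P : FP Ω) {α β : Type} (V : Ω → α) (W : Ω → β)
    (h : Det V W) (ω : Ω) : pr P V (V ω) ≤ pr P W (W ω) := by
  unfold pr
  refine Finset.sum_le_sum fun ω' _ => ?_
  by_cases h1 : V ω' = V ω
  · rw [if_pos h1, if_pos (h ω' ω h1)]
  · rw [if_neg h1]
    split_ifs
    · exact P.nn ω'
    · exact le_refl 0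

end MDET

open MDET in
theorem t_DET : S_DET := by
  intro Ω _ P α β V W h
  unfold H ex
  refine Finset.sum_le_sum fun ω _ => ?_
  rcases (P.nn ω).eq_or_lt with h0 | h0
  · rw [← h0, zero_mul, zero_mul]
  · have h1 : 0 < pr P V (V ω) := lt_of_lt_of_le h0 (le_pr P V ω)
    exact mul_le_mul_of_nonneg_left (neg_le_neg (Real.log_le_log h1 (pr_le P V W h ω))) h0.le

end NCE
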