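import Mathlib

/-!
# Entropy calculus for the additive energy of convex sets: definitions

helper53, problem MP_f03f67_co.  Finite probability spaces are given by weights on a `Fintype`;
random variables are functions with values in an arbitrary type (in practice `ℝ`, `ℝ × ℝ`, ...).
-/

set_option autoImplicit false

open Finset
open scoped Classical

namespace NCE

/-- A finite probability space on the type `Ω`. -/
structure FP (Ω : Type) [Fintype Ω] where
  /-- the weights -/
  p : Ω → ℝ
  nn : ∀ ω, 0 ≤ p ω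
  one : ∑ ω, p ω = 1

section
variable {Ω Ω' : Type} [Fintype Ω] [Fintype Ω'] {α : Type}

/-- The probability that `X = x`. -/
noncomputable def pr (P : FP Ω) (X : Ω → α) (x : α) : ℝ := ∑ ω, if X ω = x then P.p ω else 0

/-- The expectation of `f`. -/
noncomputable def ex (P : FP Ω) (f : Ω → ℝ) : ℝ := ∑ ω, P.p ω * f ω

/-- The Shannon entropy of `X` (natural logarithm). -/
noncomputable def H (P : FP Ω) (X : Ω → α) : ℝ := ex P fun ω => - Real.log (pr P X (X ω))

/-- `X` and `X'` have the same law. -/
def SL (P : FP Ω) (X : Ω → α) (P' : FP Ω') (X' : Ω' → α) : Prop := ∀ x, pr P X x = pr P' X' x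

/-- `W` is a function of `V`. -/
def Det {β : Type} (V : Ω → α) (W : Ω → β) : Prop := ∀ ω ω', V ω = V ω' → W ω = W ω'

end

/-- The sequence `a 0 < a 1 < ... < a (n - 1)` with strictly increasing gaps. -/
def Cvx (n : ℕ) (a : ℕ → ℝ) : Prop :=
  (∀ i, i + 1 < n → a i < a (i + 1)) ∧
    ∀ i, i + 2 < n → a (i + 1) - a i < a (i + 2) - a (i + 1)

/-- The set `{a 0, ..., a (n - 1)}`. -/
noncomputable def cs (n : ℕ) (a : ℕ → ℝ) : Finset ℝ := (range n).image a

/-- The number of representations of `x` as a difference of two elements of `A`. -/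
noncomputable def rr (A : Finset ℝ) (x : ℝ) : ℕ := ((A ×ˢ A).filter fun q => q.1 - q.2 = x).card

/-- The number of `b ∈ B` with `b + c ∈ A`. -/
noncomputable def rc (A B : Finset ℝ) (c : ℝ) : ℕ := (B.filter fun b => b + c ∈ A).card

/-- The additive energy. -/
noncomputable def energy (A : Finset ℝ) : ℕ :=
  (((A ×ˢ A) ×ˢ (A ×ˢ A)).filter fun q => q.1.1 + q.1.2 = q.2.1 + q.2.2).card

/-- The values of `b` lie in a set of at most `n ^ k` elements. -/
def Sm {Ω : Type} (n k : ℕ) (b : Ω → ℝ) : Prop := ∃ B : Finset ℝ, B.card ≤ n ^ k ∧ ∀ ω, b ω ∈ B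

end NCE
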