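import Pool.Agent.NCE.Nodes

/-!
# The inequalities of the certificate (problem MP_f03f67_co)

helper53.  For every node the list of the inequalities between the entropies of its variables.
`η = ε log n + K` is the error.  The elements of the convex set `A` have entropy at most `log n`
(CNT with the trivial `V`, `A = cs n a` has at most `n` elements).
-/

set_option autoImplicit false

open Finset
open scoped Classical

namespace NCE

/-- IQ.  Node Q.  `s2`: `H y = H (b - c)`, `H (b, y) = H (b, b - c) = H (b, c)`; `s1`: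
`H (c, y) = H (b, y)`, `H b = H c`; `s3`: `H (a, b) = H (b, c)`, `H a = H c = H b`.
1: ST (or ST0) for `b' = b - c` and `c' = c` (sum `b ∈ A`; `H (b - c, c) = H (b, c)`,
   `Sm n 2 (b - c)`; or with the roles exchanged).
2: `H (a, y) ≤ H a + H y` (SUB with trivial `U`).
3: `H (a, b, y) + H b ≤ H (a, b) + H (b, y)` (SUB over `b`).
4: `H (c, y, a) + H y ≤ H (c, y) + H (y, a)` and
   `H (b, c, y, a) + H (y, a) ≤ H (b, y, a) + H (c, y, a)` (SUB), `h4`; sum.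
5: CNT. -/
def S_IQ : Prop := ∀ ε : ℝ, 0 < ε → ∃ K : ℝ, 0 ≤ K ∧ ∀ (n : ℕ) (A0 : ℕ → ℝ), 1 ≤ n → Cvx n A0 →
  ∀ (Ω : Type) [Fintype Ω] (P : FP Ω) (b c y a : Ω → ℝ), NdQ (cs n A0) P b c y a →
    3 * H P (fun ω => (b ω, c ω)) ≤
      Real.log n + 2 * H P b + 2 * H P (fun ω => b ω - c ω) + (ε * Real.log n + K) ∧
    H P (fun ω => (a ω, y ω)) ≤ H P b + H P (fun ω => b ω - c ω) ∧
    H P (fun ω => (a ω, b ω, y ω)) + H P b ≤ 2 * H P (fun ω => (b ω, c ω)) ∧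
    H P (fun ω => (b ω, c ω, y ω)) + H P (fun ω => b ω - c ω) ≤
      H P (fun ω => (a ω, b ω, y ω)) + H P b ∧
    H P b ≤ Real.log n

/-- IR.  Node R.
1: SUB over `b - b2` for `(b - y, b - b2)` and `(a - b, a - b2)`:
   `H (b - b2) + H (b - y, b - b2, a - b) ≤ H (b - y, b - b2) + H (a - b, a - b2)`;
   SUB over `(a - b, a - b2)`:
   `H (a - b, a - b2) + H (a, b, y, b2) ≤ H (a, b, b2) + H (b - y, b - b2, a - b)`; sum, and
   `3 H (b - y, b - b2) ≤ log n + 2 H (b - y) + 2 H (b - b2) + η` (ST0 with `b' = b - y`,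
   `c' = - (b - b2)`, sum `b2 - y ∈ A`), `h1`.
2: E3T for `(a, b, b2)` (and DET: `(a - b, b - b2)` and `(a - b, a - b2)`). -/
def S_IR : Prop := ∀ ε : ℝ, 0 < ε → ∃ K : ℝ, 0 ≤ K ∧ ∀ (n : ℕ) (A0 : ℕ → ℝ), 1 ≤ n → Cvx n A0 →
  ∀ (Ω : Type) [Fintype Ω] (P : FP Ω) (a b y b2 : Ω → ℝ), NdR (cs n A0) P a b y b2 →
    3 * (H P (fun ω => b ω - b2 ω) + 2 * H P (fun ω => (a ω, b ω, y ω)) -
        H P (fun ω => (a ω, y ω))) ≤
      Real.log n + 2 * H P (fun ω => b ω - y ω) + 2 * H P (fun ω => b ω - b2 ω) +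
        3 * H P (fun ω => (a ω, b ω, b2 ω)) + (ε * Real.log n + K) ∧
    2 * H P (fun ω => (a ω, b ω, b2 ω)) ≤
      3 * Real.log n + H P (fun ω => (a ω - b ω, a ω - b2 ω)) + (ε * Real.log n + K)

/-- IW.  Node W; `f = g + b2 - a`, `h = g - a + b`.
1: ST0 for `(b - b2, f)`, the sum is `h ∈ A` (`Sm n 2 (b - b2)`).
2: SUB over `(a - b, a - b2)` for `(a, b, b2)` and `(f, g, h)` (it determines
   `g, a - b, a - b2`), with `h1`. -/
def S_IW : Prop := ∀ ε : ℝ, 0 < ε → ∃ K : ℝ, 0 ≤ K ∧ ∀ (n : ℕ) (A0 : ℕ → ℝ), 1 ≤ n → Cvx n A0 →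
  ∀ (Ω : Type) [Fintype Ω] (P : FP Ω) (a b b2 g : Ω → ℝ), NdW (cs n A0) P a b b2 g →
    3 * H P (fun ω => (b ω - b2 ω, g ω + b2 ω - a ω)) ≤
      Real.log n + 2 * H P (fun ω => b ω - b2 ω) + 2 * H P (fun ω => g ω + b2 ω - a ω) +
        (ε * Real.log n + K) ∧
    H P (fun ω => (a ω - b ω, a ω - b2 ω)) + lvl (cs n A0) P (fun ω => a ω - b ω) ≤
      H P (fun ω => (g ω + b2 ω - a ω, g ω, g ω - a ω + b ω))

/-- IXS.  Node X, the submodular inequalities (all are SUB, with DET and SLF for `s1`, and CNT for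
`H A ≤ log n`); `k = d + h - f`.
1: `H g ≤ log n`.
2: `H (g, d - f + g) ≤ H g + log n`, and `(g, d - f + g)` and `(g, f - d)` determine each other.
3: over `f`: `(f, h)`, `(f, d)`.
4: over `f`: `(f, h)`, `(f, g - e)`.
5: over `k`: `(k, f - d)` and `(h - f, k)` determine `(f, h, d)`: `k + (f - d) = h`.
6: over `f - d`: `(g, f - d)`, `(e, f - d)` (same entropy by `s1`).
7: over `g - e`: `(g, e)`, `(f - g, f - e)`.
8: over `(g, e)`: `(g, h, e)`, `(g, e, f - d)`.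
9: over `(k, f - d)` (which determines `h`): `(g, h, f - d)`, `(f, h, d)`.
10: over `(f - g, f - e)`: `(f - g, f - e, f - h)`, `(f - g, f - e, d)`.
11: over `(f, g - e)`: `(f, g, e)`, `(f, h, g - e)`.
12: over `(g, h, f - d)`: `(f, g, h, d)`, `(g, h, e, f - d)`.
13: over `(f - g, f - e, f - h)`: `(f, g, h, e)`, `(f - g, f - e, f - h, d)`. -/
def S_IXS : Prop := ∀ (n : ℕ) (A0 : ℕ → ℝ), 1 ≤ n → Cvx n A0 →
  ∀ (Ω : Type) [Fintype Ω] (P : FP Ω) (f g h d e : Ω → ℝ), NdX (cs n A0) P f g h d e →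
    H P g ≤ Real.log n ∧
    H P (fun ω => (g ω, f ω - d ω)) ≤ H P g + Real.log n ∧
    H P f + H P (fun ω => (f ω, h ω, d ω)) ≤
      H P (fun ω => (f ω, h ω)) + H P (fun ω => (f ω, d ω)) ∧
    H P f + H P (fun ω => (f ω, h ω, g ω - e ω)) ≤
      H P (fun ω => (f ω, h ω)) + H P (fun ω => (f ω, g ω - e ω)) ∧
    H P (fun ω => d ω + h ω - f ω) + H P (fun ω => (f ω, h ω, d ω)) ≤
      H P (fun ω => (d ω + h ω - f ω, f ω - d ω)) +
      H P (fun ω => (h ω - f ω, d ω + h ω - f ω)) ∧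
    H P (fun ω => f ω - d ω) + H P (fun ω => (g ω, e ω, f ω - d ω)) ≤
      2 * H P (fun ω => (g ω, f ω - d ω)) ∧
    H P (fun ω => g ω - e ω) + H P (fun ω => (f ω, g ω, e ω)) ≤
      H P (fun ω => (g ω, e ω)) + H P (fun ω => (f ω - g ω, f ω - e ω)) ∧
    H P (fun ω => (g ω, e ω)) + H P (fun ω => (g ω, h ω, e ω, f ω - d ω)) ≤
      H P (fun ω => (h ω, g ω, e ω)) + H P (fun ω => (g ω, e ω, f ω - d ω)) ∧
    H P (fun ω => (d ω + h ω - f ω, f ω - d ω)) + H P (fun ω => (f ω, g ω, h ω, d ω)) ≤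
      H P (fun ω => (g ω, h ω, f ω - d ω)) + H P (fun ω => (f ω, h ω, d ω)) ∧
    H P (fun ω => (f ω - g ω, f ω - e ω)) +
        H P (fun ω => (f ω - g ω, f ω - e ω, f ω - h ω, d ω)) ≤
      H P (fun ω => (f ω - g ω, f ω - e ω, f ω - h ω)) +
      H P (fun ω => (f ω - g ω, f ω - e ω, d ω)) ∧
    H P (fun ω => (f ω, g ω - e ω)) + H P (fun ω => (f ω, g ω, h ω, e ω)) ≤
      H P (fun ω => (f ω, g ω, e ω)) + H P (fun ω => (f ω, h ω, g ω - e ω)) ∧
    H P (fun ω => (g ω, h ω, f ω - d ω)) + H P (fun ω => (f ω, g ω, h ω, d ω, e ω)) ≤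
      H P (fun ω => (f ω, g ω, h ω, d ω)) + H P (fun ω => (g ω, h ω, e ω, f ω - d ω)) ∧
    H P (fun ω => (f ω - g ω, f ω - e ω, f ω - h ω)) +
        H P (fun ω => (f ω, g ω, h ω, d ω, e ω)) ≤
      H P (fun ω => (f ω, g ω, h ω, e ω)) +
      H P (fun ω => (f ω - g ω, f ω - e ω, f ω - h ω, d ω))

/-- IXT.  Node X, the inequalities that use convexity; `k = d + h - f`.  All the variables are
signed sums of few elements of `A` (`f = g + d - d'` with `d' = d - f + g ∈ A`), so the conditions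
`Sm n k` (say with `k = 8`) hold pointwise.
1: ST0 for `(- (h - f), k)`, the sum is `d ∈ A`.
2: ST0 for `(f, - (f - d))`, the sum is `d ∈ A`; `(f, f - d)` and `(f, d)` determine each other.
3: ST0 for `(k, f - d)`, the sum is `h ∈ A`.
4: E3T for `(d, d - f + g, d - f + e)` (differences `f - g`, `g - e`; DET).
5: SCH for `c = g - e`, `s = h - e` (`s - c = h - g`), and `H (h - e) = H (h - g)` by `s1`;
   `(g - e, h - e)` and `(h - g, h - e)` determine each other.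
6: SCH for `c = g - e`, `s = f - e` (`s - c = f - g = d - (d - f + g)`, a difference of `A`), and
   `H (f - e) = H (f - g)` by `s1`. -/
def S_IXT : Prop := ∀ ε : ℝ, 0 < ε → ∃ K : ℝ, 0 ≤ K ∧ ∀ (n : ℕ) (A0 : ℕ → ℝ), 1 ≤ n → Cvx n A0 →
  ∀ (Ω : Type) [Fintype Ω] (P : FP Ω) (f g h d e : Ω → ℝ), NdX (cs n A0) P f g h d e →
    3 * H P (fun ω => (h ω - f ω, d ω + h ω - f ω)) ≤
      Real.log n + 2 * H P (fun ω => h ω - f ω) + 2 * H P (fun ω => d ω + h ω - f ω) +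
        (ε * Real.log n + K) ∧
    3 * H P (fun ω => (f ω, d ω)) ≤
      Real.log n + 2 * H P f + 2 * H P (fun ω => f ω - d ω) + (ε * Real.log n + K) ∧
    3 * H P (fun ω => (d ω + h ω - f ω, f ω - d ω)) ≤
      Real.log n + 2 * H P (fun ω => d ω + h ω - f ω) + 2 * H P (fun ω => f ω - d ω) +
        (ε * Real.log n + K) ∧
    2 * H P (fun ω => (f ω - g ω, f ω - e ω, d ω)) ≤
      3 * Real.log n + H P (fun ω => (f ω - g ω, f ω - e ω)) + (ε * Real.log n + K) ∧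
    H P (fun ω => (h ω - g ω, h ω - e ω)) + lvl (cs n A0) P (fun ω => h ω - g ω) ≤
      Real.log n + (5 / 6) * H P (fun ω => g ω - e ω) + (2 / 3) * H P (fun ω => h ω - g ω) +
        (ε * Real.log n + K) ∧
    H P (fun ω => (f ω - g ω, f ω - e ω)) + lvl (cs n A0) P (fun ω => f ω - g ω) ≤
      Real.log n + (5 / 6) * H P (fun ω => g ω - e ω) + (2 / 3) * H P (fun ω => f ω - g ω) +
        (ε * Real.log n + K)

/-- IE.  Node E.
1: ST for `Z = g`, `b' = e`, `c' = z` (sum `e + z ∈ A`).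
2: SUB over `g - e` for `(g, e)` and `(g + z, e + z)`; same entropy by `s1`.
3: SUB over `z`.
4: SUB over `(g, z)` for `(h, g, z)` and `(g, e, z)`.
5, 6: LEV for `Z = z` (`g + z` and `(g + z) - z = g` are in `A`; DET).
7: G3. -/
def S_IE : Prop := ∀ ε : ℝ, 0 < ε → ∃ K : ℝ, 0 ≤ K ∧ ∀ (n : ℕ) (A0 : ℕ → ℝ), 1 ≤ n → Cvx n A0 →
  ∀ (Ω : Type) [Fintype Ω] (P : FP Ω) (h g e z : Ω → ℝ), NdE (cs n A0) P h g e z →
    3 * H P (fun ω => (g ω, e ω, z ω)) + H P g ≤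
      Real.log n + 2 * H P (fun ω => (g ω, e ω)) + 2 * H P (fun ω => (g ω, z ω)) +
        (ε * Real.log n + K) ∧
    H P (fun ω => g ω - e ω) + H P (fun ω => (g ω, e ω, z ω)) ≤
      2 * H P (fun ω => (g ω, e ω)) ∧
    H P z + H P (fun ω => (h ω, g ω, z ω)) ≤
      H P (fun ω => (g ω, z ω)) + H P (fun ω => (h ω, z ω)) ∧
    H P (fun ω => (g ω, z ω)) + H P (fun ω => (h ω, g ω, e ω, z ω)) ≤
      H P (fun ω => (h ω, g ω, z ω)) + H P (fun ω => (g ω, e ω, z ω)) ∧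
    H P (fun ω => (g ω, z ω)) ≤ H P z + lvl (cs n A0) P z ∧
    H P (fun ω => (h ω, z ω)) ≤ H P z + lvl (cs n A0) P z ∧
    H P z + 3 * lvl (cs n A0) P z ≤ 3 * Real.log n + (ε * Real.log n + K)

/-- MAIN.  The bound for the energy: `E(A) ≤ exp K * n ^ (214 / 87 + ε)` in logarithmic form.
Proof: take the nodes Q, R, W, X, E (NQ, NR, NW, NX, NE; `cs n A0` is nonempty).  Identify by SLF
(and DET), with `v0 = H b`, `v1 = H (b - c)`, `v2 = H (b, c)`, `l = lvl (b - c)` of node Q: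
in Q, `H (b - y) = v0` (`s2`: `(b - y) ~ c`, `s1`: `c ~ b`), `a - b ~ c - b` (`s3`), hence
`lvl (a - b) = l` (`rr A (- x) = rr A x`) and `H (a - b) = v1`;
in R the same for `a - b`, `b - y`, and `a - b2 ~ a - b` (`s1`);
in W `H (a, b, b2)`, `H (a - b, a - b2)`, `H (b - b2)`, `lvl (a - b) = lvl (b2 - a) = l` as in R;
in X `(f, g, h) ~ (g + b2 - a, g, g - a + b)` of W: `f - g ~ b2 - a`, `h - g ~ b - a`,
`h - f ~ b - b2` (so `H (f - g) = H (h - g) = v1`, both levels are `l`),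
`H (f, h) = H (b - b2, g + b2 - a)` of W (DET);
in E `(h, g, e)` as in X.
Then with `L = log n` add the inequalities with the multipliers
IQ1: 17/87, h2 of NdQ (`H (b, c, y) = v2 + l`): 9/29, IQ2: 8/29, IQ3: 4/29, IQ4: 20/29,
IQ5: 122/87, IR1: 8/87, IR2: 4/29, IW1: 4/261, IW2: 4/29, IXS1: 5/58, IXS2: 8/87, IXS3: 2/87,
IXS4: 2/87, IXS5: 8/87, IXS6: 4/87, IXS7: 2/87, IXS8: 4/87, IXS9: 4/87, IXS10: 2/87, IXS11: 2/87,
IXS12: 4/87, IXS13: 2/87, h1 of NdX: 4/29, h2 of NdX: 2/29, IXT1: 8/261, IXT2: 2/261,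
IXT3: 4/261, IXT4: 1/87, IXT5: 2/87, IXT6: 1/87, IE1: 1/174, IE2: 1/174, IE3: 2/87, IE4: 2/87,
IE5: 1/87, IE6: 2/87, IE7: 1/87, h1 of NdE: 2/87
(for example by `linarith`): the sum is exactly `log E ≤ (214 / 87) L + η'`, where `η'` is the sum
of the errors with multipliers of sum `< 0.56`; so use every inequality with this `ε` and take for
`K` the sum of the constants. -/
def S_MAIN : Prop := ∀ ε : ℝ, 0 < ε → ∃ K : ℝ, 0 ≤ K ∧
  ∀ (n : ℕ) (A0 : ℕ → ℝ), 1 ≤ n → Cvx n A0 →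
    Real.log (energy (cs n A0)) ≤ (214 / 87 + ε) * Real.log n + K

end NCE
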