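import Pool.Agent.NCE.Stmts

/-!
# The nodes of the certificate (problem MP_f03f67_co)

helper53.  A node is a finite probability space with real random variables; `A` is the convex set.
Every node is obtained from the previous one by gluing or by a fresh representation.
`e = log E(A)`; the certificate is a linear combination of the inequalities `IQ ... IE`.
-/

set_option autoImplicit false

open Finset
open scoped Classical

namespace NCE

/-- The level of `z`: the expectation of `log r(z)`. -/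
noncomputable def lvl {Ω : Type} [Fintype Ω] (A : Finset ℝ) (P : FP Ω) (z : Ω → ℝ) : ℝ :=
  ex P fun ω => Real.log (rr A (z ω))

/-- Node Q: a uniform random quadruple `(b, c, b - y, c - y)` and a further element `a`, glued over
`b`. -/
structure NdQ {Ω : Type} [Fintype Ω] (A : Finset ℝ) (P : FP Ω) (b c y a : Ω → ℝ) : Prop where
  m1 : ∀ ω, b ω ∈ A
  m2 : ∀ ω, c ω ∈ A
  m3 : ∀ ω, b ω - y ω ∈ A
  m4 : ∀ ω, c ω - y ω ∈ A
  m5 : ∀ ω, a ω ∈ A
  s1 : SL P (fun ω => (b ω, c ω, y ω)) P (fun ω => (c ω, b ω, y ω))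
  s2 : SL P (fun ω => (b ω, c ω, y ω)) P (fun ω => (b ω, b ω - y ω, b ω - c ω))
  s3 : SL P (fun ω => (b ω, a ω)) P (fun ω => (b ω, c ω))
  h1 : H P (fun ω => (b ω, c ω, y ω)) = Real.log (energy A)
  h2 : H P (fun ω => (b ω, c ω, y ω)) = H P (fun ω => (b ω, c ω)) + lvl A P (fun ω => b ω - c ω)
  h3 : H P (fun ω => (b ω, c ω)) = H P (fun ω => b ω - c ω) + lvl A P (fun ω => b ω - c ω)
  h4 : H P (fun ω => (b ω, c ω, y ω, a ω)) =
    H P (fun ω => (b ω, c ω, y ω)) + H P (fun ω => (b ω, c ω)) - H P b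

/-- Node R: two copies of `(a, b, y)` glued over `(a, y)`. -/
structure NdR {Ω : Type} [Fintype Ω] (A : Finset ℝ) (P : FP Ω) (a b y b2 : Ω → ℝ) : Prop where
  m1 : ∀ ω, a ω ∈ A
  m2 : ∀ ω, b ω ∈ A
  m3 : ∀ ω, b2 ω ∈ A
  m4 : ∀ ω, b ω - y ω ∈ A
  m5 : ∀ ω, b2 ω - y ω ∈ A
  s1 : SL P (fun ω => (a ω, b ω, y ω, b2 ω)) P (fun ω => (a ω, b2 ω, y ω, b ω))
  h1 : H P (fun ω => (a ω, b ω, y ω, b2 ω)) =
    2 * H P (fun ω => (a ω, b ω, y ω)) - H P (fun ω => (a ω, y ω))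

/-- Node W: `(a, b, b2)` and a fresh representation `g - h` of `a - b`, `h = g - a + b`;
`f = g + b2 - a` (so `f - g = b2 - a`, `f - h = b2 - b`, `g - h = a - b`). -/
structure NdW {Ω : Type} [Fintype Ω] (A : Finset ℝ) (P : FP Ω) (a b b2 g : Ω → ℝ) : Prop where
  m1 : ∀ ω, a ω ∈ A
  m2 : ∀ ω, b ω ∈ A
  m3 : ∀ ω, b2 ω ∈ A
  m4 : ∀ ω, g ω ∈ A
  m5 : ∀ ω, g ω - a ω + b ω ∈ A
  h1 : H P (fun ω => (a ω, b ω, b2 ω, g ω)) =
    H P (fun ω => (a ω, b ω, b2 ω)) + lvl A P (fun ω => a ω - b ω)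

/-- Node X: `(f, g, h)` (from node W), a fresh representation `f - g = d - (d - f + g)`, and two
copies of this glued over `(f, h, d)` (the copy of `g` is `e`). -/
structure NdX {Ω : Type} [Fintype Ω] (A : Finset ℝ) (P : FP Ω) (f g h d e : Ω → ℝ) : Prop where
  m1 : ∀ ω, g ω ∈ A
  m2 : ∀ ω, h ω ∈ A
  m3 : ∀ ω, e ω ∈ A
  m4 : ∀ ω, d ω ∈ A
  m5 : ∀ ω, d ω - f ω + g ω ∈ A
  m6 : ∀ ω, d ω - f ω + e ω ∈ A
  s1 : SL P (fun ω => (f ω, g ω, h ω, d ω, e ω)) P (fun ω => (f ω, e ω, h ω, d ω, g ω))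
  h1 : H P (fun ω => (f ω, g ω, h ω, d ω)) =
    H P (fun ω => (f ω, g ω, h ω)) + lvl A P (fun ω => f ω - g ω)
  h2 : H P (fun ω => (f ω, g ω, h ω, d ω, e ω)) =
    2 * H P (fun ω => (f ω, g ω, h ω, d ω)) - H P (fun ω => (f ω, h ω, d ω))

/-- Node E: two copies of `(h, g, e)` glued over `(h - g, h - e)`; the second copy is the
translate by `z`. -/
structure NdE {Ω : Type} [Fintype Ω] (A : Finset ℝ) (P : FP Ω) (h g e z : Ω → ℝ) : Prop where
  m1 : ∀ ω, h ω ∈ A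
  m2 : ∀ ω, g ω ∈ A
  m3 : ∀ ω, e ω ∈ A
  m4 : ∀ ω, h ω + z ω ∈ A
  m5 : ∀ ω, g ω + z ω ∈ A
  m6 : ∀ ω, e ω + z ω ∈ A
  s1 : SL P (fun ω => (h ω, g ω, e ω, z ω)) P (fun ω => (h ω + z ω, g ω + z ω, e ω + z ω, - z ω))
  h1 : H P (fun ω => (h ω, g ω, e ω, z ω)) =
    2 * H P (fun ω => (h ω, g ω, e ω)) - H P (fun ω => (h ω - g ω, h ω - e ω))

/-- NQ.  Existence of node Q.
Proof: QUA gives `(b, c, y)`; glue (GLU) its space with itself over `Y₁ = b`, `Y₂ = b`; `a` is the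
element `c` of the second copy.  `h4` is the entropy formula of GLU with `X₁ = (b, c, y)`,
`X₂ = (b, c)` (and DET); everything else is transferred by SLF from `SL P π₁ P₁ id`
(`s3` from `SL P π₂ P₁ id` and `SL P π₁ P₁ id`). -/
def S_NQ : Prop := ∀ A : Finset ℝ, A.Nonempty →
  ∃ (Ω : Type) (_ : Fintype Ω) (P : FP Ω) (b c y a : Ω → ℝ), NdQ A P b c y a

/-- NR.  Existence of node R.  Proof: SGL for `Y = (a, y)`; `b2` is the `b` of the second copy. -/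
def S_NR : Prop := ∀ (A : Finset ℝ) (Ω : Type) [Fintype Ω] (P : FP Ω) (b c y a : Ω → ℝ),
  NdQ A P b c y a →
  ∃ (Ω' : Type) (_ : Fintype Ω') (P' : FP Ω') (a' b' y' b2' : Ω' → ℝ), NdR A P' a' b' y' b2' ∧
    SL P' (fun ω => (a' ω, b' ω, y' ω)) P (fun ω => (a ω, b ω, y ω))

/-- NW.  Existence of node W.  Proof: FRE for `z = a - b`. -/
def S_NW : Prop := ∀ (A : Finset ℝ) (Ω : Type) [Fintype Ω] (P : FP Ω) (a b y b2 : Ω → ℝ),
  NdR A P a b y b2 →
  ∃ (Ω' : Type) (_ : Fintype Ω') (P' : FP Ω') (a' b' b2' g' : Ω' → ℝ), NdW A P' a' b' b2' g' ∧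
    SL P' (fun ω => (a' ω, b' ω, b2' ω)) P (fun ω => (a ω, b ω, b2 ω))

/-- NX.  Existence of node X.  Proof: FRE for `z = f - g = b2 - a` gives `d`; then SGL for
`Y = (f, h, d)`; `e` is the `g` of the second copy.  `m6`: in the second copy
`d - f + g ∈ A` and `d, f` are the same as in the first. -/
def S_NX : Prop := ∀ (A : Finset ℝ) (Ω : Type) [Fintype Ω] (P : FP Ω) (a b b2 g : Ω → ℝ),
  NdW A P a b b2 g →
  ∃ (Ω' : Type) (_ : Fintype Ω') (P' : FP Ω') (f' g' h' d' e' : Ω' → ℝ),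
    NdX A P' f' g' h' d' e' ∧
    SL P' (fun ω => (f' ω, g' ω, h' ω)) P (fun ω => (g ω + b2 ω - a ω, g ω, g ω - a ω + b ω))

/-- NE.  Existence of node E.  Proof: SGL for `Y = (h - g, h - e)`; `z` is the `g` of the second
copy minus the `g` of the first. -/
def S_NE : Prop := ∀ (A : Finset ℝ) (Ω : Type) [Fintype Ω] (P : FP Ω) (f g h d e : Ω → ℝ),
  NdX A P f g h d e →
  ∃ (Ω' : Type) (_ : Fintype Ω') (P' : FP Ω') (h' g' e' z' : Ω' → ℝ), NdE A P' h' g' e' z' ∧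
    SL P' (fun ω => (h' ω, g' ω, e' ω)) P (fun ω => (h ω, g ω, e ω))

end NCE
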