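import Pool.Agent.NCE.Stmts

/-!
# QUA: a uniform random additive quadruple
-/

set_option autoImplicit false

open Finset
open scoped Classical

namespace NCE

namespace MQUA

/-- the additive quadruples `(b, c', b', c)` -/
noncomputable def quad (A : Finset ℝ) : Finset ((ℝ × ℝ) × (ℝ × ℝ)) :=
  ((A ×ˢ A) ×ˢ (A ×ˢ A)).filter fun q => q.1.1 + q.1.2 = q.2.1 + q.2.2

lemma energy_eq (A : Finset ℝ) : energy A = (quad A).card := rfl

lemma mem_quad (A : Finset ℝ) (q : (ℝ × ℝ) × (ℝ × ℝ)) :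
    q ∈ quad A ↔ ((q.1.1 ∈ A ∧ q.1.2 ∈ A) ∧ (q.2.1 ∈ A ∧ q.2.2 ∈ A)) ∧
      q.1.1 + q.1.2 = q.2.1 + q.2.2 := by
  unfold quad
  rw [mem_filter, mem_product, mem_product, mem_product]

/-- the space -/
abbrev Om (A : Finset ℝ) : Type := {q : (ℝ × ℝ) × (ℝ × ℝ) // q ∈ quad A}

/-- the uniform law -/
noncomputable def uni (Ω : Type) [Fintype Ω] (h : 0 < Fintype.card Ω) : FP Ω where
  p := fun _ => 1 / (Fintype.card Ω : ℝ)
  nn := fun _ => by positivity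
  one := by
    rw [sum_const, card_univ, nsmul_eq_mul, mul_one_div_cancel]
    exact_mod_cast h.ne'

section
variable {Ω : Type} [Fintype Ω] (h : 0 < Fintype.card Ω) {α : Type}

lemma pr_uni (X : Ω → α) (x : α) :
    pr (uni Ω h) X x = ((univ.filter fun ω => X ω = x).card : ℝ) / (Fintype.card Ω : ℝ) := by
  unfold pr uni
  rw [← sum_filter, sum_const, nsmul_eq_mul, mul_one_div]

lemma sl_uni (X X' : Ω → α) (e : Ω ≃ Ω) (he : ∀ ω, X' ω = X (e ω)) :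
    SL (uni Ω h) X (uni Ω h) X' := by
  intro x
  unfold pr uni
  simp only [he]
  exact (Equiv.sum_comp e fun ω => if X ω = x then 1 / (Fintype.card Ω : ℝ) else 0).symm

lemma ex_const (P : FP Ω) (c : ℝ) : ex P (fun _ => c) = c := by
  unfold ex
  rw [← sum_mul, P.one, one_mul]

lemma ex_sub (P : FP Ω) (f g : Ω → ℝ) : ex P (fun ω => f ω - g ω) = ex P f - ex P g := by
  unfold ex
  rw [← sum_sub_distrib]
  exact sum_congr rfl fun _ _ => mul_sub _ _ _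

lemma ex_mul (P : FP Ω) (c : ℝ) (f : Ω → ℝ) : ex P (fun ω => c * f ω) = c * ex P f := by
  unfold ex
  rw [mul_sum]
  exact sum_congr rfl fun _ _ => by ring

lemma H_uni (X : Ω → α) (f : Ω → ℕ) (k : ℕ) (hf : ∀ ω, 0 < f ω)
    (hX : ∀ ω, (univ.filter fun ω' => X ω' = X ω).card = f ω ^ k) :
    H (uni Ω h) X = Real.log (Fintype.card Ω) -
      k * ex (uni Ω h) (fun ω => Real.log (f ω)) := by
  have h1 : H (uni Ω h) X = ex (uni Ω h)
      (fun ω => Real.log (Fintype.card Ω) - (k : ℝ) * Real.log (f ω)) := by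
    unfold H
    congr 1
    funext ω
    rw [pr_uni, hX ω]
    have h2 : (0 : ℝ) < f ω := by exact_mod_cast hf ω
    have h3 : (0 : ℝ) < Fintype.card Ω := by exact_mod_cast h
    push_cast
    rw [Real.log_div (pow_pos h2 k).ne' h3.ne', Real.log_pow]
    ring
  rw [h1, ex_sub, ex_const, ex_mul]

end

section
variable (A : Finset ℝ)

/-- first exchange -/
def e1 : Om A ≃ Om A where
  toFun q := ⟨((q.1.2.2, q.1.2.1), (q.1.1.2, q.1.1.1)), by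
    have h := (mem_quad A q.1).1 q.2
    rw [mem_quad]
    refine ⟨⟨⟨h.1.2.2, h.1.2.1⟩, ⟨h.1.1.2, h.1.1.1⟩⟩, ?_⟩
    have h2 := h.2
    simp only
    linarith⟩
  invFun q := ⟨((q.1.2.2, q.1.2.1), (q.1.1.2, q.1.1.1)), by
    have h := (mem_quad A q.1).1 q.2
    rw [mem_quad]
    refine ⟨⟨⟨h.1.2.2, h.1.2.1⟩, ⟨h.1.1.2, h.1.1.1⟩⟩, ?_⟩
    have h2 := h.2
    simp only
    linarith⟩
  left_inv q := rfl
  right_inv q := rfl

/-- second exchange -/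
def e2 : Om A ≃ Om A where
  toFun q := ⟨((q.1.1.1, q.1.1.2), (q.1.2.2, q.1.2.1)), by
    have h := (mem_quad A q.1).1 q.2
    rw [mem_quad]
    refine ⟨⟨⟨h.1.1.1, h.1.1.2⟩, ⟨h.1.2.2, h.1.2.1⟩⟩, ?_⟩
    have h2 := h.2
    simp only
    linarith⟩
  invFun q := ⟨((q.1.1.1, q.1.1.2), (q.1.2.2, q.1.2.1)), by
    have h := (mem_quad A q.1).1 q.2
    rw [mem_quad]
    refine ⟨⟨⟨h.1.1.1, h.1.1.2⟩, ⟨h.1.2.2, h.1.2.1⟩⟩, ?_⟩
    have h2 := h.2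
    simp only
    linarith⟩
  left_inv q := rfl
  right_inv q := rfl

lemma card_bc (ω : Om A) :
    (univ.filter fun ω' : Om A => (ω'.1.1.1, ω'.1.2.2) = (ω.1.1.1, ω.1.2.2)).card =
      rr A (ω.1.1.1 - ω.1.2.2) := by
  have hω := (mem_quad A ω.1).1 ω.2
  unfold rr
  refine card_bij (fun ω' _ => (ω'.1.2.1, ω'.1.1.2)) ?_ ?_ ?_
  · intro ω' h'
    rw [mem_filter, Prod.mk.injEq] at h'
    obtain ⟨-, h1, h2⟩ := h'
    have h := (mem_quad A ω'.1).1 ω'.2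
    rw [mem_filter, mem_product]
    refine ⟨⟨h.1.2.1, h.1.1.2⟩, ?_⟩
    have h3 := h.2
    simp only
    rw [← h1, ← h2]
    linarith
  · intro x hx y hy hxy
    rw [mem_filter, Prod.mk.injEq] at hx hy
    rw [Prod.mk.injEq] at hxy
    apply Subtype.ext
    refine Prod.ext (Prod.ext ?_ hxy.2) (Prod.ext hxy.1 ?_)
    · rw [hx.2.1, hy.2.1]
    · rw [hx.2.2, hy.2.2]
  · intro z hz
    rw [mem_filter, mem_product] at hz
    refine ⟨⟨((ω.1.1.1, z.2), (z.1, ω.1.2.2)), ?_⟩, ?_, rfl⟩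
    · rw [mem_quad]
      refine ⟨⟨⟨hω.1.1.1, hz.1.2⟩, ⟨hz.1.1, hω.1.2.2⟩⟩, ?_⟩
      have h1 := hz.2
      simp only
      linarith
    · rw [mem_filter]
      exact ⟨mem_univ _, rfl⟩

lemma card_d (ω : Om A) :
    (univ.filter fun ω' : Om A => ω'.1.1.1 - ω'.1.2.2 = ω.1.1.1 - ω.1.2.2).card =
      rr A (ω.1.1.1 - ω.1.2.2) ^ 2 := by
  have h0 : rr A (ω.1.1.1 - ω.1.2.2) ^ 2 =
      ((((A ×ˢ A).filter fun q => q.1 - q.2 = ω.1.1.1 - ω.1.2.2) ×ˢ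
        ((A ×ˢ A).filter fun q => q.1 - q.2 = ω.1.1.1 - ω.1.2.2))).card := by
    rw [card_product, sq]
    rfl
  rw [h0]
  refine card_bij (fun ω' _ => ((ω'.1.1.1, ω'.1.2.2), (ω'.1.2.1, ω'.1.1.2))) ?_ ?_ ?_
  · intro ω' h'
    rw [mem_filter] at h'
    obtain ⟨-, h1⟩ := h'
    have h := (mem_quad A ω'.1).1 ω'.2
    rw [mem_product, mem_filter, mem_filter, mem_product, mem_product]
    refine ⟨⟨⟨h.1.1.1, h.1.2.2⟩, h1⟩, ⟨h.1.2.1, h.1.1.2⟩, ?_⟩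
    have h3 := h.2
    simp only
    rw [← h1]
    linarith
  · intro x hx y hy hxy
    rw [Prod.mk.injEq, Prod.mk.injEq, Prod.mk.injEq] at hxy
    apply Subtype.ext
    exact Prod.ext (Prod.ext hxy.1.1 hxy.2.2) (Prod.ext hxy.2.1 hxy.1.2)
  · intro z hz
    rw [mem_product, mem_filter, mem_filter, mem_product, mem_product] at hz
    refine ⟨⟨((z.1.1, z.2.2), (z.2.1, z.1.2)), ?_⟩, ?_, rfl⟩
    · rw [mem_quad]
      refine ⟨⟨⟨hz.1.1.1, hz.2.1.2⟩, ⟨hz.2.1.1, hz.1.1.2⟩⟩, ?_⟩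
      have h1 := hz.1.2
      have h2 := hz.2.2
      simp only
      linarith
    · rw [mem_filter]
      exact ⟨mem_univ _, hz.1.2⟩

lemma rr_pos (ω : Om A) : 0 < rr A (ω.1.1.1 - ω.1.2.2) := by
  have hω := (mem_quad A ω.1).1 ω.2
  unfold rr
  refine card_pos.2 ⟨(ω.1.1.1, ω.1.2.2), ?_⟩
  rw [mem_filter, mem_product]
  exact ⟨⟨hω.1.1.1, hω.1.2.2⟩, rfl⟩

lemma card_bcy (ω : Om A) :
    (univ.filter fun ω' : Om A => (ω'.1.1.1, ω'.1.2.2, ω'.1.1.1 - ω'.1.2.1) =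
      (ω.1.1.1, ω.1.2.2, ω.1.1.1 - ω.1.2.1)).card = 1 ^ 1 := by
  rw [one_pow, card_eq_one]
  refine ⟨ω, ?_⟩
  ext ω'
  rw [mem_filter, mem_singleton, Prod.mk.injEq, Prod.mk.injEq]
  constructor
  · rintro ⟨-, h1, h2, h3⟩
    have h := (mem_quad A ω'.1).1 ω'.2
    have hω := (mem_quad A ω.1).1 ω.2
    have h4 : ω'.1.2.1 = ω.1.2.1 := by linarith
    have h5 : ω'.1.1.2 = ω.1.1.2 := by linarith [h.2, hω.2]
    apply Subtype.ext
    exact Prod.ext (Prod.ext h1 h5) (Prod.ext h4 h2)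
  · rintro rfl
    exact ⟨mem_univ _, rfl, rfl, rfl⟩

end

end MQUA

open MQUA in
theorem t_QUA (_hSLF : S_SLF) : S_QUA := by
  intro A hA
  obtain ⟨a, ha⟩ := hA
  have hcard : 0 < Fintype.card (Om A) := by
    refine Fintype.card_pos_iff.2 ⟨⟨((a, a), (a, a)), ?_⟩⟩
    rw [mem_quad]
    exact ⟨⟨⟨ha, ha⟩, ⟨ha, ha⟩⟩, rfl⟩
  have hE : (Fintype.card (Om A) : ℝ) = energy A := by
    rw [energy_eq, Fintype.card_coe]
  have H3 := H_uni hcard (fun ω : Om A => (ω.1.1.1, ω.1.2.2, ω.1.1.1 - ω.1.2.1)) (fun _ => 1) 1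
    (fun _ => one_pos) (fun ω => by convert card_bcy A ω)
  have H2 := H_uni hcard (fun ω : Om A => (ω.1.1.1, ω.1.2.2))
    (fun ω => rr A (ω.1.1.1 - ω.1.2.2)) 1 (rr_pos A) (fun ω => by
      rw [pow_one]
      convert card_bc A ω)
  have H1 := H_uni hcard (fun ω : Om A => ω.1.1.1 - ω.1.2.2)
    (fun ω => rr A (ω.1.1.1 - ω.1.2.2)) 2 (rr_pos A) (card_d A)
  have h3 : ex (uni (Om A) hcard) (fun _ : Om A => Real.log ((1 : ℕ) : ℝ)) = 0 := by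
    rw [ex_const, Nat.cast_one, Real.log_one]
  rw [h3, mul_zero, sub_zero] at H3
  rw [Nat.cast_one, one_mul] at H2
  push_cast at H1
  refine ⟨Om A, inferInstance, uni (Om A) hcard, fun ω => ω.1.1.1, fun ω => ω.1.2.2,
    fun ω => ω.1.1.1 - ω.1.2.1, ?_, ?_, ?_, ?_, ?_, ?_⟩
  · intro ω
    have h := (mem_quad A ω.1).1 ω.2
    refine ⟨h.1.1.1, h.1.2.2, ?_, ?_⟩
    · rw [sub_sub_cancel]
      exact h.1.2.1
    · have h1 : ω.1.2.2 - (ω.1.1.1 - ω.1.2.1) = ω.1.1.2 := by linarith [h.2]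
      rw [h1]
      exact h.1.1.2
  · refine sl_uni hcard _ _ (e1 A) fun ω => ?_
    have h := (mem_quad A ω.1).1 ω.2
    change (ω.1.2.2, ω.1.1.1, ω.1.1.1 - ω.1.2.1) = (ω.1.2.2, ω.1.1.1, ω.1.2.2 - ω.1.1.2)
    rw [Prod.mk.injEq, Prod.mk.injEq]
    exact ⟨rfl, rfl, by linarith [h.2]⟩
  · refine sl_uni hcard _ _ (e2 A) fun ω => ?_
    change (ω.1.1.1, ω.1.1.1 - (ω.1.1.1 - ω.1.2.1), ω.1.1.1 - ω.1.2.2) =
      (ω.1.1.1, ω.1.2.1, ω.1.1.1 - ω.1.2.2)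
    rw [sub_sub_cancel]
  · rw [H3, hE]
  · rw [H3, H2]
    ring
  · rw [H2, H1]
    ring

end NCE
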