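import Pool.Agent.NCE.Defs

/-!
# Entropy calculus for the additive energy of convex sets: statements of the library modules

helper53, problem MP_f03f67_co.  Every module proves one `S_XXX`; the statements of other modules
that it uses are hypotheses (`theorem t_XXX (h : S_YYY) : S_XXX`), so nobody waits.
-/

set_option autoImplicit false

open Finset
open scoped Classical

namespace NCE

/-- DET.  If `W` is a function of `V` then `H W ≤ H V`; in particular `H V = H W` if each is a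
function of the other.
Proof: if `p ω ≠ 0` then `0 < pr V (V ω) ≤ pr W (W ω)` (the fibre of `V` through `ω` lies in the
fibre of `W` through `ω`), so `- log (pr W (W ω)) ≤ - log (pr V (V ω))`. -/
def S_DET : Prop := ∀ (Ω : Type) [Fintype Ω] (P : FP Ω) (α β : Type) (V : Ω → α) (W : Ω → β),
  Det V W → H P W ≤ H P V

/-- SLF.  Equality of laws passes to functions, to entropies and to expectations.
Proof: `pr P (F ∘ X) y = ∑ x ∈ S, if F x = y then pr P X x else 0` for a finite set `S` of values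
containing all the values of `X` and `X'`; `H` and `ex` are sums over `S` of `pr P X x * ...`. -/
def S_SLF : Prop := ∀ (Ω Ω' : Type) [Fintype Ω] [Fintype Ω'] (P : FP Ω) (P' : FP Ω') (α β : Type)
  (X : Ω → α) (X' : Ω' → α) (F : α → β) (f : α → ℝ), SL P X P' X' →
    SL P (fun ω => F (X ω)) P' (fun ω => F (X' ω)) ∧
    H P (fun ω => F (X ω)) = H P' (fun ω => F (X' ω)) ∧
    ex P (fun ω => f (X ω)) = ex P' (fun ω => f (X' ω))

/-- SUB.  Submodularity in general form.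
Proof: let `V = (V₁, V₂)`; by DET `H W ≤ H V`.  With
`x ω = pr V₁ (V₁ ω) * pr V₂ (V₂ ω) / (pr V (V ω) * pr U (U ω))` one has (for `p ω ≠ 0`)
`log x ≤ x - 1`, so `H V + H U - H V₁ - H V₂ = ex (log x) ≤ ex x - 1`, and `ex x ≤ 1`: write
`pr V₁ (V₁ ω) * pr V₂ (V₂ ω) = ∑ ω₁ ω₂, p ω₁ * p ω₂ * [V₁ ω₁ = V₁ ω] * [V₂ ω₂ = V₂ ω]`; for fixed
`ω₁, ω₂` the `ω` with `V₁ ω = V₁ ω₁, V₂ ω = V₂ ω₂` form one fibre of `V`, on which
`∑ p ω / pr V (V ω) ≤ 1` and `U ω = U ω₁ = U ω₂`; the rest is at most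
`∑ ω₁, p ω₁ * (∑ ω₂ with U ω₂ = U ω₁, p ω₂) / pr U (U ω₁) ≤ 1`. -/
def S_SUB : Prop := ∀ (Ω : Type) [Fintype Ω] (P : FP Ω) (α β γ δ : Type)
  (U : Ω → α) (V₁ : Ω → β) (V₂ : Ω → γ) (W : Ω → δ), Det V₁ U → Det V₂ U →
    (∀ ω ω', V₁ ω = V₁ ω' → V₂ ω = V₂ ω' → W ω = W ω') →
    H P W + H P U ≤ H P V₁ + H P V₂

/-- GIB.  Gibbs' inequality.
Proof: with `c = ∑ z ∈ S, r z > 0`, `log (r z / (c * pr Z z)) ≤ r z / (c * pr Z z) - 1`, and
`ex (r (Z ω) / pr Z (Z ω)) ≤ ∑ z ∈ S, r z` (sum over the fibres of `Z`; the `ω` of weight `0` do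
not count). -/
def S_GIB : Prop := ∀ (Ω : Type) [Fintype Ω] (P : FP Ω) (α : Type) (Z : Ω → α) (S : Finset α)
  (r : α → ℝ), (∀ z ∈ S, 0 < r z) → (∀ ω, P.p ω ≠ 0 → Z ω ∈ S) →
    H P Z + ex P (fun ω => Real.log (r (Z ω))) ≤ Real.log (∑ z ∈ S, r z)

/-- CNT.  Conditional counting bound.
Proof: Gibbs for `(V, W)` with weight `pr P V v / (F v).card` on the set of the pairs
`(v, w)`, `v` a value of `V` with `pr P V v ≠ 0` and `w ∈ F v` (total weight `≤ 1`); or directly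
with `log x ≤ x - 1`. -/
def S_CNT : Prop := ∀ (Ω : Type) [Fintype Ω] (P : FP Ω) (α β : Type) (V : Ω → α) (W : Ω → β)
  (F : α → Finset β), (∀ ω, P.p ω ≠ 0 → W ω ∈ F (V ω)) →
    H P (fun ω => (V ω, W ω)) ≤ H P V + ex P (fun ω => Real.log (F (V ω)).card)

/-- CON.  Conditioning.  For every `z` with `pr P Z z ≠ 0` there is a probability `Q z` on the same
`Ω` with weights `p ω / pr P Z z` on `{Z = z}` and `0` elsewhere, and every entropy relative to `Z`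
is the average of the entropies for `Q z`. -/
def S_CON : Prop := ∀ (Ω : Type) [Fintype Ω] (P : FP Ω) (γ : Type) (Z : Ω → γ),
  ∃ Q : Ω → FP Ω,
    (∀ ω ω', P.p ω ≠ 0 → (Q ω).p ω' ≠ 0 → Z ω' = Z ω ∧ P.p ω' ≠ 0) ∧
    (∀ (α : Type) (X : Ω → α), H P (fun ω => (Z ω, X ω)) = H P Z + ex P fun ω => H (Q ω) X) ∧
    (∀ f : Ω → ℝ, ex P f = ex P fun ω => ex (Q ω) f)

/-- GLU.  Conditionally independent gluing of two spaces over a common law.
The space is the subtype `{q : Ω₁ × Ω₂ // Y₁ q.1 = Y₂ q.2}` with weights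
`P₁.p q.1 * P₂.p q.2 / pr P₁ Y₁ (Y₁ q.1)` (`0` if the denominator is `0`).  For the entropy:
`pr (X₁, X₂) (x₁, x₂) = pr P₁ X₁ x₁ * pr P₂ X₂ x₂ / pr P₁ Y₁ y` when `x₁, x₂` lie over the same
`y`, so `log` splits for every `ω` of positive weight. -/
def S_GLU : Prop := ∀ (Ω₁ Ω₂ : Type) [Fintype Ω₁] [Fintype Ω₂] (P₁ : FP Ω₁) (P₂ : FP Ω₂)
  (σ : Type) (Y₁ : Ω₁ → σ) (Y₂ : Ω₂ → σ), SL P₁ Y₁ P₂ Y₂ →
  ∃ (Ω : Type) (_ : Fintype Ω) (P : FP Ω) (π₁ : Ω → Ω₁) (π₂ : Ω → Ω₂),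
    (∀ q, Y₁ (π₁ q) = Y₂ (π₂ q)) ∧
    SL P π₁ P₁ id ∧ SL P π₂ P₂ id ∧
    (∀ (α β : Type) (X₁ : Ω₁ → α) (X₂ : Ω₂ → β), Det X₁ Y₁ → Det X₂ Y₂ →
      H P (fun q => (X₁ (π₁ q), X₂ (π₂ q))) = H P₁ X₁ + H P₂ X₂ - H P₁ Y₁) ∧
    ∀ x₁ x₂, pr P (fun q => (π₁ q, π₂ q)) (x₁, x₂) =
      if Y₁ x₁ = Y₂ x₂ then P₁.p x₁ * P₂.p x₂ / pr P₁ Y₁ (Y₁ x₁) else 0

/-- SGL.  Gluing of two copies of one space over `Y`; the exchange of the copies preserves the law.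
Proof: GLU with `P₁ = P₂ = P`; the exchange follows from the formula for the joint law. -/
def S_SGL : Prop := ∀ (Ω : Type) [Fintype Ω] (P : FP Ω) (σ : Type) (Y : Ω → σ),
  ∃ (Ω' : Type) (_ : Fintype Ω') (P' : FP Ω') (π₁ π₂ : Ω' → Ω),
    (∀ q, Y (π₁ q) = Y (π₂ q)) ∧
    SL P' π₁ P id ∧ SL P' π₂ P id ∧
    SL P' (fun q => (π₁ q, π₂ q)) P' (fun q => (π₂ q, π₁ q)) ∧
    ∀ (α β : Type) (X₁ : Ω → α) (X₂ : Ω → β), Det X₁ Y → Det X₂ Y →
      H P' (fun q => (X₁ (π₁ q), X₂ (π₂ q))) = H P X₁ + H P X₂ - H P Y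

/-- FRE.  A fresh representation of a difference `z`.
The space is the subtype of the `(ω, g) ∈ Ω × A` with `g - z ω ∈ A`, the weight is
`P.p ω / rr A (z ω)`. -/
def S_FRE : Prop := ∀ (Ω : Type) [Fintype Ω] (P : FP Ω) (A : Finset ℝ) (z : Ω → ℝ),
  (∀ ω, 0 < rr A (z ω)) →
  ∃ (Ω' : Type) (_ : Fintype Ω') (P' : FP Ω') (π : Ω' → Ω) (g : Ω' → ℝ),
    (∀ q, g q ∈ A ∧ g q - z (π q) ∈ A) ∧ SL P' π P id ∧
    ∀ (α : Type) (X : Ω → α), Det X z →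
      H P' (fun q => (X (π q), g q)) = H P X + ex P fun ω => Real.log (rr A (z ω))

/-- INA.  The numerical inequality in the incidence lemma.
Proof: let `m = s.card`; for `x = u * m / N`, `y = v * m / M` the inequality
`1 / (x * y) ≥ 3 - x - y` (arithmetic and geometric mean of `1 / (x y)`, `x`, `y`) summed over `s`
gives `∑ 1 / (x y) ≥ 3 m - m - m = m`; multiply by `m ^ 2 / (N M)`. -/
def S_INA : Prop := ∀ (ι : Type) (s : Finset ι) (u v : ι → ℝ) (N M : ℝ), 0 < N → 0 < M →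
  (∀ k ∈ s, 0 < u k ∧ 0 < v k) → ∑ k ∈ s, u k ≤ N → ∑ k ∈ s, v k ≤ M →
    (s.card : ℝ) ^ 3 / (N * M) ≤ ∑ k ∈ s, 1 / (u k * v k)

/-- INC.  The elementary incidence lemma (instead of the theorem of Szemeredi and Trotter).
Proof: fix `c` with `m = rc A B c ≥ 2`; let `b₀ < ... < b_{m-1}` be the `b ∈ B` with
`α_k = b_k + c ∈ A`; `u_k ≥ 1` the difference of the indices of `α_{k+1}` and `α_k` in the sequence
`a`, `v_k ≥ 1` the number of the elements of `B` in `[b_k, b_{k+1})`.  Then `∑ u_k ≤ n`,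
`∑ v_k ≤ |B|`, and INA gives `∑_k 1 / (u_k v_k) ≥ (m - 1)³ / (n |B|)`.  The map
`(c, k) ↦ (b_k, v_k, u_k)` is injective: `b_k, v_k` determine `b_{k+1}`, and
`α_{k+1} - α_k = b_{k+1} - b_k` with the index step `u_k` determines `α_k`, because
`a (i + u) - a i` is strictly increasing in `i` (convexity); so `c = α_k - b_k` is determined.
Sum: `∑_c (m_c - 1)³ ≤ n |B| * |B| (1 + log |B|) (1 + log n)` (harmonic sums).
Finally `m³ ≤ 8 ((m - 1)³ + 1)` for `m ≥ 1`, and the number of `c` with `m_c ≥ 1` is at most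
`n |B|`. -/
def S_INC : Prop := ∀ (n : ℕ) (a : ℕ → ℝ), 1 ≤ n → Cvx n a → ∀ (B C : Finset ℝ), B.Nonempty →
  ∑ c ∈ C, ((rc (cs n a) B c : ℝ)) ^ 3 ≤
    16 * n * (B.card : ℝ) ^ 2 * (1 + Real.log n) * (1 + Real.log B.card)

/-- ST0.  Entropic incidence inequality, unconditional.
Proof: let `β x = pr P b x`, `Λ = ⌈k log₂ n⌉` and `J = min Λ ⌊- log₂ β (b ω)⌋` (dyadic class of
`b`).  Then `H (b, c) = H (J, b, c) ≤ H J + H (c | J) + H (b | c, J) ≤ log (Λ + 1) + ...`,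
`H (c | J) ≤ H c`, and for every `j` (law conditioned on `J = j`, CON)
`3 H (b | c) + H c ≤ log ∑_c rc(B_j, c)³` by CNT and GIB with `B_j` the set of the values of `b` of
class `j`; INC bounds the sum by `C n |B_j|² log²`.  Finally `|B_j| ≤ 2^(j+1)` for `j < Λ`,
`|B_Λ| ≤ n ^ k ≤ 2 ^ Λ`, so `log |B_J| ≤ log 2 - log β (b ω)` and `E log |B_J| ≤ H b + log 2`. -/
def S_ST0 : Prop := ∀ (k : ℕ) (ε : ℝ), 0 < ε → ∃ K : ℝ, 0 ≤ K ∧
  ∀ (n : ℕ) (a : ℕ → ℝ), 1 ≤ n → Cvx n a →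
  ∀ (Ω : Type) [Fintype Ω] (P : FP Ω) (b c : Ω → ℝ), Sm n k b →
    (∀ ω, P.p ω ≠ 0 → b ω + c ω ∈ cs n a) →
    3 * H P (fun ω => (b ω, c ω)) ≤
      Real.log n + 2 * H P b + 2 * H P c + ε * Real.log n + K

/-- ST.  Entropic incidence inequality, conditional.  Proof: CON and ST0. -/
def S_ST : Prop := ∀ (k : ℕ) (ε : ℝ), 0 < ε → ∃ K : ℝ, 0 ≤ K ∧
  ∀ (n : ℕ) (a : ℕ → ℝ), 1 ≤ n → Cvx n a →
  ∀ (Ω : Type) [Fintype Ω] (P : FP Ω) (γ : Type) (Z : Ω → γ) (b c : Ω → ℝ), Sm n k b →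
    (∀ ω, b ω + c ω ∈ cs n a) →
    3 * H P (fun ω => (Z ω, b ω, c ω)) + H P Z ≤
      Real.log n + 2 * H P (fun ω => (Z ω, b ω)) + 2 * H P (fun ω => (Z ω, c ω)) +
        ε * Real.log n + K

/-- G3.  `H z + 3 E log r(z) ≤ 3 log n + ...`.  Proof: GIB with the weights `rr z ^ 3` on the set
`A - A`; `rr A z = rc A A z` and INC with `B = A`. -/
def S_G3 : Prop := ∀ ε : ℝ, 0 < ε → ∃ K : ℝ, 0 ≤ K ∧ ∀ (n : ℕ) (a : ℕ → ℝ), 1 ≤ n → Cvx n a →
  ∀ (Ω : Type) [Fintype Ω] (P : FP Ω) (z : Ω → ℝ), (∀ ω, 0 < rr (cs n a) (z ω)) →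
    H P z + 3 * ex P (fun ω => Real.log (rr (cs n a) (z ω))) ≤
      3 * Real.log n + ε * Real.log n + K

/-- LEV.  Given `z`, an `a ∈ A` with `a - z ∈ A` takes at most `rr A z` values (conditionally on
anything that determines `z`).  Proof: CNT. -/
def S_LEV : Prop := ∀ (A : Finset ℝ) (Ω : Type) [Fintype Ω] (P : FP Ω) (γ : Type) (Z : Ω → γ)
  (z a : Ω → ℝ), Det Z z → (∀ ω, a ω ∈ A ∧ a ω - z ω ∈ A) →
    H P (fun ω => (Z ω, a ω)) ≤ H P Z + ex P (fun ω => Real.log (rr A (z ω)))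

/-- E3T.  `2 H (a, b, c) ≤ H (a - b, b - c) + 3 log n + ...` for `a, b, c ∈ A`.
Proof: glue two copies of `(a, b, c)` over `(a - b, b - c)` (GLU); with `z = a' - a` the entropy of
`(a, b, c, z)` is `2 H (a, b, c) - H (a - b, b - c)`, and it is at most
`H z + 3 E log r(z)` (LEV three times), then G3. -/
def S_E3T : Prop := ∀ ε : ℝ, 0 < ε → ∃ K : ℝ, 0 ≤ K ∧ ∀ (n : ℕ) (a : ℕ → ℝ), 1 ≤ n → Cvx n a →
  ∀ (Ω : Type) [Fintype Ω] (P : FP Ω) (x y z : Ω → ℝ),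
    (∀ ω, x ω ∈ cs n a ∧ y ω ∈ cs n a ∧ z ω ∈ cs n a) →
    2 * H P (fun ω => (x ω, y ω, z ω)) ≤
      H P (fun ω => (x ω - y ω, y ω - z ω)) + 3 * Real.log n + ε * Real.log n + K

/-- SCH.  Asymmetric Schur inequality: if `s - c` is a difference of `A` then
`H (c, s) + E log r(s - c) ≤ log n + (5/6) H c + (2/3) H s + ...`.
Proof: fresh representation `s - c = g - g'` (FRE), `f = c + g = s + g'`;
`H (c, s) + E log r = H (c, s, g) ≤ H (c, f) + H (s, f) - H f` (SUB);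
`3 H (c, f) ≤ log n + 2 H c + 2 H f` and `3 H (s, f) ≤ log n + 2 H s + 2 H f` (ST0 with `b = -c`
and `b = -s`; the elements of `A` are `g = f - c` and `g' = f - s`) and `H (c, f) ≤ H c + log n` (CNT, `g ∈ A`).
Half the sum of the two resulting bounds. -/
def S_SCH : Prop := ∀ (k : ℕ) (ε : ℝ), 0 < ε → ∃ K : ℝ, 0 ≤ K ∧
  ∀ (n : ℕ) (a : ℕ → ℝ), 1 ≤ n → Cvx n a →
  ∀ (Ω : Type) [Fintype Ω] (P : FP Ω) (c s : Ω → ℝ), Sm n k c → Sm n k s →
    (∀ ω, 0 < rr (cs n a) (s ω - c ω)) →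
    H P (fun ω => (c ω, s ω)) + ex P (fun ω => Real.log (rr (cs n a) (s ω - c ω))) ≤
      Real.log n + (5 / 6) * H P c + (2 / 3) * H P s + ε * Real.log n + K

/-- QUA.  A uniform random additive quadruple `b - c = b' - c'` of `A`, `y = b - b'`
(so `b' = b - y`, `c' = c - y`).  The law is invariant under `(b, c, y) ↦ (c, b, y)` and
`(b, c, y) ↦ (b, b - y, b - c)`; `H (b, c, y) = log E(A)` and
`H (b, c, y) = H (b, c) + E log r(b - c)`, and `H (b, c) = H (b - c) + E log r(b - c)`. -/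
def S_QUA : Prop := ∀ (A : Finset ℝ), A.Nonempty →
  ∃ (Ω : Type) (_ : Fintype Ω) (P : FP Ω) (b c y : Ω → ℝ),
    (∀ ω, b ω ∈ A ∧ c ω ∈ A ∧ b ω - y ω ∈ A ∧ c ω - y ω ∈ A) ∧
    SL P (fun ω => (b ω, c ω, y ω)) P (fun ω => (c ω, b ω, y ω)) ∧
    SL P (fun ω => (b ω, c ω, y ω)) P (fun ω => (b ω, b ω - y ω, b ω - c ω)) ∧
    H P (fun ω => (b ω, c ω, y ω)) = Real.log (energy A) ∧
    H P (fun ω => (b ω, c ω, y ω)) =
      H P (fun ω => (b ω, c ω)) + ex P (fun ω => Real.log (rr A (b ω - c ω))) ∧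
    H P (fun ω => (b ω, c ω)) =
      H P (fun ω => b ω - c ω) + ex P (fun ω => Real.log (rr A (b ω - c ω)))

end NCE
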